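import Pool.Agent.Lib.MP_0da313_nt.NC.E

set_option autoImplicit false

/-!
Project NC, section E: the number of the relevant classes.
-/

namespace Pool.Agent.NC.E

open Finset Polynomial
open Pool.Agent.NC (Fam Cq)
open Pool.Agent.Lib.MP_0da313_nt

private lemma ne_cq_dvd_mod (G : ℤ[X]) (p c : ℕ) (h : (p : ℤ) ∣ G.eval (c : ℤ)) :
    (p : ℤ) ∣ G.eval ((c % p : ℕ) : ℤ) := by
  have h1 := Polynomial.sub_dvd_eval_sub (((c % p : ℕ) : ℤ)) ((c : ℕ) : ℤ) G
  have h2 : (p : ℤ) ∣ ((c % p : ℕ) : ℤ) - ((c : ℕ) : ℤ) := by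
    have h3 : ((c % p : ℕ) : ℤ) = (c : ℤ) % p := by push_cast; rfl
    rw [h3, ← Int.modEq_iff_dvd]
    exact (Int.mod_modEq _ _).symm
  have h4 := dvd_add (h2.trans h1) h
  rwa [sub_add_cancel] at h4

private lemma ne_cq_inj {q c c' : ℕ} (hq : Squarefree q) (hc : c < q) (hc' : c' < q)
    (h : ∀ p ∈ q.primeFactors, c % p = c' % p) : c = c' := by
  have h1 : ((q : ℕ) : ℤ) ∣ (c : ℤ) - (c' : ℤ) := by
    rw [← Int.natAbs_dvd_natAbs, Int.natAbs_natCast, ← Nat.prod_primeFactors_of_squarefree hq]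
    refine Finset.prod_primes_dvd _ (fun p hp => (Nat.prime_of_mem_primeFactors hp).prime) ?_
    intro p hp
    have h2 : (p : ℤ) ∣ (c : ℤ) - (c' : ℤ) := by
      rw [← Int.modEq_iff_dvd]
      exact (Int.natCast_modEq_iff.2 (h p hp)).symm
    have h3 := Int.natAbs_dvd_natAbs.2 h2
    rwa [Int.natAbs_natCast] at h3
  have h4 : (c' : ℤ) ≡ c [ZMOD q] := Int.modEq_iff_dvd.2 h1
  have h5 := Int.natCast_modEq_iff.1 h4
  exact (Nat.ModEq.eq_of_lt_of_lt h5 hc' hc).symm

theorem p_cq : S_cq := by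
  intro ι _ _ D d E F n q hn hq l
  have h1 : (Cq F n q l).card ≤ (q.primeFactors.pi
      (fun p => (range p).filter (fun x : ℕ => (p : ℤ) ∣ (F.G n).eval (x : ℤ)))).card := by
    refine Finset.card_le_card_of_injOn (fun c p _ => c % p) ?_ ?_
    · intro c hc
      rw [Finset.mem_coe, Cq, mem_filter] at hc
      rw [Finset.mem_coe, Finset.mem_pi]
      intro p hp
      rw [mem_filter, mem_range]
      have hpp := Nat.prime_of_mem_primeFactors hp
      have hpq : (p : ℤ) ∣ (q : ℤ) := by exact_mod_cast Nat.dvd_of_mem_primeFactors hp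
      exact ⟨Nat.mod_lt _ hpp.pos, ne_cq_dvd_mod _ p c (hpq.trans hc.2.1)⟩
    · intro c hc c' hc' h
      rw [Finset.mem_coe, Cq, mem_filter, mem_range] at hc hc'
      refine ne_cq_inj hq hc.1 hc'.1 ?_
      intro p hp
      exact congrFun (congrFun h p) hp
  have h2 : (q.primeFactors.pi
      (fun p => (range p).filter (fun x : ℕ => (p : ℤ) ∣ (F.G n).eval (x : ℤ)))).card ≤
      D ^ q.primeFactors.card := by
    rw [Finset.card_pi]
    calc _ ≤ ∏ _p ∈ q.primeFactors, D := by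
          refine Finset.prod_le_prod' ?_
          intro p hp
          have hpp := Nat.prime_of_mem_primeFactors hp
          exact card_roots_mod_le (F.G n) p D hpp (F.hdeg n hn) (F.hloc n hn p hpp)
      _ = D ^ q.primeFactors.card := by rw [Finset.prod_const]
  exact_mod_cast h1.trans h2

end Pool.Agent.NC.E
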