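import Pool.Agent.Lib.MP_0da313_nt.NC.E

set_option autoImplicit false

/-!
[NE loc]: location of the values.
-/

namespace Pool.Agent.NC.E

open Finset Filter Polynomial
open Pool.Agent.MP89da58 (tri)
open Pool.Agent.CM (wd)
open Pool.Agent.NC (Fam Hn Bn)

variable {ι : Type} [Fintype ι] [DecidableEq ι] {D d E : ℕ}

private theorem ne_loc_win (F : Fam ι D d E) {N x : ℕ} (hN : 0 < N) (hx : 0 < x)
    (h : F.wh N x ≠ 0) : ∃ τ : ℝ, |τ| ≤ 1 / (1000 * E) ∧ (x : ℝ) ^ d = F.s * N * Real.exp τ := by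
  have hd : (0 : ℝ) < d := by exact_mod_cast (lt_of_lt_of_le two_pos F.hd)
  have hE : (0 : ℝ) < E := by exact_mod_cast F.hE
  have hN' : (0 : ℝ) < N := by exact_mod_cast hN
  have hx' : (0 : ℝ) < x := by exact_mod_cast hx
  have hs : 0 < F.s := lt_of_lt_of_le (by norm_num) F.hs0
  have hX : 0 < F.X N := Real.rpow_pos_of_pos (mul_pos hs hN') _
  have hXd : F.X N ^ d = F.s * N := by
    rw [Fam.X, ← Real.rpow_natCast, ← Real.rpow_mul (mul_pos hs hN').le, one_div,
      inv_mul_cancel₀ hd.ne', Real.rpow_one]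
  have h1 : |1000 * (d : ℝ) * E * Real.log (x / F.X N)| < 1 := by
    by_contra hcon
    apply h
    rw [Fam.wh, wd, tri]
    exact max_eq_left (by linarith)
  refine ⟨d * Real.log (x / F.X N), ?_, ?_⟩
  · rw [abs_mul, abs_mul, abs_mul, abs_of_pos (by norm_num : (0 : ℝ) < 1000), abs_of_pos hd,
      abs_of_pos hE] at h1
    rw [abs_mul, abs_of_pos hd, le_div_iff₀ (by positivity)]
    nlinarith
  · have h2 : (x : ℝ) = F.X N * Real.exp (Real.log (x / F.X N)) := by
      rw [Real.exp_log (by positivity)]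
      field_simp
    calc (x : ℝ) ^ d = (F.X N * Real.exp (Real.log (x / F.X N))) ^ d := by rw [← h2]
      _ = F.X N ^ d * Real.exp (d * Real.log (x / F.X N)) := by
          rw [mul_pow, ← Real.exp_nat_mul]
      _ = _ := by rw [hXd]

private theorem ne_loc_le (F : Fam ι D d E) {N x : ℕ} (hN : 0 < N) (hx : 0 < x)
    (h : F.wh N x ≠ 0) : (x : ℝ) ≤ (N : ℝ) ^ (1 / (d : ℝ)) := by
  obtain ⟨τ, h1, h2⟩ := ne_loc_win F hN hx h
  have hd0 : d ≠ 0 := by have := F.hd; omega
  have hE : (1 : ℝ) ≤ E := by exact_mod_cast F.hE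
  have hN' : (0 : ℝ) < N := by exact_mod_cast hN
  have hx' : (0 : ℝ) < x := by exact_mod_cast hx
  have h3 : |τ| ≤ 1 / 1000 := h1.trans (by
    apply one_div_le_one_div_of_le (by norm_num)
    linarith)
  have h4 : Real.exp τ ≤ 2 := by
    have h5 := Real.abs_exp_sub_one_le (x := τ) (by linarith)
    have h6 := (abs_le.1 h5).2
    linarith
  have h5 : (x : ℝ) ^ d ≤ N := by
    rw [h2]
    have hs := F.hs1
    have hs0 := F.hs0
    have h6 : F.s * Real.exp τ ≤ 1 := by nlinarith [Real.exp_pos τ]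
    nlinarith
  have h6 : (x : ℝ) = ((x : ℝ) ^ d) ^ (1 / (d : ℝ)) := by
    rw [one_div, Real.pow_rpow_inv_natCast hx'.le hd0]
  rw [h6]
  exact Real.rpow_le_rpow (by positivity) h5 (by positivity)

private theorem ne_loc_poly (F : Fam ι D d E) (l : ι) {x : ℕ} (hx : 0 < x) :
    |(((F.g l).eval (x : ℤ) : ℤ) : ℝ) - ((F.g l).coeff d : ℝ) * (x : ℝ) ^ d| ≤
      (∑ i ∈ range d, |((F.g l).coeff i : ℝ)|) * (x : ℝ) ^ (d - 1) := by
  have hx' : (1 : ℝ) ≤ x := by exact_mod_cast hx
  rw [eval_eq_sum_range, F.hg l, sum_range_succ]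
  push_cast
  rw [add_sub_cancel_right, sum_mul]
  refine (abs_sum_le_sum_abs _ _).trans (sum_le_sum fun i hi => ?_)
  rw [mem_range] at hi
  rw [abs_mul, abs_of_pos (by positivity : (0 : ℝ) < (x : ℝ) ^ i)]
  exact mul_le_mul_of_nonneg_left (pow_le_pow_right₀ hx' (by omega)) (abs_nonneg _)

theorem p_loc : S_loc := by
  intro ι _ _ D d E F
  have hd : (0 : ℝ) < d := by exact_mod_cast (lt_of_lt_of_le two_pos F.hd)
  have hE : (1 : ℝ) ≤ E := by exact_mod_cast F.hE
  have ht : ∀ l, 0 < F.t l := by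
    intro l
    have h1 := F.ht l
    have h2 : 0 < |(F.a l : ℝ)| := abs_pos.2 (by exact_mod_cast F.ha l)
    have h3 : 0 < (E : ℝ) * F.t l := by
      have := abs_nonneg ((F.g l).coeff d : ℝ)
      have h4 : (E : ℝ) * F.t l = E * (F.a l + (F.g l).coeff d * F.s) := rfl
      rw [h4]
      linarith
    exact (mul_pos_iff_of_pos_left (by linarith)).1 h3
  have hY : Tendsto (fun N : ℕ => (N : ℝ) ^ (1 / (d : ℝ))) atTop atTop :=
    (tendsto_rpow_atTop (by positivity)).comp tendsto_natCast_atTop_atTop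
  have hev : ∀ᶠ N : ℕ in atTop, ∀ l : ι,
      (∑ i ∈ range d, |((F.g l).coeff i : ℝ)|) / (F.t l * (9 / 1000)) ≤ (N : ℝ) ^ (1 / (d : ℝ)) := by
    rw [eventually_all]
    exact fun l => hY.eventually_ge_atTop _
  filter_upwards [hev, eventually_gt_atTop 0] with N hNY hN
  have hN' : (0 : ℝ) < N := by exact_mod_cast hN
  refine ⟨fun x hx h => ?_, fun n hn l x hx h => ?_⟩
  · exact Nat.le_floor (ne_loc_le F hN hx h)
  · obtain ⟨τ, h1, h2⟩ := ne_loc_win F hN hx h
    have hxY := ne_loc_le F hN hx h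
    have hx' : (0 : ℝ) < x := by exact_mod_cast hx
    have hp := ne_loc_poly F l hx
    set Y : ℝ := (N : ℝ) ^ (1 / (d : ℝ)) with hYdef
    have hY0 : 0 < Y := Real.rpow_pos_of_pos hN' _
    have hYd : Y ^ (d - 1) * Y = N := by
      rw [← pow_succ, show d - 1 + 1 = d by have := F.hd; omega, hYdef, ← Real.rpow_natCast,
        ← Real.rpow_mul hN'.le, one_div, inv_mul_cancel₀ hd.ne', Real.rpow_one]
    set Cl : ℝ := ∑ i ∈ range d, |((F.g l).coeff i : ℝ)| with hCl
    have hCl0 : 0 ≤ Cl := sum_nonneg fun i _ => abs_nonneg _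
    have hrest : Cl * (x : ℝ) ^ (d - 1) ≤ F.t l * (9 / 1000) * N := by
      have h3 : Cl ≤ Y * (F.t l * (9 / 1000)) := by
        have := hNY l
        rwa [div_le_iff₀ (mul_pos (ht l) (by norm_num))] at this
      calc Cl * (x : ℝ) ^ (d - 1) ≤ (Y * (F.t l * (9 / 1000))) * Y ^ (d - 1) := by
            refine mul_le_mul h3 (pow_le_pow_left₀ hx'.le hxY _) (by positivity) ?_
            have := ht l
            positivity
        _ = F.t l * (9 / 1000) * (Y ^ (d - 1) * Y) := by ring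
        _ = _ := by rw [hYd]
    -- the difference `x ^ d - s N`
    have h3 : |(x : ℝ) ^ d - F.s * N| ≤ N / (1000 * E) := by
      rw [h2]
      have h4 : F.s * N * Real.exp τ - F.s * N = F.s * N * (Real.exp τ - 1) := by ring
      have hs0 : 0 < F.s := lt_of_lt_of_le (by norm_num) F.hs0
      have hs1 := F.hs1
      have h5 : 1 / (1000 * (E : ℝ)) ≤ 1 := by
        rw [div_le_one (by positivity)]; linarith
      have h6 := Real.abs_exp_sub_one_le (x := τ) (by linarith)
      rw [h4, abs_mul, abs_of_pos (mul_pos hs0 hN')]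
      calc F.s * N * |Real.exp τ - 1| ≤ (1 / 2) * N * (2 * (1 / (1000 * E))) := by
            gcongr
            exact h6.trans (by linarith)
        _ = _ := by ring
    -- the difference `n - N`
    rw [mem_Ioc, Bn] at hn
    have h4 : |(n : ℝ) - N| ≤ N / (1000 * E) := by
      have h5 : (N : ℝ) < n := by exact_mod_cast hn.1
      have h6 : (n : ℝ) ≤ N + ((N / (1000 * E) : ℕ) : ℝ) := by exact_mod_cast hn.2
      have h7 : ((N / (1000 * E) : ℕ) : ℝ) ≤ (N : ℝ) / ((1000 * E : ℕ) : ℝ) := Nat.cast_div_le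
      push_cast at h7
      rw [abs_of_pos (by linarith)]
      linarith
    have h5 : (F.L n l x : ℝ) - F.t l * N = F.a l * ((n : ℝ) - N) +
        (F.g l).coeff d * ((x : ℝ) ^ d - F.s * N) +
        ((((F.g l).eval (x : ℤ) : ℤ) : ℝ) - ((F.g l).coeff d : ℝ) * (x : ℝ) ^ d) := by
      rw [Fam.L, Fam.t]
      push_cast
      ring
    have h6 : |(F.L n l x : ℝ) - F.t l * N| ≤ F.t l * N / 100 := by
      rw [h5]
      have h7 := F.ht l
      have h8 : (|(F.a l : ℝ)| + |((F.g l).coeff d : ℝ)|) * (N / (1000 * E)) ≤ F.t l * N / 1000 := by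
        calc (|(F.a l : ℝ)| + |((F.g l).coeff d : ℝ)|) * (N / (1000 * E))
            ≤ (E * F.t l) * (N / (1000 * E)) := by
              refine mul_le_mul_of_nonneg_right h7 (by positivity)
          _ = _ := by field_simp
      calc |F.a l * ((n : ℝ) - N) + (F.g l).coeff d * ((x : ℝ) ^ d - F.s * N) +
            ((((F.g l).eval (x : ℤ) : ℤ) : ℝ) - ((F.g l).coeff d : ℝ) * (x : ℝ) ^ d)|
          ≤ |F.a l * ((n : ℝ) - N)| + |(F.g l).coeff d * ((x : ℝ) ^ d - F.s * N)| +
            |(((F.g l).eval (x : ℤ) : ℤ) : ℝ) - ((F.g l).coeff d : ℝ) * (x : ℝ) ^ d| :=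
            (abs_add_le _ _).trans (add_le_add_left (abs_add_le _ _) _)
        _ ≤ |(F.a l : ℝ)| * (N / (1000 * E)) + |((F.g l).coeff d : ℝ)| * (N / (1000 * E)) +
            F.t l * (9 / 1000) * N := by
            rw [abs_mul, abs_mul]
            refine add_le_add (add_le_add ?_ ?_) (hp.trans hrest)
            · exact mul_le_mul_of_nonneg_left h4 (abs_nonneg _)
            · exact mul_le_mul_of_nonneg_left h3 (abs_nonneg _)
        _ ≤ _ := by linarith
    have htN : 0 < F.t l * N := mul_pos (ht l) hN'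
    constructor
    · have h7 := (abs_le.1 h6).1
      have h8 : (0 : ℝ) < F.L n l x := by linarith
      exact_mod_cast h8
    · have h7 : (F.L n l x : ℝ) / (F.t l * N) - 1 = ((F.L n l x : ℝ) - F.t l * N) / (F.t l * N) := by
        rw [sub_div, div_self htN.ne']
      rw [h7, abs_div, abs_of_pos htN, div_le_iff₀ htN]
      linarith

end Pool.Agent.NC.E
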