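import Pool.Agent.Lib.MP_0da313_nt.NC.E

set_option autoImplicit false

/-!
Project NC, section E, piece qs: grouping by classes modulo `q`.
-/

namespace Pool.Agent.NC.E

open Finset Filter Polynomial
open Pool.Agent.NC (Fam Hn Bn Cq Er ErS)
open Pool.Agent.NC.G (EL Rn)
open Pool.Agent.GC (tz Pm)

private lemma ne_qs_cop {q a b : ℤ} (h : q ∣ a - b) : IsCoprime q a ↔ IsCoprime q b := by
  obtain ⟨t, ht⟩ := h
  have e : a = b + q * t := by linarith
  rw [e]
  exact IsCoprime.add_mul_left_right_iff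

private lemma ne_qs_Cq {ι : Type} [Fintype ι] [DecidableEq ι] {D d E : ℕ} (F : Fam ι D d E)
    (l : ι) (q n n' : ℕ) (hn : F.N0 ≤ n) (hn' : F.N0 ≤ n') (h : n ≡ n' [MOD q]) :
    Cq F n q l = Cq F n' q l := by
  classical
  unfold Cq
  refine filter_congr fun c _ => ?_
  have hq : (q : ℤ) ∣ (n' : ℤ) - n := Nat.modEq_iff_dvd.1 h
  have hG := F.hper n n' q hn hn' h c
  have h1 : ((q : ℤ) ∣ (F.G n).eval (c : ℤ)) ↔ ((q : ℤ) ∣ (F.G n').eval (c : ℤ)) :=
    dvd_iff_dvd_of_dvd_sub hG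
  have h2 : IsCoprime (q : ℤ) (F.L n l c) ↔ IsCoprime (q : ℤ) (F.L n' l c) := by
    apply ne_qs_cop
    have e : F.L n l c - F.L n' l c = -(F.a l * ((n' : ℤ) - n)) := by
      unfold Fam.L; ring
    rw [e]
    exact dvd_neg.2 (Dvd.dvd.mul_left hq _)
  rw [h1, h2]

/-- Summation over classes. -/
private lemma ne_qs_sum {S : Finset ℕ} {q : ℕ} (hq : 1 ≤ q) (C : ℕ → Finset ℕ) (f : ℕ → ℕ → ℝ)
    (K T : ℝ) (hT : 0 ≤ T) (hK : 0 ≤ K)
    (hC : ∀ n ∈ S, ∀ n' ∈ S, n ≡ n' [MOD q] → C n = C n')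
    (hcard : ∀ n ∈ S, ((C n).card : ℝ) ≤ K)
    (hf : ∀ n0 ∈ S, ∀ c ∈ C n0, ∑ n ∈ S.filter (fun n => n ≡ n0 [MOD q]), f n c ≤ T) :
    ∑ n ∈ S, ∑ c ∈ C n, f n c ≤ q * (K * T) := by
  have h1 : ∑ n ∈ S, ∑ c ∈ C n, f n c =
      ∑ ν ∈ range q, ∑ n ∈ S.filter (fun n => n % q = ν), ∑ c ∈ C n, f n c := by
    symm
    apply sum_fiberwise_of_maps_to
    intro n _
    exact mem_range.2 (Nat.mod_lt _ hq)
  rw [h1]
  have h2 : ∀ ν ∈ range q, ∑ n ∈ S.filter (fun n => n % q = ν), ∑ c ∈ C n, f n c ≤ K * T := by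
    intro ν _
    rcases (S.filter (fun n => n % q = ν)).eq_empty_or_nonempty with h | ⟨n0, hn0⟩
    · rw [h, sum_empty]
      positivity
    · rw [mem_filter] at hn0
      obtain ⟨hn0, hν⟩ := hn0
      have e : S.filter (fun n => n % q = ν) = S.filter (fun n => n ≡ n0 [MOD q]) := by
        refine filter_congr fun n _ => ?_
        unfold Nat.ModEq
        rw [hν]
      rw [e]
      have h3 : ∑ n ∈ S.filter (fun n => n ≡ n0 [MOD q]), ∑ c ∈ C n, f n c =
          ∑ c ∈ C n0, ∑ n ∈ S.filter (fun n => n ≡ n0 [MOD q]), f n c := by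
        rw [sum_comm]
        refine sum_congr rfl fun n hn => ?_
        rw [mem_filter] at hn
        rw [hC n hn.1 n0 hn0 hn.2]
      rw [h3]
      calc ∑ c ∈ C n0, ∑ n ∈ S.filter (fun n => n ≡ n0 [MOD q]), f n c
          ≤ ∑ _c ∈ C n0, T := sum_le_sum fun c hc => hf n0 hn0 c hc
        _ = (C n0).card * T := by rw [sum_const, nsmul_eq_mul]
        _ ≤ K * T := mul_le_mul_of_nonneg_right (hcard n0 hn0) hT
  calc ∑ ν ∈ range q, ∑ n ∈ S.filter (fun n => n % q = ν), ∑ c ∈ C n, f n c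
      ≤ ∑ _ν ∈ range q, K * T := sum_le_sum h2
    _ = q * (K * T) := by rw [sum_const, nsmul_eq_mul, card_range]

theorem p_qs : S_qs := by
  intro hsgq hcq ι _ _ D d E F l A
  obtain ⟨B, C, hC, hev⟩ := hsgq ι D d E F l A
  refine ⟨B, C, hC, ?_⟩
  filter_upwards [hev, eventually_ge_atTop F.N0] with N hN hN0
  intro w k q M hPm hsq hqN hM hE
  have hq1 : 1 ≤ q := Nat.pos_of_ne_zero hsq.ne_zero
  have hqr : (q : ℝ) ≠ 0 := by
    have : q ≠ 0 := by omega
    exact_mod_cast this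
  have hlog : 0 ≤ Real.log (N : ℝ) := Real.log_natCast_nonneg _
  set T : ℝ := C * ((N : ℝ) ^ (1 / (d : ℝ)) *
      (N * Real.log N / (q ^ 2 * (Real.log N) ^ A) +
        (Real.log N) ^ (2 * B) * (q ^ (d - 2) * M))) with hTd
  have hT : 0 ≤ T := by positivity
  have key := ne_qs_sum (S := Ioc N (Bn E N)) hq1 (fun n => Cq F n q l)
    (fun n c => |Er F N w n l q c|) ((D : ℝ) ^ q.primeFactors.card) T hT (by positivity)
    ?_ ?_ ?_
  · refine key.trans (le_of_eq ?_)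
    have h1 : (q : ℝ) ^ (d - 1) = q * q ^ (d - 2) := by
      rw [← pow_succ']
      congr 1
      have := F.hd
      omega
    have h2 : (N : ℝ) * Real.log N / (q * (Real.log N) ^ A) =
        q * (N * Real.log N / (q ^ 2 * (Real.log N) ^ A)) := by
      rw [pow_two, mul_assoc, ← mul_div_assoc, mul_div_mul_left _ _ hqr]
    rw [h1, h2, hTd]
    ring
  · intro n hn n' hn' h
    rw [mem_Ioc] at hn hn'
    exact ne_qs_Cq F l q n n' (by omega) (by omega) h
  · intro n hn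
    rw [mem_Ioc] at hn
    exact hcq ι D d E F n q (by omega) hsq l
  · intro n0 hn0 c hc
    have hcop : IsCoprime (q : ℤ) (F.L n0 l c) := by
      classical
      simp only [Cq, mem_filter] at hc
      exact hc.2.2
    exact hN w k q n0 c M hPm hsq hqN hcop hM hE

end Pool.Agent.NC.E
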