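import Pool.Agent.Lib.MP_0da313_nt.NC.E
import Pool.Agent.Lib.MP_0da313_nt.MT.Mertens

set_option autoImplicit false

/-!
Project NC, section E, piece sgq: the mean square for a single modulus.
-/

namespace Pool.Agent.NC.E

open Finset Filter Polynomial
open Pool.Agent.MP89da58 (kapD tri)
open Pool.Agent.CH (thP)
open Pool.Agent.CM (wd)
open Pool.Agent.SP80 (ex)
open Pool.Agent.TC (Lw wN)
open Pool.Agent.GC (tz Pm)
open Pool.Agent.NC (Fam Hn Bn Cq Er ErS)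
open Pool.Agent.NC.G (EL Rn)

private lemma ne_sgq_count (a b K r : ℕ) (hK : 1 ≤ K) (hab : a ≤ b) :
    (((Ioc a b).filter (fun n => n ≡ r [MOD K])).card : ℝ) ≤ ((b : ℝ) - a) / K + 1 := by
  have hK0 : (0 : ℝ) < K := by exact_mod_cast hK
  have h1 := Nat.Ioc_filter_modEq_card a b (r := K) hK r
  set x : ℤ := ⌊((b : ℚ) - r) / (K : ℚ)⌋ with hx
  set y : ℤ := ⌊((a : ℚ) - r) / (K : ℚ)⌋ with hy
  have hxy : y ≤ x := by
    rw [hx, hy]
    apply Int.floor_le_floor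
    have : (0 : ℚ) ≤ K := by positivity
    apply div_le_div_of_nonneg_right _ this
    have : (a : ℚ) ≤ b := by exact_mod_cast hab
    linarith
  rw [max_eq_left (by omega)] at h1
  have h2 : (((Ioc a b).filter (fun n => n ≡ r [MOD K])).card : ℝ) = (x : ℝ) - y := by
    have : ((((Ioc a b).filter (fun n => n ≡ r [MOD K])).card : ℤ) : ℝ) = ((x - y : ℤ) : ℝ) := by
      rw [h1]
    push_cast at this
    exact this
  have hx1 : (x : ℚ) ≤ ((b : ℚ) - r) / (K : ℚ) := Int.floor_le _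
  have hy2 : ((a : ℚ) - r) / (K : ℚ) < y + 1 := Int.lt_floor_add_one _
  have hx1' : (x : ℝ) ≤ ((b : ℝ) - r) / (K : ℝ) := by exact_mod_cast hx1
  have hy2' : ((a : ℝ) - r) / (K : ℝ) < y + 1 := by exact_mod_cast hy2
  have h3 : ((b : ℝ) - a) / K = ((b : ℝ) - r) / (K : ℝ) - ((a : ℝ) - r) / (K : ℝ) := by ring
  rw [h2, h3]
  linarith

private lemma ne_sgq_tz (y : ℝ) : 0 ≤ tz y ∧ tz y ≤ 1 := by
  unfold GC.tz
  exact ⟨le_min zero_le_one (le_max_left _ _), min_le_left _ _⟩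

private lemma ne_sgq_tz1 (y : ℝ) (h : |y - 1| ≤ 1 / 100) : tz y = 1 := by
  unfold GC.tz
  apply min_eq_left
  apply le_max_of_le_right
  linarith

private lemma ne_sgq_thP (m : ℕ) : 0 ≤ thP m ∧ (1 ≤ m → thP m ≤ Real.log m) := by
  unfold CH.thP
  constructor
  · split
    · rename_i h
      exact Real.log_nonneg (by exact_mod_cast h.one_lt.le)
    · exact le_rfl
  · intro h
    split
    · exact le_rfl
    · exact Real.log_nonneg (by exact_mod_cast h)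

private lemma ne_sgq_Lw (w m : ℕ) : 0 ≤ Lw w m ∧ Lw w m ≤ (kapD w)⁻¹ := by
  have h := (inv_pos.2 (MT.kapD_pos w)).le
  unfold TC.Lw
  split
  · exact ⟨h, le_rfl⟩
  · exact ⟨le_rfl, h⟩

variable {ι : Type} [Fintype ι] [DecidableEq ι] {D d E : ℕ}

private lemma ne_sgq_cc (F : Fam ι D d E) (l : ι) : 1 ≤ cc F l := by
  unfold cc
  have h0 : (F.g l).coeff d ≠ 0 := by
    have h1 := F.hg l
    have h2 := F.hd
    intro h
    have h3 : (F.g l).leadingCoeff = 0 := by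
      unfold Polynomial.leadingCoeff
      rw [h1, h]
    rw [Polynomial.leadingCoeff_eq_zero] at h3
    rw [h3, Polynomial.natDegree_zero] at h1
    omega
  exact Nat.mul_pos (Nat.factorial_pos _) (Int.natAbs_pos.2 h0)

private lemma ne_sgq_tpos (F : Fam ι D d E) (l : ι) : 0 < F.t l := by
  have h1 := F.ht l
  have h2 : 0 < |(F.a l : ℝ)| := abs_pos.2 (by exact_mod_cast F.ha l)
  have h3 := abs_nonneg ((F.g l).coeff d : ℝ)
  have h4 : (0 : ℝ) < E := by exact_mod_cast F.hE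
  unfold Fam.t
  by_contra h
  push Not at h
  have h5 := mul_nonpos_of_nonneg_of_nonpos h4.le h
  linarith

private lemma ne_sgq_mod (F : Fam ι D d E) (l : ι) (n ν x c q : ℕ) (hn : n ≡ ν [MOD q])
    (hx : x ≡ c [MOD q]) : (q : ℤ) ∣ F.L n l x - F.L ν l c := by
  have h1 : (q : ℤ) ∣ (n : ℤ) - ν := by
    have := (Nat.modEq_iff_dvd).1 hn
    rw [← dvd_neg]
    simpa using this
  have h2 : (q : ℤ) ∣ (x : ℤ) - c := by
    have := (Nat.modEq_iff_dvd).1 hx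
    rw [← dvd_neg]
    simpa using this
  have h3 : (q : ℤ) ∣ (F.g l).eval (x : ℤ) - (F.g l).eval (c : ℤ) :=
    h2.trans (Polynomial.sub_dvd_eval_sub _ _ _)
  have h4 : F.L n l x - F.L ν l c =
      F.a l * ((n : ℤ) - ν) + ((F.g l).eval (x : ℤ) - (F.g l).eval (c : ℤ)) := by
    unfold Fam.L
    ring
  rw [h4]
  exact dvd_add (Dvd.dvd.mul_left h1 _) h3

private lemma ne_sgq_Rn (F : Fam ι D d E) (l : ι) (N w n q ν c r : ℕ) (X : ℝ) (hX : 0 < X)
    (hn : n ≡ ν [MOD q]) (hr : (q : ℤ) ∣ F.L ν l c - r)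
    (hloc : ∀ x : ℕ, 0 < x → F.wh N x ≠ 0 →
      0 < F.L n l x ∧ |(F.L n l x : ℝ) / X - 1| ≤ 1 / 100) :
    Er F N w n l q c = Rn (F.a l) (fun x => (F.g l).eval (x : ℤ))
      ((Icc 1 ⌊2 * X⌋₊).filter (fun k => k ≡ r [MOD q]))
      ((Icc 1 (Hn d N)).filter (fun x => x ≡ c [MOD q]))
      (fun k => (thP k - Lw w k) * tz (k / X)) (fun x => F.wh N x) n := by
  unfold NC.Er G.Rn
  refine Finset.sum_congr rfl fun x hx => ?_
  obtain ⟨hx1, hx2⟩ := mem_filter.1 hx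
  obtain ⟨hx3, hx4⟩ := mem_Icc.1 hx1
  by_cases h0 : F.wh N x = 0
  · rw [h0, zero_mul]
    symm
    apply Finset.sum_eq_zero
    intro k _
    simp only [h0, mul_zero, ite_self]
  · obtain ⟨h1, h2⟩ := hloc x (by omega) h0
    set k0 := (F.L n l x).toNat with hk0
    have hk1 : (k0 : ℤ) = F.L n l x := Int.toNat_of_nonneg h1.le
    have hk2 : (k0 : ℝ) = (F.L n l x : ℝ) := by
      have : ((k0 : ℤ) : ℝ) = (F.L n l x : ℝ) := by rw [hk1]
      simpa using this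
    have hk3 : 1 ≤ k0 := by omega
    rw [← hk2] at h2
    have hk4 : (k0 : ℝ) ≤ 2 * X := by
      have h3 := (abs_le.1 h2).2
      have h4 : (k0 : ℝ) / X ≤ 2 := by linarith
      rwa [div_le_iff₀ hX] at h4
    have hk5 : k0 ≡ r [MOD q] := by
      rw [Nat.modEq_iff_dvd]
      have h3 := ne_sgq_mod F l n ν x c q hn hx2
      have h4 : (r : ℤ) - k0 = -((F.L n l x - F.L ν l c) + (F.L ν l c - r)) := by
        rw [hk1]
        ring
      rw [h4]
      exact (dvd_add h3 hr).neg_right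
    rw [Finset.sum_eq_single k0]
    · have h3 : (k0 : ℤ) = F.a l * (n : ℤ) + (F.g l).eval (x : ℤ) := hk1
      simp only
      rw [if_pos h3, ne_sgq_tz1 _ h2]
      ring
    · intro k _ hk
      rw [if_neg]
      intro h3
      apply hk
      have h4 : (k : ℤ) = k0 := by
        rw [hk1, h3]
        rfl
      exact_mod_cast h4
    · intro h
      exfalso
      apply h
      rw [mem_filter, mem_Icc]
      exact ⟨⟨hk3, Nat.le_floor hk4⟩, hk5⟩

private lemma ne_sgq_logX (t : ℝ) (ht : 0 < t) : ∀ᶠ N : ℕ in atTop,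
    1 / 2 * Real.log N ≤ Real.log (t * N) ∧ Real.log (t * N) ≤ 2 * Real.log N ∧
    t * N ≤ (N : ℝ) ^ 2 ∧ 1 ≤ t * N := by
  have hcast : Tendsto (fun n : ℕ => (n : ℝ)) atTop atTop := tendsto_natCast_atTop_atTop
  filter_upwards [hcast.eventually (eventually_ge_atTop t),
    hcast.eventually (eventually_ge_atTop (1 / t ^ 2)),
    hcast.eventually (eventually_ge_atTop (1 / t)), eventually_ge_atTop 1] with N h1 h2 h2' h3
  have hN : (1 : ℝ) ≤ N := by exact_mod_cast h3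
  have hN0 : (0 : ℝ) < N := by linarith
  have h4 : t * N ≤ (N : ℝ) ^ 2 := by nlinarith
  have h6 : 1 ≤ t ^ 2 * N := by
    rw [div_le_iff₀ (by positivity)] at h2
    linarith
  have h5 : (N : ℝ) ≤ (t * N) ^ 2 := by nlinarith
  have h7 : 1 ≤ t * N := by
    rw [div_le_iff₀ ht] at h2'
    linarith
  refine ⟨?_, ?_, h4, h7⟩
  · have h8 := Real.log_le_log hN0 h5
    rw [Real.log_pow] at h8
    push_cast at h8
    linarith
  · have h8 := Real.log_le_log (by positivity) h4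
    rw [Real.log_pow] at h8
    push_cast at h8
    linarith

private lemma ne_sgq_sq (X L : ℝ) (w k q r : ℕ) (hq : 1 ≤ q) (hqX : (q : ℝ) ≤ X)
    (hL : 1 ≤ L) (h2X : Real.log (2 * X) ≤ 20 * L) (hlX : Real.log X ≤ 2 * L)
    (hlX2 : 2 ≤ Real.log X) (hX : 1 ≤ X)
    (hP : Pm X (1 / 100) 1 w k) :
    ∑ j ∈ (Icc 1 ⌊2 * X⌋₊).filter (fun j => j ≡ r [MOD q]),
      ((thP j - Lw w j) * tz (j / X)) ^ 2 ≤ 1200 * (X / q) * L ^ 2 := by
  have hq0 : (0 : ℝ) < q := by exact_mod_cast hq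
  -- the density
  have hw : Real.log X ≤ w := by
    have := hP.w_ge
    rwa [pow_one] at this
  have hw2 : 2 ≤ w := by
    have : (2 : ℝ) ≤ w := hlX2.trans hw
    exact_mod_cast this
  have hw1 : (1 : ℝ) ≤ w := by exact_mod_cast (by omega : 1 ≤ w)
  have hwX : Real.log w ≤ 1 / 100 * Real.log X := by
    have h1 : (w : ℝ) ≤ X ^ (1 / 100 : ℝ) := by
      refine le_trans ?_ hP.wk
      calc (w : ℝ) = (w : ℝ) ^ 1 := (pow_one _).symm
        _ ≤ (w : ℝ) ^ (k + 1) := pow_le_pow_right₀ hw1 (by omega)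
    have h2 := Real.log_le_log (by linarith) h1
    rwa [Real.log_rpow (by linarith)] at h2
  have hκ : (kapD w)⁻¹ ≤ 20 * L := by
    have h1 := MT.mertens w hw2
    have h2 := MT.kapD_pos w
    rw [inv_le_iff_one_le_mul₀ h2]
    have h3 : 1000 * kapD w * Real.log w ≤ 1000 * kapD w * (1 / 100 * Real.log X) :=
      mul_le_mul_of_nonneg_left hwX (by positivity)
    have h4 : 1000 * kapD w * (1 / 100 * Real.log X) ≤ 1000 * kapD w * (1 / 100 * (2 * L)) :=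
      mul_le_mul_of_nonneg_left (by linarith) (by positivity)
    linarith
  have hpt : ∀ j ∈ (Icc 1 ⌊2 * X⌋₊).filter (fun j => j ≡ r [MOD q]),
      ((thP j - Lw w j) * tz (j / X)) ^ 2 ≤ (20 * L) ^ 2 := by
    intro j hj
    obtain ⟨hj1, hj2⟩ := mem_Icc.1 (mem_filter.1 hj).1
    have hj3 : (j : ℝ) ≤ 2 * X :=
      (by exact_mod_cast hj2 : (j : ℝ) ≤ (⌊2 * X⌋₊ : ℝ)).trans (Nat.floor_le (by linarith))
    have h1 := (ne_sgq_thP j).1
    have h2 : thP j ≤ 20 * L := by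
      refine ((ne_sgq_thP j).2 hj1).trans (le_trans ?_ h2X)
      exact Real.log_le_log (by exact_mod_cast hj1) hj3
    obtain ⟨h3, h4⟩ := ne_sgq_Lw w j
    obtain ⟨h5, h6⟩ := ne_sgq_tz ((j : ℝ) / X)
    rw [sq_le_sq, abs_mul, abs_of_nonneg h5, abs_of_nonneg (by linarith : 0 ≤ 20 * L)]
    have h7 : |thP j - Lw w j| ≤ 20 * L := by
      rw [abs_le]
      constructor <;> linarith
    calc |thP j - Lw w j| * tz (j / X) ≤ |thP j - Lw w j| * 1 :=
          mul_le_mul_of_nonneg_left h6 (abs_nonneg _)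
      _ ≤ 20 * L := by rw [mul_one]; exact h7
  have hcard : ((((Icc 1 ⌊2 * X⌋₊).filter (fun j => j ≡ r [MOD q])).card : ℕ) : ℝ) ≤
      3 * (X / q) := by
    have h1 := ne_sgq_count 0 ⌊2 * X⌋₊ q r hq (Nat.zero_le _)
    have h2 : Icc 1 ⌊2 * X⌋₊ = Ioc 0 ⌊2 * X⌋₊ := rfl
    rw [h2]
    refine h1.trans ?_
    have h3 : ((⌊2 * X⌋₊ : ℕ) : ℝ) ≤ 2 * X := Nat.floor_le (by linarith)
    have h4 : (((⌊2 * X⌋₊ : ℕ) : ℝ) - ((0 : ℕ) : ℝ)) / q ≤ 2 * (X / q) := by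
      rw [← mul_div_assoc]
      apply div_le_div_of_nonneg_right _ hq0.le
      push_cast
      linarith
    have h5 : 1 ≤ X / q := by
      rw [le_div_iff₀ hq0]
      linarith
    linarith
  refine (Finset.sum_le_card_nsmul _ _ _ hpt).trans ?_
  rw [nsmul_eq_mul]
  calc _ ≤ 3 * (X / q) * (20 * L) ^ 2 := mul_le_mul_of_nonneg_right hcard (by positivity)
    _ = _ := by ring

theorem p_sgq : S_sgq := by
  intro hloc hgmi hspl ι _ _ D d E F l A
  obtain ⟨B, hB⟩ := hgmi ι D d E F l A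
  have ht := ne_sgq_tpos F l
  have hcc := ne_sgq_cc F l
  have hd := F.hd
  set t : ℝ := F.t l with htdef
  set c0 : ℝ := (cc F l : ℝ) with hc0
  have hc01 : 1 ≤ c0 := by rw [hc0]; exact_mod_cast hcc
  refine ⟨B, 2400 * t + 24 * c0 ^ 2 + 1, by positivity, ?_⟩
  have hcast : Tendsto (fun n : ℕ => (n : ℝ)) atTop atTop := tendsto_natCast_atTop_atTop
  have hlogt : Tendsto (fun N : ℕ => Real.log N) atTop atTop := Real.tendsto_log_atTop.comp hcast
  filter_upwards [hB, hloc ι D d E F, ne_sgq_logX t ht, ne_sgq_logX (2 * t) (by positivity),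
    hlogt.eventually (eventually_ge_atTop 4),
    hcast.eventually (eventually_ge_atTop (1 / t ^ 2)), eventually_ge_atTop 1]
    with N h1 h2 h3 h4 h5 h6 h7 w k q ν c M hPm hqs hqN hcop hM hMb
  obtain ⟨hX1, hX2, hX3, hX4⟩ := h3
  obtain ⟨_, hloc2⟩ := h2
  set X : ℝ := t * N with hX
  set L : ℝ := Real.log N with hL
  set Y : ℝ := (N : ℝ) ^ (1 / (d : ℝ)) with hY
  have hL4 : 4 ≤ L := h5
  have hN1 : (1 : ℝ) ≤ N := by exact_mod_cast h7
  have hN0 : (0 : ℝ) < N := by linarith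
  have hY0 : 0 < Y := Real.rpow_pos_of_pos hN0 _
  have hq1 : 1 ≤ q := Nat.one_le_iff_ne_zero.2 hqs.ne_zero
  have hq1' : (1 : ℝ) ≤ q := by exact_mod_cast hq1
  have hq0 : (0 : ℝ) < q := by linarith
  have hd2 : (2 : ℝ) ≤ d := by exact_mod_cast hd
  -- `q ≤ N ^ (1 / 2)`
  have hqN2 : (q : ℝ) ≤ (N : ℝ) ^ (1 / 2 : ℝ) := by
    refine hqN.trans (Real.rpow_le_rpow_of_exponent_le hN1 ?_)
    apply one_div_le_one_div_of_le (by norm_num)
    linarith
  have hsq : (N : ℝ) ^ (1 / 2 : ℝ) * (N : ℝ) ^ (1 / 2 : ℝ) = N := by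
    rw [← Real.rpow_add hN0]
    norm_num
  have hq2N : (q : ℝ) * q ≤ N := by
    calc (q : ℝ) * q ≤ (N : ℝ) ^ (1 / 2 : ℝ) * (N : ℝ) ^ (1 / 2 : ℝ) :=
          mul_le_mul hqN2 hqN2 hq0.le (by positivity)
      _ = N := hsq
  have hqN3 : (q : ℝ) ≤ N := by nlinarith
  have hqX : (q : ℝ) ≤ X := by
    have h8 : 1 ≤ t ^ 2 * N := by
      rw [div_le_iff₀ (by positivity)] at h6
      linarith
    have h9 : (q : ℝ) ^ 2 ≤ X ^ 2 := by
      calc (q : ℝ) ^ 2 ≤ N := by rw [sq]; exact hq2N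
        _ ≤ (t ^ 2 * N) * N := by nlinarith
        _ = X ^ 2 := by rw [hX]; ring
    exact (pow_le_pow_iff_left₀ hq0.le (by linarith) two_ne_zero).1 h9
  -- the residue
  set r : ℕ := (F.L ν l c % (q : ℤ)).toNat with hr
  have hr0 : (r : ℤ) = F.L ν l c % (q : ℤ) :=
    Int.toNat_of_nonneg (Int.emod_nonneg _ (by exact_mod_cast hqs.ne_zero))
  have hr1 : (q : ℤ) ∣ F.L ν l c - r := by
    rw [hr0]
    exact Int.dvd_self_sub_emod
  have hrq : r.Coprime q := by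
    have h8 : IsCoprime (q : ℤ) (r : ℤ) := by
      obtain ⟨z, hz⟩ := hr1
      have h9 : (r : ℤ) = F.L ν l c + (q : ℤ) * (-z) := by linarith
      rw [h9]
      exact (IsCoprime.add_mul_left_right_iff).2 hcop
    exact (Nat.isCoprime_iff_coprime.1 h8).symm
  set g : ℕ → ℤ := fun x => (F.g l).eval (x : ℤ) with hg
  set Sk := (Icc 1 ⌊2 * X⌋₊).filter (fun k => k ≡ r [MOD q]) with hSk
  set Sx := (Icc 1 (Hn d N)).filter (fun x => x ≡ c [MOD q]) with hSx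
  set Sn := (Ioc N (Bn E N)).filter (fun n => n ≡ ν [MOD q]) with hSn
  set Fk : ℕ → ℝ := fun k => (thP k - Lw w k) * tz (k / X) with hFk
  set h : ℕ → ℝ := fun x => F.wh N x with hh
  set T := ⌊L ^ B⌋₊ with hTdef
  have hLB : 0 < L ^ B := by positivity
  have hT : (T : ℝ) ≤ L ^ B := Nat.floor_le hLB.le
  have e1 : ∀ m ∈ Icc 1 T, 1 ≤ (fun m => cc F l * m * q ^ d) m ∧
      q ∣ (fun m => cc F l * m * q ^ d) m := by
    intro m hm
    have hm1 := (mem_Icc.1 hm).1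
    constructor
    · exact Nat.mul_pos (Nat.mul_pos hcc hm1) (pow_pos hq1 d)
    · exact Dvd.dvd.mul_left (dvd_pow_self q (by omega)) _
  have e2 : ∀ k ∈ Sk, k ≡ r [MOD q] := fun k hk => (mem_filter.1 hk).2
  have e3 : ∀ α : ℝ, ‖∑ x ∈ Sx, (h x : ℂ) * ex (-α * (g x : ℝ))‖ ≤ 2 * Y / q :=
    fun α => (h1 q c α hq1 hqN).1
  have e4 : ∀ α : ℝ, ‖∑ x ∈ Sx, (h x : ℂ) * ex (-α * (g x : ℝ))‖ ≤ Y / q / L ^ A ∨
      ∃ m ∈ Icc 1 T, ∃ b : ℤ,
        |α - b / (((fun m => cc F l * m * q ^ d) m : ℕ) : ℝ)| ≤ L ^ B / N :=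
    fun α => (h1 q c α hq1 hqN).2
  have e5 : ∀ m ∈ Icc 1 T, ∀ (s : ℕ) (β : ℝ), |β| ≤ L ^ B / N →
      ‖∑ k ∈ Sk.filter (fun k => k ≡ s [MOD (fun m => cc F l * m * q ^ d) m]),
        (Fk k : ℂ) * ex (β * k)‖ ≤ M := by
    intro m hm s β hβ
    have hm1 := (mem_Icc.1 hm).1
    have hm2 : (m : ℝ) ≤ L ^ B := (by exact_mod_cast (mem_Icc.1 hm).2 : (m : ℝ) ≤ T).trans hT
    have hdvd := (e1 m hm).2
    by_cases hs : s ≡ r [MOD q]
    · have h8 : Sk.filter (fun k => k ≡ s [MOD (fun m => cc F l * m * q ^ d) m]) =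
          (Icc 1 ⌊2 * X⌋₊).filter (fun k => k ≡ s [MOD cc F l * m * q ^ d]) := by
        ext k
        rw [hSk, mem_filter, mem_filter, mem_filter]
        constructor
        · rintro ⟨⟨h9, _⟩, h10⟩
          exact ⟨h9, h10⟩
        · rintro ⟨h9, h10⟩
          exact ⟨⟨h9, (h10.of_dvd hdvd).trans hs⟩, h10⟩
      rw [h8]
      have hsq' : s.Coprime q := by
        have := hs.gcd_eq
        unfold Nat.Coprime at hrq ⊢
        rw [this, hrq]
      exact hMb m s β hm1 hm2 hsq' hβ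
    · have h8 : Sk.filter (fun k => k ≡ s [MOD (fun m => cc F l * m * q ^ d) m]) = ∅ := by
        apply Finset.filter_eq_empty_iff.2
        intro k hk h9
        exact hs ((h9.of_dvd hdvd).symm.trans (e2 k hk))
      rw [h8, Finset.sum_empty, norm_zero]
      exact hM
  have hmain := hspl (F.a l) g Sk Sx Sn Fk h q r T (fun m => cc F l * m * q ^ d) (L ^ B / N)
    (Y / q / L ^ A) (2 * Y / q) M (F.ha l) hq1 (by positivity) (by positivity) (by positivity) hM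
    e1 e2 e3 e4 e5
  have hEr : ∑ n ∈ Sn, Rn (F.a l) g Sk Sx Fk h n ^ 2 = ∑ n ∈ Sn, |Er F N w n l q c| ^ 2 := by
    refine Finset.sum_congr rfl fun n hn => ?_
    obtain ⟨hn1, hn2⟩ := mem_filter.1 hn
    rw [ne_sgq_Rn F l N w n q ν c r X (by linarith) hn2 hr1 (fun x hx hx0 => hloc2 n hn1 l x hx hx0),
      sq_abs]
  rw [hEr] at hmain
  -- the sums
  have hS : ∑ k ∈ Sk, Fk k ^ 2 ≤ 1200 * (X / q) * L ^ 2 := by
    apply ne_sgq_sq X L w k q r hq1 hqX (by linarith) ?_ hX2 (by linarith) hX4 hPm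
    have : 2 * X = 2 * t * N := by rw [hX]; ring
    rw [this]
    linarith [h4.2.1]
  have hqd : (q : ℝ) ^ d = (q : ℝ) ^ (d - 2) * q ^ 2 := by
    rw [← pow_add]
    congr 1
    omega
  set V : ℝ := (q : ℝ) ^ (d - 2) with hV
  have hV0 : 0 < V := by positivity
  have hR : ∑ m ∈ Icc 1 T, (((fun m => cc F l * m * q ^ d) m : ℕ) : ℝ) *
      ((((fun m => cc F l * m * q ^ d) m : ℕ) : ℝ) / q) * M ^ 2 ≤
      c0 ^ 2 * (L ^ B) ^ 3 * (V ^ 2 * q ^ 3) * M ^ 2 := by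
    have h8 : ∀ m ∈ Icc 1 T, (((fun m => cc F l * m * q ^ d) m : ℕ) : ℝ) *
      ((((fun m => cc F l * m * q ^ d) m : ℕ) : ℝ) / q) * M ^ 2 ≤
      c0 ^ 2 * (L ^ B) ^ 2 * (V ^ 2 * q ^ 3) * M ^ 2 := by
      intro m hm
      have hm2 : (m : ℝ) ≤ L ^ B := (by exact_mod_cast (mem_Icc.1 hm).2 : (m : ℝ) ≤ T).trans hT
      have h9 : (((fun m => cc F l * m * q ^ d) m : ℕ) : ℝ) = c0 * m * (V * q ^ 2) := by
        push_cast
        rw [hqd]
      rw [h9]
      have h10 : c0 * m * (V * q ^ 2) * (c0 * m * (V * q ^ 2) / q) * M ^ 2 =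
          c0 ^ 2 * (m : ℝ) ^ 2 * (V ^ 2 * q ^ 3) * M ^ 2 := by
        field_simp
      rw [h10]
      have h11 : (m : ℝ) ^ 2 ≤ (L ^ B) ^ 2 := pow_le_pow_left₀ (Nat.cast_nonneg m) hm2 2
      gcongr
    refine (Finset.sum_le_card_nsmul _ _ _ h8).trans ?_
    rw [nsmul_eq_mul, Nat.card_Icc, Nat.add_sub_cancel]
    calc (T : ℝ) * (c0 ^ 2 * (L ^ B) ^ 2 * (V ^ 2 * q ^ 3) * M ^ 2)
        ≤ L ^ B * (c0 ^ 2 * (L ^ B) ^ 2 * (V ^ 2 * q ^ 3) * M ^ 2) :=
          mul_le_mul_of_nonneg_right hT (by positivity)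
      _ = _ := by ring
  -- the number of the `n`
  have hcard : ((Sn.card : ℕ) : ℝ) ≤ 2 * (N / q) := by
    have hB1 : N ≤ Bn E N := by
      unfold NC.Bn
      exact Nat.le_add_right _ _
    have h8 := ne_sgq_count N (Bn E N) q ν hq1 hB1
    refine h8.trans ?_
    have h9 : (Bn E N : ℝ) - N ≤ N := by
      unfold NC.Bn
      push_cast
      have h10 : ((N / (1000 * E) : ℕ) : ℝ) ≤ N := by exact_mod_cast Nat.div_le_self _ _
      linarith
    have h10 : ((Bn E N : ℝ) - N) / q ≤ N / q := div_le_div_of_nonneg_right h9 hq0.le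
    have h11 : 1 ≤ (N : ℝ) / q := by
      rw [le_div_iff₀ hq0]
      linarith
    linarith
  set Z : ℝ := ∑ n ∈ Sn, |Er F N w n l q c| with hZ
  have hZ0 : 0 ≤ Z := Finset.sum_nonneg fun n _ => abs_nonneg _
  have hC := sq_sum_le_card_mul_sum_sq (s := Sn) (f := fun n => |Er F N w n l q c|)
  set V2 : ℝ := ∑ n ∈ Sn, |Er F N w n l q c| ^ 2 with hV2
  have hV20 : 0 ≤ V2 := Finset.sum_nonneg fun n _ => by positivity
  set P1 : ℝ := Y * (N * L / (q ^ 2 * L ^ A)) with hP1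
  set P2 : ℝ := Y * (L ^ (2 * B) * (V * M)) with hP2
  have hP10 : 0 ≤ P1 := by positivity
  have hP20 : 0 ≤ P2 := by positivity
  have hZ2 : Z ^ 2 ≤ 2400 * t * P1 ^ 2 + 24 * c0 ^ 2 * P2 ^ 2 := by
    calc Z ^ 2 ≤ (Sn.card : ℝ) * V2 := hC
      _ ≤ 2 * (N / q) * ((Y / q / L ^ A) ^ 2 * (1200 * (X / q) * L ^ 2) +
          (2 * Y / q) ^ 2 * (3 * (L ^ B / N)) * (c0 ^ 2 * (L ^ B) ^ 3 * (V ^ 2 * q ^ 3) * M ^ 2)) := by
          apply mul_le_mul hcard _ hV20 (by positivity)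
          refine hmain.trans (add_le_add ?_ ?_)
          · exact mul_le_mul_of_nonneg_left hS (by positivity)
          · exact mul_le_mul_of_nonneg_left hR (by positivity)
      _ = 2400 * t * P1 ^ 2 + 24 * c0 ^ 2 * P2 ^ 2 := by
          have hL2B : L ^ (2 * B) = (L ^ B) ^ 2 := by rw [mul_comm, pow_mul]
          rw [hP1, hP2, hX, hL2B]
          field_simp
          ring
  have hCC : (2400 * t + 24 * c0 ^ 2 + 1) ≤ (2400 * t + 24 * c0 ^ 2 + 1) ^ 2 := by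
    have h8 : 1 ≤ 2400 * t + 24 * c0 ^ 2 + 1 := by
      have : 0 ≤ 2400 * t + 24 * c0 ^ 2 := by positivity
      linarith
    exact le_self_pow₀ h8 two_ne_zero
  have hfin : Z ^ 2 ≤ ((2400 * t + 24 * c0 ^ 2 + 1) * (P1 + P2)) ^ 2 := by
    rw [mul_pow]
    have h8 : P1 ^ 2 + P2 ^ 2 ≤ (P1 + P2) ^ 2 := by
      have h12 := mul_nonneg hP10 hP20
      have h13 : (P1 + P2) ^ 2 = P1 ^ 2 + P2 ^ 2 + 2 * (P1 * P2) := by ring
      rw [h13]
      linarith
    have h9 : 2400 * t * P1 ^ 2 + 24 * c0 ^ 2 * P2 ^ 2 ≤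
        (2400 * t + 24 * c0 ^ 2 + 1) * (P1 ^ 2 + P2 ^ 2) := by
      have h10 : 0 ≤ 2400 * t * P2 ^ 2 := by positivity
      have h11 : 0 ≤ 24 * c0 ^ 2 * P1 ^ 2 := by positivity
      have h12 := sq_nonneg P1
      have h13 := sq_nonneg P2
      have h14 : (2400 * t + 24 * c0 ^ 2 + 1) * (P1 ^ 2 + P2 ^ 2) =
          2400 * t * P1 ^ 2 + 24 * c0 ^ 2 * P2 ^ 2 + (2400 * t * P2 ^ 2 + 24 * c0 ^ 2 * P1 ^ 2 +
            P1 ^ 2 + P2 ^ 2) := by ring
      rw [h14]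
      linarith
    calc Z ^ 2 ≤ (2400 * t + 24 * c0 ^ 2 + 1) * (P1 ^ 2 + P2 ^ 2) := hZ2.trans h9
      _ ≤ (2400 * t + 24 * c0 ^ 2 + 1) ^ 2 * (P1 + P2) ^ 2 :=
        mul_le_mul hCC h8 (by positivity) (by positivity)
  have hfin2 := (pow_le_pow_iff_left₀ hZ0 (by positivity) two_ne_zero).1 hfin
  refine hfin2.trans (le_of_eq ?_)
  rw [hP1, hP2]
  ring

end Pool.Agent.NC.E
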