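import Pool.Agent.Lib.MP_0da313_nt.NC.G
import Pool.Agent.Lib.MP_8a4e59_co.B.Ppar

set_option autoImplicit false

/-! Piece arc of the project NC, section G. -/

namespace Pool.Agent.NC.G

open Finset Filter
open Pool.Agent.SP80 (ex)
open Pool.Agent.APP (ee ee_add ee_int norm_ee)

lemma ng_arc_ex (x : ℝ) : ex x = ee x := rfl

/-- the exponential sum -/
noncomputable def ng_arc_S (Sk : Finset ℕ) (F : ℕ → ℝ) (α : ℝ) : ℂ :=
  ∑ k ∈ Sk, (F k : ℂ) * ex (α * k)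

lemma ng_arc_per (Sk : Finset ℕ) (F : ℕ → ℝ) (α : ℝ) (m : ℤ) :
    ng_arc_S Sk F (α + m) = ng_arc_S Sk F α := by
  unfold ng_arc_S
  refine sum_congr rfl fun k _ => ?_
  have e : (α + m) * (k : ℝ) = α * k + ((m * k : ℤ) : ℝ) := by push_cast; ring
  rw [e, ng_arc_ex, ng_arc_ex, ee_add, ee_int, mul_one]

lemma ng_arc_card {q Q : ℕ} (hq : q ∣ Q) (hQ : 1 ≤ Q) (r : ℕ) :
    (((range Q).filter (fun s => s ≡ r [MOD q])).card : ℝ) ≤ Q / q := by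
  obtain ⟨m, rfl⟩ := hq
  have hq0 : 0 < q := by
    rcases Nat.eq_zero_or_pos q with h | h
    · rw [h, zero_mul] at hQ; omega
    · exact h
  have h1 : ((range (q * m)).filter (fun s => s ≡ r [MOD q])).card ≤ (range m).card := by
    apply card_le_card_of_injOn (fun s => s / q)
    · intro s hs
      rw [mem_coe, mem_filter, mem_range] at hs
      rw [mem_coe, mem_range]
      exact Nat.div_lt_of_lt_mul hs.1
    · intro s hs s' hs' h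
      rw [mem_coe, mem_filter] at hs hs'
      have h1 : s % q = s' % q := hs.2.trans hs'.2.symm
      simp only at h
      rw [← Nat.div_add_mod s q, ← Nat.div_add_mod s' q, h, h1]
  rw [card_range] at h1
  have h2 : ((q * m : ℕ) : ℝ) / q = m := by
    push_cast
    field_simp
  rw [h2]
  exact_mod_cast h1

/-- Parseval modulo `Q` -/
lemma ng_arc_par (Sk : Finset ℕ) (F : ℕ → ℝ) {Q q r : ℕ} (hQ : 1 ≤ Q) (hq : q ∣ Q)
    (hS : ∀ k ∈ Sk, k ≡ r [MOD q]) {M : ℝ} (β : ℝ)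
    (hM : ∀ s : ℕ, ‖∑ k ∈ Sk.filter (fun k => k ≡ s [MOD Q]), (F k : ℂ) * ex (β * k)‖ ≤ M) :
    ∑ b ∈ range Q, ‖ng_arc_S Sk F (β + (b : ℝ) / Q)‖ ^ 2 ≤ Q * (Q / q * M ^ 2) := by
  classical
  have hM0 : 0 ≤ M := (norm_nonneg _).trans (hM 0)
  have hQ0 : (Q : ℝ) ≠ 0 := by positivity
  set G : ℤ → ℂ := fun z => ∑ k ∈ Sk.filter (fun k => (k % Q : ℕ) = z.toNat), (F k : ℂ) * ex (β * k)
    with hG
  have hinj : Set.InjOn (fun s : ℕ => (s : ℤ)) (range Q : Set ℕ) := by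
    intro a _ b _ h
    exact Nat.cast_injective (R := ℤ) h
  have hp := APP.B.p_par Q ((range Q).image (fun s : ℕ => (s : ℤ))) G hQ (by
    intro x hx y hy hd
    rw [mem_image] at hx hy
    obtain ⟨s, hs, rfl⟩ := hx
    obtain ⟨s', hs', rfl⟩ := hy
    rw [mem_range] at hs hs'
    have : (s : ℤ) - s' = 0 := by
      apply Int.eq_zero_of_abs_lt_dvd hd
      rw [abs_lt]
      constructor <;> omega
    omega)
  have e1 : ∀ b : ℕ, ∑ x ∈ (range Q).image (fun s : ℕ => (s : ℤ)), G x * ee ((b : ℝ) * x / Q) =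
      ng_arc_S Sk F (β + (b : ℝ) / Q) := by
    intro b
    rw [sum_image (fun a ha c hc h => hinj ha hc h)]
    unfold ng_arc_S
    rw [← sum_fiberwise_of_maps_to (s := Sk) (t := range Q) (g := fun k => k % Q)
      (fun k _ => mem_range.2 (Nat.mod_lt _ hQ))]
    refine sum_congr rfl fun s hs => ?_
    rw [hG]
    simp only [Int.toNat_natCast]
    rw [sum_mul]
    refine sum_congr rfl fun k hk => ?_
    rw [mem_filter] at hk
    rw [mul_assoc]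
    congr 1
    obtain ⟨m, hm⟩ : ∃ m : ℕ, k = s + Q * m := ⟨k / Q, by rw [← hk.2]; exact (Nat.mod_add_div k Q).symm⟩
    have e : (β + (b : ℝ) / Q) * k = β * k + (b * (s : ℤ) / Q) + ((b * m : ℤ) : ℝ) := by
      rw [hm]
      push_cast
      field_simp
      ring
    rw [e, ng_arc_ex, ng_arc_ex, ee_add, ee_int, mul_one, ee_add]
  have e2 : ∑ b ∈ range Q, ‖ng_arc_S Sk F (β + (b : ℝ) / Q)‖ ^ 2 =
      Q * ∑ s ∈ range Q, ‖G (s : ℤ)‖ ^ 2 := by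
    rw [← sum_image (f := fun x : ℤ => ‖G x‖ ^ 2) (fun a ha c hc h => hinj ha hc h), ← hp]
    refine sum_congr rfl fun b _ => ?_
    rw [e1 b]
  rw [e2]
  refine mul_le_mul_of_nonneg_left ?_ (by positivity)
  have e3 : ∑ s ∈ range Q, ‖G (s : ℤ)‖ ^ 2 =
      ∑ s ∈ (range Q).filter (fun s => s ≡ r [MOD q]), ‖G (s : ℤ)‖ ^ 2 := by
    refine (sum_filter_of_ne fun s hs hne => ?_).symm
    by_contra hc
    apply hne
    have : Sk.filter (fun k => (k % Q : ℕ) = ((s : ℤ)).toNat) = ∅ := by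
      rw [filter_eq_empty_iff]
      intro k hk hks
      apply hc
      rw [Int.toNat_natCast] at hks
      have h1 : k ≡ s [MOD Q] := by
        unfold Nat.ModEq
        rw [← hks, Nat.mod_mod]
      exact (h1.symm.of_dvd hq).trans (hS k hk)
    rw [hG]
    simp only
    rw [this, sum_empty, norm_zero]
    norm_num
  rw [e3]
  have h4 : ∀ s ∈ (range Q).filter (fun s => s ≡ r [MOD q]), ‖G (s : ℤ)‖ ^ 2 ≤ M ^ 2 := by
    intro s hs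
    rw [mem_filter, mem_range] at hs
    refine pow_le_pow_left₀ (norm_nonneg _) ?_ 2
    have h5 := hM s
    have e4 : Sk.filter (fun k => k ≡ s [MOD Q]) =
        Sk.filter (fun k => (k % Q : ℕ) = ((s : ℤ)).toNat) := by
      refine filter_congr fun k _ => ?_
      rw [Int.toNat_natCast]
      unfold Nat.ModEq
      rw [Nat.mod_eq_of_lt hs.1]
    rw [e4] at h5
    exact h5
  refine (sum_le_card_nsmul _ _ _ h4).trans ?_
  rw [nsmul_eq_mul]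
  exact mul_le_mul_of_nonneg_right (ng_arc_card hq hQ r) (by positivity)

/-- the map from the points to the pairs -/
def ng_arc_phi (D Q : ℕ) (b : ℕ → ℤ) (t : ℕ) : ℤ × ℕ := ((t : ℤ) - b t * D, (b t % Q).toNat)

lemma ng_arc_map {D Q L : ℕ} {b : ℕ → ℤ} {ρ : ℝ} {t : ℕ} (hQ : 1 ≤ Q) (hD : 1 ≤ D) (hL : L = Q * D)
    (h : |(t : ℝ) / L - b t / Q| ≤ ρ) :
    ng_arc_phi D Q b t ∈ (Icc (-⌊ρ * (L : ℝ)⌋) ⌊ρ * (L : ℝ)⌋) ×ˢ (range Q) := by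
  have hQ0 : (0 : ℝ) < (Q : ℝ) := by exact_mod_cast hQ
  have hD0 : (0 : ℝ) < (D : ℝ) := by exact_mod_cast hD
  have hLe : (L : ℝ) = Q * D := by rw [hL]; push_cast; ring
  have hL0 : (0 : ℝ) < (L : ℝ) := by rw [hLe]; positivity
  have hQz : (Q : ℤ) ≠ 0 := by exact_mod_cast (by omega : Q ≠ 0)
  have hbz : (((b t % Q).toNat : ℕ) : ℤ) = b t % Q := Int.toNat_of_nonneg (Int.emod_nonneg _ hQz)
  have h2 : |((t : ℝ) - b t * D)| ≤ ρ * (L : ℝ) := by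
    have e : (t : ℝ) - b t * D = ((t : ℝ) / L - b t / Q) * L := by
      rw [hLe]
      field_simp
    rw [e, abs_mul, abs_of_pos hL0]
    exact mul_le_mul_of_nonneg_right h hL0.le
  rw [abs_le] at h2
  unfold ng_arc_phi
  rw [mem_product, mem_Icc, mem_range]
  refine ⟨⟨?_, ?_⟩, ?_⟩
  · have h3 : -((t : ℤ) - b t * D) ≤ ⌊ρ * (L : ℝ)⌋ := by
      rw [Int.le_floor]
      push_cast
      linarith [h2.1]
    linarith
  · have h3 : ((t : ℤ) - b t * D) ≤ ⌊ρ * (L : ℝ)⌋ := by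
      rw [Int.le_floor]
      push_cast
      linarith [h2.2]
    exact h3
  · have := Int.emod_lt_of_pos (b t) (by exact_mod_cast hQ : (0 : ℤ) < Q)
    simp only
    omega

lemma ng_arc_inj {D Q L : ℕ} {b : ℕ → ℤ} {T : Finset ℕ} (hQ : 1 ≤ Q) (hL : L = Q * D)
    (hT : ∀ t ∈ T, t < L) : Set.InjOn (ng_arc_phi D Q b) (T : Set ℕ) := by
  have hQz : (Q : ℤ) ≠ 0 := by exact_mod_cast (by omega : Q ≠ 0)
  have hbz : ∀ t, (((b t % Q).toNat : ℕ) : ℤ) = b t % Q := fun t =>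
    Int.toNat_of_nonneg (Int.emod_nonneg _ hQz)
  intro t ht t' ht' h
  unfold ng_arc_phi at h
  have h1 := (Prod.mk.inj h).1
  have h2 := (Prod.mk.inj h).2
  have h3 : b t % Q = b t' % Q := by rw [← hbz t, ← hbz t', h2]
  have h4 : (Q : ℤ) ∣ b t - b t' := (Int.emod_eq_emod_iff_emod_sub_eq_zero.1 h3) |>
    Int.dvd_of_emod_eq_zero
  obtain ⟨m, hm⟩ := h4
  have h5 : (t : ℤ) - t' = (L : ℤ) * m := by
    rw [hL]
    push_cast
    have : (t : ℤ) - t' = (b t - b t') * D := by linarith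
    rw [this, hm]
    ring
  have h6 : (t : ℤ) - t' = 0 := by
    apply Int.eq_zero_of_abs_lt_dvd (m := (L : ℤ)) ⟨m, h5⟩
    have h7 := hT t ht
    have h8 := hT t' ht'
    rw [abs_lt]
    constructor <;> omega
  omega

/-- the value at a pair -/
noncomputable def ng_arc_g (Sk : Finset ℕ) (F : ℕ → ℝ) (L Q : ℕ) (p : ℤ × ℕ) : ℝ :=
  ‖ng_arc_S Sk F ((p.1 : ℝ) / (L : ℝ) + (p.2 : ℝ) / Q)‖ ^ 2

lemma ng_arc_val {D Q L : ℕ} {b : ℕ → ℤ} (Sk : Finset ℕ) (F : ℕ → ℝ) (t : ℕ) (hQ : 1 ≤ Q)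
    (hD : 1 ≤ D) (hL : L = Q * D) :
    ‖∑ k ∈ Sk, (F k : ℂ) * ex ((t : ℝ) / (L : ℝ) * k)‖ ^ 2 =
      ng_arc_g Sk F L Q (ng_arc_phi D Q b t) := by
  have hQ0 : (0 : ℝ) < (Q : ℝ) := by exact_mod_cast hQ
  have hD0 : (0 : ℝ) < (D : ℝ) := by exact_mod_cast hD
  have hLe : (L : ℝ) = Q * D := by rw [hL]; push_cast; ring
  have hQz : (Q : ℤ) ≠ 0 := by exact_mod_cast (by omega : Q ≠ 0)
  have hbz : (((b t % Q).toNat : ℕ) : ℤ) = b t % Q := Int.toNat_of_nonneg (Int.emod_nonneg _ hQz)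
  have e1 : ∑ k ∈ Sk, (F k : ℂ) * ex ((t : ℝ) / (L : ℝ) * k) =
      ng_arc_S Sk F ((t : ℝ) / (L : ℝ)) := rfl
  have h1 : (((b t % Q).toNat : ℕ) : ℝ) = b t - Q * ((b t / Q : ℤ) : ℝ) := by
    have h2 : (((b t % Q).toNat : ℕ) : ℤ) = b t - Q * (b t / Q) := by
      rw [hbz]
      have := Int.mul_ediv_add_emod (b t) Q
      linarith
    exact_mod_cast h2
  have e2 : (t : ℝ) / (L : ℝ) = (((t : ℤ) - b t * D : ℤ) : ℝ) / (L : ℝ) +
      (((b t % Q).toNat : ℕ) : ℝ) / Q + ((b t / Q : ℤ) : ℝ) := by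
    rw [h1, hLe]
    push_cast
    field_simp
    ring
  rw [e1, e2, ng_arc_per]
  rfl

lemma ng_arc_sum {D Q L q r : ℕ} {b : ℕ → ℤ} {T : Finset ℕ} (Sk : Finset ℕ) (F : ℕ → ℝ) {ρ M : ℝ}
    (hQ : 1 ≤ Q) (hD : 1 ≤ D) (hL : L = Q * D) (hq : q ∣ Q) (hS : ∀ k ∈ Sk, k ≡ r [MOD q])
    (hM : ∀ (s : ℕ) (β : ℝ), |β| ≤ ρ →
      ‖∑ k ∈ Sk.filter (fun k => k ≡ s [MOD Q]), (F k : ℂ) * ex (β * k)‖ ≤ M)
    (hT : ∀ t ∈ T, t < L) (hb : ∀ t ∈ T, |(t : ℝ) / L - b t / Q| ≤ ρ) :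
    ∑ t ∈ T, ‖∑ k ∈ Sk, (F k : ℂ) * ex ((t : ℝ) / (L : ℝ) * k)‖ ^ 2 ≤
      ((Icc (-⌊ρ * (L : ℝ)⌋) ⌊ρ * (L : ℝ)⌋).card : ℝ) * ((Q : ℝ) * (Q / q * M ^ 2)) := by
  classical
  have hLe : (L : ℝ) = Q * D := by rw [hL]; push_cast; ring
  have hQ0 : (0 : ℝ) < (Q : ℝ) := by exact_mod_cast hQ
  have hD0 : (0 : ℝ) < (D : ℝ) := by exact_mod_cast hD
  have hL0 : (0 : ℝ) < (L : ℝ) := by rw [hLe]; positivity
  have e1 : ∑ t ∈ T, ‖∑ k ∈ Sk, (F k : ℂ) * ex ((t : ℝ) / (L : ℝ) * k)‖ ^ 2 =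
      ∑ p ∈ T.image (ng_arc_phi D Q b), ng_arc_g Sk F L Q p := by
    rw [sum_image (fun a ha c hc h => ng_arc_inj hQ hL hT ha hc h)]
    exact sum_congr rfl fun t ht => ng_arc_val Sk F t hQ hD hL
  have e2 : ∑ p ∈ T.image (ng_arc_phi D Q b), ng_arc_g Sk F L Q p ≤
      ∑ p ∈ (Icc (-⌊ρ * (L : ℝ)⌋) ⌊ρ * (L : ℝ)⌋) ×ˢ (range Q), ng_arc_g Sk F L Q p := by
    refine sum_le_sum_of_subset_of_nonneg ?_ (fun p _ _ => by unfold ng_arc_g; positivity)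
    intro p hp
    rw [mem_image] at hp
    obtain ⟨t, ht, rfl⟩ := hp
    exact ng_arc_map hQ hD hL (hb t ht)
  rw [e1]
  refine e2.trans ?_
  rw [sum_product]
  have e3 : ∀ u ∈ Icc (-⌊ρ * (L : ℝ)⌋) ⌊ρ * (L : ℝ)⌋,
      ∑ s ∈ range Q, ng_arc_g Sk F L Q (u, s) ≤ (Q : ℝ) * (Q / q * M ^ 2) := by
    intro u hu
    rw [mem_Icc] at hu
    have hu2 : |(u : ℝ) / (L : ℝ)| ≤ ρ := by
      rw [abs_div, abs_of_pos hL0, div_le_iff₀ hL0]
      have h1 : |(u : ℝ)| ≤ (⌊ρ * (L : ℝ)⌋ : ℝ) := by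
        rw [abs_le]
        constructor
        · exact_mod_cast hu.1
        · exact_mod_cast hu.2
      exact h1.trans (Int.floor_le _)
    exact ng_arc_par Sk F hQ hq hS ((u : ℝ) / (L : ℝ)) (fun s => hM s _ hu2)
  refine (sum_le_sum e3).trans ?_
  rw [sum_const, nsmul_eq_mul]

lemma ng_arc_cardI {x : ℝ} (hx : 0 ≤ x) : ((Icc (-⌊x⌋) ⌊x⌋).card : ℝ) ≤ 2 * x + 1 := by
  have h0 : 0 ≤ ⌊x⌋ := Int.floor_nonneg.2 hx
  have h1 : ((⌊x⌋ : ℤ) : ℝ) ≤ x := Int.floor_le _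
  rw [Int.card_Icc]
  have h2 : (((⌊x⌋ + 1 - -⌊x⌋).toNat : ℕ) : ℝ) = 2 * ((⌊x⌋ : ℤ) : ℝ) + 1 := by
    have h3 : (((⌊x⌋ + 1 - -⌊x⌋).toNat : ℕ) : ℤ) = 2 * ⌊x⌋ + 1 := by
      rw [Int.toNat_of_nonneg (by linarith)]
      ring
    exact_mod_cast h3
  rw [h2]
  linarith

theorem p_arc : S_arc := by
  intro Sk F L Q q r ρ M T hL hQ hQL hq hρ hM0 hS hM hT
  obtain ⟨D, hLD⟩ := hQL
  have hD : 1 ≤ D := by
    rcases Nat.eq_zero_or_pos D with h | h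
    · rw [hLD, h, mul_zero] at hL; omega
    · exact h
  have hL0 : (0 : ℝ) < (L : ℝ) := by exact_mod_cast hL
  choose! b hb using fun t (ht : t ∈ T) => (hT t ht).2
  have h1 := ng_arc_sum Sk F hQ hD hLD hq hS hM (fun t ht => (hT t ht).1) hb
  have h2 : ((Icc (-⌊ρ * (L : ℝ)⌋) ⌊ρ * (L : ℝ)⌋).card : ℝ) ≤ 2 * (ρ * (L : ℝ)) + 1 :=
    ng_arc_cardI (by positivity)
  have hX0 : 0 ≤ (Q : ℝ) * (Q / q * M ^ 2) := by positivity
  calc 1 / (L : ℝ) * ∑ t ∈ T, ‖∑ k ∈ Sk, (F k : ℂ) * ex ((t : ℝ) / (L : ℝ) * k)‖ ^ 2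
      ≤ 1 / (L : ℝ) * ((2 * (ρ * (L : ℝ)) + 1) * (Q * (Q / q * M ^ 2))) :=
        mul_le_mul_of_nonneg_left (h1.trans (mul_le_mul_of_nonneg_right h2 hX0)) (by positivity)
    _ = (2 * ρ + 1 / L) * (Q * (Q / q) * M ^ 2) := by
        field_simp

end Pool.Agent.NC.G
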