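import Pool.Agent.Lib.MP_0da313_nt.NC.G

set_option autoImplicit false

/-!
Project NC, section G, piece hc: the two models in a residue class.
-/

namespace Pool.Agent.NC.G

open Finset Filter
open Pool.Agent.MP89da58 (tri kapD)
open Pool.Agent.Lib.MP_0da313_nt (W U E W_le_U U_le_W_add_E)
open Pool.Agent.CH (thP)
open Pool.Agent.GC (HH tz ES Pm prs dv)
open Pool.Agent.TC (Lw)

private lemma ng_hc_mem_prs {w p : ℕ} : p ∈ prs w ↔ p.Prime ∧ p ≤ w := by
  unfold GC.prs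
  rw [mem_filter, mem_Icc]
  constructor
  · rintro ⟨⟨_, h⟩, hp⟩
    exact ⟨hp, h⟩
  · rintro ⟨hp, h⟩
    exact ⟨⟨hp.one_lt.le, h⟩, hp⟩

private lemma ng_hc_kap_pos (w : ℕ) : 0 < kapD w := by
  unfold MP89da58.kapD
  refine Finset.prod_pos fun p hp => ?_
  have hp2 := (mem_filter.1 hp).2.two_le
  have h2 : (2 : ℝ) ≤ p := by exact_mod_cast hp2
  have h3 : 1 / (p : ℝ) ≤ 1 / 2 := by
    apply one_div_le_one_div_of_le (by norm_num) h2
  linarith

private lemma ng_hc_Lw (w t : ℕ) : Lw w t = (kapD w)⁻¹ * W (dv t) (prs w) := by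
  unfold TC.Lw Lib.MP_0da313_nt.W
  by_cases h : ∀ p : ℕ, p.Prime → p ≤ w → ¬ p ∣ t
  · rw [if_pos h, Finset.prod_eq_one, mul_one]
    intro p hp
    rw [ng_hc_mem_prs] at hp
    unfold GC.dv
    rw [if_neg (h p hp.1 hp.2), sub_zero]
  · rw [if_neg h]
    push Not at h
    obtain ⟨p, hp, hpw, hpt⟩ := h
    rw [Finset.prod_eq_zero (i := p) (ng_hc_mem_prs.2 ⟨hp, hpw⟩), mul_zero]
    unfold GC.dv
    rw [if_pos hpt, sub_self]

private lemma ng_hc_dv01 (t p : ℕ) : 0 ≤ dv t p ∧ dv t p ≤ 1 := by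
  unfold GC.dv
  split <;> norm_num

private lemma ng_hc_diff (w k t : ℕ) (hk : Even k) :
    |HH w k t - Lw w t| ≤ (kapD w)⁻¹ * E (dv t) (prs w) (k + 1) := by
  have hκ := (inv_pos.2 (ng_hc_kap_pos w)).le
  rw [ng_hc_Lw]
  unfold GC.HH
  have h1 := W_le_U (dv t) (prs w) (fun p _ => (ng_hc_dv01 t p).1)
    (fun p _ => (ng_hc_dv01 t p).2) hk
  have h2 := U_le_W_add_E (dv t) (prs w) (fun p _ => (ng_hc_dv01 t p).1)
    (fun p _ => (ng_hc_dv01 t p).2) hk
  rw [← mul_sub, abs_of_nonneg (mul_nonneg hκ (by linarith))]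
  exact mul_le_mul_of_nonneg_left (by linarith) hκ

private lemma ng_hc_cnt (X : ℝ) (hX : 0 ≤ X) (K g s : ℕ) (hK : 1 ≤ K) (hg : 1 ≤ g)
    (hgs : ∀ p : ℕ, p.Prime → p ∣ K → p ∣ s → p ∣ g) (S : Finset ℕ) (hS : ∀ p ∈ S, p.Prime) :
    (((Icc 1 ⌊2 * X⌋₊).filter (fun t : ℕ => t ≡ s [MOD K] ∧ ∀ p ∈ S, p ∣ t)).card : ℝ) ≤
      2 * X * g / K * (1 / ((∏ p ∈ S, p : ℕ) : ℝ)) + 1 := by
  classical
  set T := (Icc 1 ⌊2 * X⌋₊).filter (fun t : ℕ => t ≡ s [MOD K] ∧ ∀ p ∈ S, p ∣ t) with hT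
  set m : ℕ := ∏ p ∈ S, p with hm
  have hm0 : 0 < m := Finset.prod_pos fun p hp => (hS p hp).pos
  have hpos : (0 : ℝ) ≤ 2 * X * g / K * (1 / (m : ℝ)) := by positivity
  rcases T.eq_empty_or_nonempty with he | hne
  · rw [he, card_empty]
    push_cast at hpos ⊢
    linarith
  · set t0 := T.min' hne with ht0
    have ht0T : t0 ∈ T := T.min'_mem hne
    have hmem : ∀ x, x ∈ T ↔ (1 ≤ x ∧ x ≤ ⌊2 * X⌋₊) ∧ x ≡ s [MOD K] ∧ ∀ p ∈ S, p ∣ x := by
      intro x
      rw [hT, mem_filter, mem_Icc]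
    obtain ⟨_, ht0c, ht0S⟩ := (hmem t0).1 ht0T
    set S1 := S.filter (fun p => p ∣ K) with hS1
    set S2 := S.filter (fun p => ¬ p ∣ K) with hS2
    have hm12 : (∏ p ∈ S1, p) * ∏ p ∈ S2, p = m := by
      rw [hm, hS1, hS2, Finset.prod_filter_mul_prod_filter_not]
    have hS1g : ∏ p ∈ S1, p ∣ g := by
      apply Finset.prod_primes_dvd
      · intro p hp
        exact (hS p (mem_filter.1 hp).1).prime
      · intro p hp
        obtain ⟨hp1, hp2⟩ := mem_filter.1 hp
        refine hgs p (hS p hp1) hp2 ?_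
        exact (ht0c.dvd_iff hp2).1 (ht0S p hp1)
    have hS1le : ∏ p ∈ S1, p ≤ g := Nat.le_of_dvd (by omega) hS1g
    have hS20 : 0 < ∏ p ∈ S2, p :=
      Finset.prod_pos fun p hp => (hS p (mem_filter.1 hp).1).pos
    have hcop : Nat.Coprime K (∏ p ∈ S2, p) := by
      apply Nat.Coprime.prod_right
      intro p hp
      obtain ⟨hp1, hp2⟩ := mem_filter.1 hp
      exact ((Nat.Prime.coprime_iff_not_dvd (hS p hp1)).2 hp2).symm
    have hdiv : ∀ x ∈ T, t0 ≤ x ∧ K * ∏ p ∈ S2, p ∣ x - t0 := by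
      intro x hx
      have hle : t0 ≤ x := T.min'_le x hx
      obtain ⟨_, hxc, hxS⟩ := (hmem x).1 hx
      refine ⟨hle, ?_⟩
      apply hcop.mul_dvd_of_dvd_of_dvd
      · exact (Nat.modEq_iff_dvd' hle).1 (ht0c.trans hxc.symm)
      · apply Finset.prod_primes_dvd
        · intro p hp
          exact (hS p (mem_filter.1 hp).1).prime
        · intro p hp
          have hp1 := (mem_filter.1 hp).1
          exact Nat.dvd_sub (hxS p hp1) (ht0S p hp1)
    have hM0 : 0 < K * ∏ p ∈ S2, p := Nat.mul_pos (by omega) hS20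
    have hcard : T.card ≤ ⌊2 * X⌋₊ / (K * ∏ p ∈ S2, p) + 1 := by
      have h1 : T.card ≤ (range (⌊2 * X⌋₊ / (K * ∏ p ∈ S2, p) + 1)).card := by
        apply Finset.card_le_card_of_injOn (fun x => (x - t0) / (K * ∏ p ∈ S2, p))
        · intro x hx
          have hx' := Finset.mem_coe.1 hx
          have h2 := ((hmem x).1 hx').1.2
          rw [Finset.coe_range, Set.mem_Iio]
          have h3 : (x - t0) / (K * ∏ p ∈ S2, p) ≤ ⌊2 * X⌋₊ / (K * ∏ p ∈ S2, p) :=
            Nat.div_le_div_right (by omega)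
          exact Nat.lt_succ_of_le h3
        · intro x hx y hy hxy
          obtain ⟨h1, h2⟩ := hdiv x (Finset.mem_coe.1 hx)
          obtain ⟨h3, h4⟩ := hdiv y (Finset.mem_coe.1 hy)
          simp only at hxy
          have h5 := Nat.div_mul_cancel h2
          have h6 := Nat.div_mul_cancel h4
          rw [hxy, h6] at h5
          omega
      rwa [card_range] at h1
    have h1 : (T.card : ℝ) ≤ ((⌊2 * X⌋₊ / (K * ∏ p ∈ S2, p) : ℕ) : ℝ) + 1 := by
      exact_mod_cast hcard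
    have h2 : ((⌊2 * X⌋₊ / (K * ∏ p ∈ S2, p) : ℕ) : ℝ) ≤
        (⌊2 * X⌋₊ : ℝ) / ((K * ∏ p ∈ S2, p : ℕ) : ℝ) := Nat.cast_div_le
    have h3 : (⌊2 * X⌋₊ : ℝ) ≤ 2 * X := Nat.floor_le (by positivity)
    have hK' : (0 : ℝ) < K := by exact_mod_cast (by omega : 0 < K)
    have hS2' : (0 : ℝ) < ((∏ p ∈ S2, p : ℕ) : ℝ) := by exact_mod_cast hS20
    have hm' : (0 : ℝ) < (m : ℝ) := by exact_mod_cast hm0
    have h4 : (m : ℝ) ≤ g * ((∏ p ∈ S2, p : ℕ) : ℝ) := by
      rw [← hm12, Nat.cast_mul]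
      apply mul_le_mul_of_nonneg_right _ hS2'.le
      exact Nat.cast_le.2 hS1le
    have h5 : (⌊2 * X⌋₊ : ℝ) / ((K * ∏ p ∈ S2, p : ℕ) : ℝ) ≤ 2 * X * g / K * (1 / (m : ℝ)) := by
      rw [Nat.cast_mul]
      have h6 : 2 * X * g / K * (1 / (m : ℝ)) = (2 * X) * (g / (K * m)) := by
        field_simp
      rw [h6, div_eq_mul_one_div]
      apply mul_le_mul h3 _ (by positivity) (by positivity)
      rw [div_le_div_iff₀ (by positivity) (by positivity)]
      calc 1 * ((K : ℝ) * m) ≤ K * (g * ((∏ p ∈ S2, p : ℕ) : ℝ)) := by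
            rw [one_mul]
            exact mul_le_mul_of_nonneg_left h4 hK'.le
        _ = _ := by ring
    linarith

open Classical in
private lemma ng_hc_one (X : ℝ) (hX : 0 ≤ X) (w k K g s : ℕ) (hk : Even k) (hK : 1 ≤ K)
    (hg : 1 ≤ g) (hgs : ∀ p : ℕ, p.Prime → p ∣ K → p ∣ s → p ∣ g) :
    ∑ t ∈ (Icc 1 ⌊2 * X⌋₊).filter (fun t => t ≡ s [MOD K]), |HH w k t - Lw w t| ≤
    (kapD w)⁻¹ * (2 * X * g / K * E (fun p => 1 / (p : ℝ)) (prs w) (k + 1) +
      (((prs w).powersetCard (k + 1)).card : ℝ)) := by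
  have hκ := (inv_pos.2 (ng_hc_kap_pos w)).le
  have hpt : ∀ t ∈ (Icc 1 ⌊2 * X⌋₊).filter (fun t => t ≡ s [MOD K]),
      |HH w k t - Lw w t| ≤ (kapD w)⁻¹ * ∑ S ∈ (prs w).powersetCard (k + 1),
        (if ∀ p ∈ S, p ∣ t then (1 : ℝ) else 0) := by
    intro t _
    refine (ng_hc_diff w k t hk).trans (mul_le_mul_of_nonneg_left ?_ hκ)
    unfold Lib.MP_0da313_nt.E
    refine Finset.sum_le_sum fun S _ => ?_
    by_cases h : ∀ p ∈ S, p ∣ t
    · rw [if_pos h]
      exact Finset.prod_le_one (fun p _ => (ng_hc_dv01 _ p).1) (fun p _ => (ng_hc_dv01 _ p).2)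
    · rw [if_neg h]
      push Not at h
      obtain ⟨p, hp, hpn⟩ := h
      rw [Finset.prod_eq_zero hp]
      unfold GC.dv
      rw [if_neg hpn]
  refine (Finset.sum_le_sum hpt).trans ?_
  rw [← Finset.mul_sum, Finset.sum_comm]
  apply mul_le_mul_of_nonneg_left _ hκ
  have h2 : ∀ S ∈ (prs w).powersetCard (k + 1),
      ∑ t ∈ (Icc 1 ⌊2 * X⌋₊).filter (fun t => t ≡ s [MOD K]),
        (if ∀ p ∈ S, p ∣ t then (1 : ℝ) else 0) ≤
      2 * X * g / K * (∏ p ∈ S, (1 / (p : ℝ))) + 1 := by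
    intro S hS
    have hSp : ∀ p ∈ S, p.Prime := fun p hp =>
      (ng_hc_mem_prs.1 ((Finset.mem_powersetCard.1 hS).1 hp)).1
    have h3 := ng_hc_cnt X hX K g s hK hg hgs S hSp
    rw [← Finset.sum_filter, Finset.sum_const, nsmul_eq_mul, mul_one, Finset.filter_filter]
    refine h3.trans (le_of_eq ?_)
    rw [Finset.prod_div_distrib, Finset.prod_const_one]
    push_cast
    rfl
  refine (Finset.sum_le_sum h2).trans (le_of_eq ?_)
  rw [Finset.sum_add_distrib, ← Finset.mul_sum, Finset.sum_const, nsmul_eq_mul, mul_one]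
  rfl

private lemma ng_hc_card (w k : ℕ) : (((prs w).powersetCard k).card : ℝ) ≤ (w : ℝ) ^ k := by
  rw [Finset.card_powersetCard]
  have h1 : (prs w).card ≤ w := by
    have h2 : (prs w).card ≤ (Icc 1 w).card := Finset.card_le_card (Finset.filter_subset _ _)
    simpa using h2
  have h3 : (prs w).card.choose k ≤ w ^ k :=
    (Nat.choose_le_pow _ _).trans (Nat.pow_le_pow_left h1 k)
  exact_mod_cast h3

private lemma ng_hc_pow_log (m : ℕ) (C : ℝ) (hC : 0 < C) :
    ∀ᶠ X : ℝ in atTop, C * Real.log X ^ m ≤ X ^ (1 / 2 : ℝ) := by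
  have h1 := (isLittleO_log_rpow_rpow_atTop (m : ℝ) (by norm_num : (0 : ℝ) < 1 / 2)).bound
    (by positivity : (0 : ℝ) < 1 / C)
  filter_upwards [h1, eventually_ge_atTop 1] with X h3 h4
  have hL : 0 ≤ Real.log X := Real.log_nonneg h4
  rw [Real.rpow_natCast, Real.norm_of_nonneg (pow_nonneg hL m),
    Real.norm_of_nonneg (Real.rpow_nonneg (by linarith) _)] at h3
  rw [one_div, inv_mul_eq_div, le_div_iff₀ hC] at h3
  linarith

theorem p_hc : S_hc := by
  intro htl A B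
  obtain ⟨K1, hK1⟩ := htl 1 le_rfl
  set K' : ℕ := A + B + 2 with hK'
  refine ⟨max (2 * K') K1, ?_⟩
  filter_upwards [hK1, Real.tendsto_log_atTop.eventually (eventually_ge_atTop (8000 : ℝ)),
    ng_hc_pow_log (A + 1) 2000 (by norm_num), eventually_ge_atTop (1 : ℝ)] with X h1 hL h7 hX1
    w k hPm K g s hK hKX hg hgL hgs
  set L : ℝ := Real.log X with hLd
  have hLL : 0 ≤ Real.log L := Real.log_nonneg (by linarith)
  obtain ⟨hPw, hPk, hPe, hPwk⟩ := hPm
  have hmax1 : (2 * K' : ℕ) ≤ max (2 * K') K1 := le_max_left _ _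
  have hmax2 : K1 ≤ max (2 * K') K1 := le_max_right _ _
  have hPm1 : Pm X (1 / 50) K1 w k := by
    refine ⟨le_trans (pow_le_pow_right₀ (by linarith) hmax2) hPw, le_trans ?_ hPk, hPe,
      hPwk.trans ?_⟩
    · exact mul_le_mul_of_nonneg_right (by exact_mod_cast hmax2) hLL
    · exact Real.rpow_le_rpow_of_exponent_le hX1 (by norm_num)
  obtain ⟨ht1, _, ht3, _⟩ := h1 w k hPm1
  have hκ0 := inv_pos.2 (ng_hc_kap_pos w)
  -- the tail of the sieve
  set e : ℝ := E (fun p => 1 / (p : ℝ)) (prs w) (k + 1) with he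
  have he0 : 0 ≤ e := Lib.MP_0da313_nt.E_nonneg (fun p _ => by positivity) _
  have hρ : ∀ p ∈ prs w, 0 ≤ (fun p : ℕ => 1 / (p : ℝ)) p ∧
      (fun p : ℕ => 1 / (p : ℝ)) p ≤ ((1 : ℕ) : ℝ) / p := fun p _ =>
    ⟨by positivity, by simp⟩
  have he1 : e ≤ 2 * Real.exp (-(k : ℝ) / 2) := by
    have e1 := ht1 (fun p => 1 / (p : ℝ)) (prs w) k (Finset.Subset.refl _) hρ
      (by linarith [Nat.cast_nonneg (α := ℝ) k])
    have e2 := ht1 (fun p => 1 / (p : ℝ)) (prs w) (k + 1) (Finset.Subset.refl _) hρ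
      (by push_cast; linarith [Nat.cast_nonneg (α := ℝ) k])
    have e3 : U (fun p => 1 / (p : ℝ)) (prs w) (k + 1) =
        U (fun p => 1 / (p : ℝ)) (prs w) k - e := by
      rw [he]
      unfold Lib.MP_0da313_nt.U
      rw [Finset.sum_range_succ _ (k + 1), pow_succ, hPe.neg_one_pow]
      ring
    have e4 := (abs_le.1 e1).2
    have e5 := (abs_le.1 e2).1
    linarith
  have hexp : Real.exp (-(k : ℝ) / 2) ≤ 1 / L ^ K' := by
    have e1 : (2 * K' : ℝ) * Real.log L ≤ k := by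
      refine le_trans (mul_le_mul_of_nonneg_right ?_ hLL) hPk
      exact_mod_cast hmax1
    have e2 : Real.exp (-(k : ℝ) / 2) ≤ Real.exp (-(K' * Real.log L)) := by
      apply Real.exp_le_exp.2
      linarith
    have e3 : Real.exp (-(K' * Real.log L)) = (L ^ K')⁻¹ := by
      rw [Real.exp_neg, Real.exp_nat_mul, Real.exp_log (by linarith)]
    rw [e3] at e2
    rwa [one_div]
  set P : ℝ := (((prs w).powersetCard (k + 1)).card : ℝ) with hP
  have hP0 : 0 ≤ P := Nat.cast_nonneg _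
  have hP1 : P ≤ X ^ (1 / 100 : ℝ) := (ng_hc_card w (k + 1)).trans hPwk
  have hX0 : (0 : ℝ) < X := by linarith
  have hK0 : (0 : ℝ) < K := by exact_mod_cast (by omega : 0 < K)
  have hL0 : 0 < L := by linarith
  refine (ng_hc_one X hX0.le w k K g s hPe hK hg hgs).trans ?_
  have hA : 2 * X * g / K * e ≤ X / K * (4 * L ^ B / L ^ K') := by
    calc 2 * X * g / K * e ≤ 2 * X * L ^ B / K * (2 * (1 / L ^ K')) := by
          apply mul_le_mul _ (he1.trans (by linarith)) he0 (by positivity)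
          apply div_le_div_of_nonneg_right _ hK0.le
          exact mul_le_mul_of_nonneg_left hgL (by positivity)
      _ = _ := by ring
  calc (kapD w)⁻¹ * (2 * X * g / K * e + P)
      ≤ (1000 * L) * (X / K * (4 * L ^ B / L ^ K') + X ^ (1 / 100 : ℝ)) := by
        apply mul_le_mul ht3 (add_le_add hA hP1) (by positivity) (by positivity)
    _ = X / K * (4000 * (L ^ (B + 1) / L ^ K')) + 1 / 2 * (2000 * L * X ^ (1 / 100 : ℝ)) := by
        rw [pow_succ]
        ring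
    _ ≤ 1 / 2 * (X / K / L ^ A) + 1 / 2 * (X / K / L ^ A) := by
        apply add_le_add
        · have e1 : L ^ (B + 1) / L ^ K' = 1 / (L ^ A * L) := by
            rw [hK']
            have : A + B + 2 = (B + 1) + (A + 1) := by ring
            rw [this, pow_add L (B + 1), pow_succ L A]
            field_simp
          rw [e1]
          have e2 : 4000 * (1 / (L ^ A * L)) ≤ 1 / 2 * (1 / L ^ A) := by
            rw [mul_one_div, mul_one_div, div_le_div_iff₀ (by positivity) (by positivity)]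
            have : 0 < L ^ A := by positivity
            nlinarith
          calc X / K * (4000 * (1 / (L ^ A * L))) ≤ X / K * (1 / 2 * (1 / L ^ A)) :=
                mul_le_mul_of_nonneg_left e2 (by positivity)
            _ = _ := by ring
        · apply mul_le_mul_of_nonneg_left _ (by norm_num)
          have e3 : X ^ (49 / 50 : ℝ) ≤ X / K := by
            rw [le_div_iff₀ hK0]
            calc X ^ (49 / 50 : ℝ) * K ≤ X ^ (49 / 50 : ℝ) * X ^ (1 / 50 : ℝ) :=
                  mul_le_mul_of_nonneg_left hKX (by positivity)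
              _ = X ^ (49 / 50 + 1 / 50 : ℝ) := (Real.rpow_add hX0 _ _).symm
              _ = X := by norm_num
          rw [le_div_iff₀ (by positivity)]
          calc 2000 * L * X ^ (1 / 100 : ℝ) * L ^ A
              = (2000 * L ^ (A + 1)) * X ^ (1 / 100 : ℝ) := by
                rw [pow_succ]
                ring
            _ ≤ X ^ (1 / 2 : ℝ) * X ^ (1 / 100 : ℝ) :=
                mul_le_mul_of_nonneg_right h7 (by positivity)
            _ = X ^ (1 / 2 + 1 / 100 : ℝ) := (Real.rpow_add hX0 _ _).symm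
            _ ≤ X ^ (49 / 50 : ℝ) := Real.rpow_le_rpow_of_exponent_le hX1 (by norm_num)
            _ ≤ X / K := e3
    _ = X / K / L ^ A := by ring

end Pool.Agent.NC.G
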