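import Pool.Agent.Lib.MP_0da313_nt.NC.E

set_option autoImplicit false

/-!
Project NC, section E, piece gmi: the minor arcs by Weyl's inequality.
-/

namespace Pool.Agent.NC.E

open Finset Filter Polynomial
open Pool.Agent.MP89da58 (kapD tri tri_nonneg tri_le_one)
open Pool.Agent.CM (wd)
open Pool.Agent.SP80 (ex)
open Pool.Agent.NC (Fam Hn Bn Cq Er ErS)

/-- The total variation of a unimodal function. -/
private lemma gmi_tv (h : ℕ → ℝ) (h01 : ∀ y, 0 ≤ h y ∧ h y ≤ 1) (m : ℕ)
    (hup : ∀ y < m, h y ≤ h (y + 1)) (hdn : ∀ y, m < y → h (y + 1) ≤ h y) (Y : ℕ) :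
    ∑ y ∈ range Y, |h (y + 1) - h y| ≤ 3 := by
  have key : ∀ Y, ∑ y ∈ range Y, |h (y + 1) - h y| ≤
      if Y ≤ m then h Y - h 0 else (h m - h 0) + |h (m + 1) - h m| + (h (m + 1) - h Y) := by
    intro Y
    induction Y with
    | zero =>
      simp
    | succ Y ih =>
      rw [Finset.sum_range_succ]
      rcases lt_trichotomy Y m with hlt | heq | hgt
      · rw [if_pos hlt.le] at ih
        rw [if_pos (by omega)]
        rw [abs_of_nonneg (by linarith [hup Y hlt])]
        linarith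
      · subst heq
        rw [if_pos le_rfl] at ih
        rw [if_neg (by omega)]
        linarith
      · rw [if_neg (by omega)] at ih
        rw [if_neg (by omega)]
        rw [abs_of_nonpos (by linarith [hdn Y hgt])]
        linarith
  refine (key Y).trans ?_
  split
  · linarith [(h01 Y).2, (h01 0).1]
  · have h1 : |h (m + 1) - h m| ≤ 1 := by
      rw [abs_le]
      constructor <;> linarith [(h01 (m + 1)).1, (h01 (m + 1)).2, (h01 m).1, (h01 m).2]
    linarith [(h01 m).2, (h01 0).1, (h01 (m + 1)).2, (h01 Y).1]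

/-- The window is increasing up to its centre and then decreasing. -/
private lemma gmi_wd_up (lam X : ℝ) (hlam : 0 ≤ lam) (hX : 0 < X) (x x' : ℕ) (hx : 1 ≤ x)
    (hxx : x ≤ x') (hx' : (x' : ℝ) ≤ X) : wd lam X x ≤ wd lam X x' := by
  unfold CM.wd MP89da58.tri
  have hx0 : (0 : ℝ) < x := by exact_mod_cast hx
  have hxx' : (x : ℝ) ≤ x' := by exact_mod_cast hxx
  have h1 : Real.log (x / X) ≤ Real.log (x' / X) := by
    apply Real.log_le_log (by positivity)
    exact div_le_div_of_nonneg_right hxx' hX.le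
  have h2 : Real.log (x' / X) ≤ 0 := by
    apply Real.log_nonpos (by positivity)
    rw [div_le_one hX]
    exact hx'
  apply max_le_max le_rfl
  rw [abs_of_nonpos (mul_nonpos_of_nonneg_of_nonpos hlam (h1.trans h2)),
    abs_of_nonpos (mul_nonpos_of_nonneg_of_nonpos hlam h2)]
  have := mul_le_mul_of_nonneg_left h1 hlam
  linarith

private lemma gmi_wd_dn (lam X : ℝ) (hlam : 0 ≤ lam) (hX : 0 < X) (x x' : ℕ)
    (hxx : x ≤ x') (hx' : X ≤ (x : ℝ)) : wd lam X x' ≤ wd lam X x := by
  unfold CM.wd MP89da58.tri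
  have hxx' : (x : ℝ) ≤ x' := by exact_mod_cast hxx
  have hx0 : (0 : ℝ) < x := by linarith
  have h1 : Real.log (x / X) ≤ Real.log (x' / X) := by
    apply Real.log_le_log (by positivity)
    exact div_le_div_of_nonneg_right hxx' hX.le
  have h2 : 0 ≤ Real.log (x / X) := by
    apply Real.log_nonneg
    rw [le_div_iff₀ hX]
    linarith
  apply max_le_max le_rfl
  rw [abs_of_nonneg (mul_nonneg hlam h2), abs_of_nonneg (mul_nonneg hlam (h2.trans h1))]
  have := mul_le_mul_of_nonneg_left h1 hlam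
  linarith

/-- The elements of a class in `[1, H]`. -/
private lemma gmi_sum (z : ℕ → ℂ) (H q c : ℕ) (hq : 1 ≤ q) :
    ∑ x ∈ (Icc 1 H).filter (fun x => x ≡ c [MOD q]), z x =
      ∑ y ∈ range (H / q + 1), if 1 ≤ c % q + q * y ∧ c % q + q * y ≤ H then z (c % q + q * y)
        else 0 := by
  rw [← Finset.sum_filter]
  symm
  refine Finset.sum_nbij' (fun y => c % q + q * y) (fun x => x / q) ?_ ?_ ?_ ?_ ?_
  · intro y hy
    obtain ⟨_, h1, h2⟩ := mem_filter.1 hy
    rw [mem_filter, mem_Icc]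
    refine ⟨⟨h1, h2⟩, ?_⟩
    unfold Nat.ModEq
    rw [Nat.add_mul_mod_self_left, Nat.mod_mod]
  · intro x hx
    rw [mem_filter, mem_Icc] at hx
    obtain ⟨⟨h1, h2⟩, h3⟩ := hx
    have h4 : c % q + q * (x / q) = x := by
      have h5 : x % q = c % q := h3
      rw [← h5, add_comm]
      exact Nat.div_add_mod x q
    rw [mem_filter, mem_range, h4]
    exact ⟨Nat.lt_succ_of_le (Nat.div_le_div_right h2), h1, h2⟩
  · intro y hy
    have h1 : c % q < q := Nat.mod_lt _ (by omega)
    rw [Nat.add_mul_div_left _ _ (by omega), Nat.div_eq_of_lt h1, zero_add]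
  · intro x hx
    rw [mem_filter, mem_Icc] at hx
    have h5 : x % q = c % q := hx.2
    rw [← h5, add_comm]
    exact Nat.div_add_mod x q
  · intro y _
    rfl

theorem p_gmi : S_gmi := by
  intro ι _ _ D d E F l A
  have hd2 := F.hd
  obtain ⟨B, hB⟩ := Wy.weyl_window d (A + 1) F.hd
  refine ⟨B, ?_⟩
  obtain ⟨Y1, hY1⟩ := eventually_atTop.1 hB
  have hd0 : (0 : ℝ) < d := by exact_mod_cast (by omega : 0 < d)
  have hd1 : (2 : ℝ) ≤ d := by exact_mod_cast F.hd
  have hE1 : (1 : ℝ) ≤ E := by exact_mod_cast F.hE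
  have hcast : Tendsto (fun n : ℕ => (n : ℝ)) atTop atTop := tendsto_natCast_atTop_atTop
  have hlogt : Tendsto (fun N : ℕ => Real.log N) atTop atTop := Real.tendsto_log_atTop.comp hcast
  have hpowt : Tendsto (fun N : ℕ => (N : ℝ) ^ (1 / (2 * d) : ℝ)) atTop atTop :=
    (tendsto_rpow_atTop (by positivity)).comp hcast
  obtain ⟨Y2, hY2⟩ := eventually_atTop.1 (Wy.pow_log_le (B + 1))
  filter_upwards [hpowt.eventually (eventually_ge_atTop (max (Y1 : ℝ) (max Y2 3))),
    hlogt.eventually (eventually_ge_atTop (max 1 (24 * (2 * d : ℝ) ^ (A + 1)))),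
    eventually_ge_atTop 4] with N hN1 hN2 hN3
  intro q c α hq hqN
  set L : ℝ := Real.log N with hL
  have hL1 : 1 ≤ L := (le_max_left _ _).trans hN2
  have hL24 : 24 * (2 * d : ℝ) ^ (A + 1) ≤ L := (le_max_right _ _).trans hN2
  have hNr : (4 : ℝ) ≤ N := by exact_mod_cast hN3
  have hN0 : (0 : ℝ) < N := by linarith
  have hN1' : (1 : ℝ) ≤ N := by linarith
  have hq0 : (0 : ℝ) < q := by exact_mod_cast hq
  have hq1 : (1 : ℝ) ≤ q := by exact_mod_cast hq
  set Z : ℝ := (N : ℝ) ^ (1 / (d : ℝ)) with hZ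
  have hZ1 : 1 ≤ Z := Real.one_le_rpow hN1' (by positivity)
  set H : ℕ := Hn d N with hH
  have hHZ : (H : ℝ) ≤ Z := Nat.floor_le (by positivity)
  have hHZ' : Z < H + 1 := Nat.lt_floor_add_one _
  set Y : ℕ := H / q + 1 with hY
  have hYpos : (0 : ℝ) < Y := by
    rw [hY]
    push_cast
    positivity
  -- the size of Y
  have hqY : Z < q * Y := by
    have h1 : H + 1 ≤ q * Y := by
      have h2 : H < q * (H / q + 1) := Nat.lt_mul_div_succ H (by omega)
      exact h2
    have h3 : ((H : ℝ) + 1) ≤ q * Y := by exact_mod_cast h1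
    linarith
  have hqZ : (q : ℝ) ≤ Z := by
    refine hqN.trans ?_
    apply Real.rpow_le_rpow_of_exponent_le hN1'
    apply one_div_le_one_div_of_le hd0
    linarith
  have hYle : (Y : ℝ) ≤ 2 * Z / q := by
    have h1 : ((H / q : ℕ) : ℝ) ≤ (H : ℝ) / q := Nat.cast_div_le
    have h2 : (H : ℝ) / q ≤ Z / q := div_le_div_of_nonneg_right hHZ hq0.le
    have h3 : 1 ≤ Z / q := by
      rw [le_div_iff₀ hq0]
      linarith
    have h4 : 2 * Z / q = Z / q + Z / q := by ring
    rw [hY, h4]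
    push_cast
    linarith
  have hYge : (N : ℝ) ^ (1 / (2 * d) : ℝ) ≤ Y := by
    have h1 : Z / q ≤ Y := by
      rw [div_le_iff₀ hq0]
      linarith [mul_comm (q : ℝ) Y]
    refine le_trans ?_ h1
    rw [le_div_iff₀ hq0]
    calc (N : ℝ) ^ (1 / (2 * d) : ℝ) * q ≤ (N : ℝ) ^ (1 / (2 * d) : ℝ) *
          (N : ℝ) ^ (1 / (1000 * d) : ℝ) := mul_le_mul_of_nonneg_left hqN (by positivity)
      _ = (N : ℝ) ^ (1 / (2 * d) + 1 / (1000 * d) : ℝ) := (Real.rpow_add hN0 _ _).symm
      _ ≤ Z := by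
          apply Real.rpow_le_rpow_of_exponent_le hN1'
          have h2 : (1 / (2 * d) + 1 / (1000 * d) : ℝ) = 501 / 1000 * (1 / d) := by
            field_simp
            norm_num
          rw [h2]
          have h3 : 0 < 1 / (d : ℝ) := by positivity
          linarith
  have hYY1 : Y1 ≤ Y := by
    have : (Y1 : ℝ) ≤ Y := ((le_max_left _ _).trans hN1).trans hYge
    exact_mod_cast this
  have hYY2 : Y2 ≤ Y := by
    have : (Y2 : ℝ) ≤ Y := (((le_max_left _ _).trans (le_max_right _ _)).trans hN1).trans hYge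
    exact_mod_cast this
  have hY3 : (3 : ℝ) ≤ Y := (((le_max_right _ _).trans (le_max_right _ _)).trans hN1).trans hYge
  have hlogY1 : 1 / (2 * d) * L ≤ Real.log Y := by
    have h1 := Real.log_le_log (by positivity) hYge
    rwa [Real.log_rpow hN0] at h1
  have hlogYone : 1 ≤ Real.log Y := by
    rw [Real.le_log_iff_exp_le hYpos]
    linarith [Real.exp_one_lt_d9]
  have hYN : (Y : ℝ) ≤ N := by
    refine hYle.trans ?_
    have h1 : 2 * Z / q ≤ 2 * Z := div_le_self (by positivity) hq1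
    have h2 : Z ≤ (N : ℝ) ^ (1 / 2 : ℝ) := by
      apply Real.rpow_le_rpow_of_exponent_le hN1'
      exact one_div_le_one_div_of_le (by norm_num) hd1
    have h3 : (2 : ℝ) ≤ (N : ℝ) ^ (1 / 2 : ℝ) := by
      have h4 : (2 : ℝ) = (4 : ℝ) ^ (1 / 2 : ℝ) := by
        rw [show (4 : ℝ) = 2 ^ (2 : ℝ) by norm_num, ← Real.rpow_mul (by norm_num)]
        norm_num
      exact h4.le.trans (Real.rpow_le_rpow (by norm_num) hNr (by norm_num))
    have h5 : (N : ℝ) ^ (1 / 2 : ℝ) * (N : ℝ) ^ (1 / 2 : ℝ) = N := by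
      rw [← Real.rpow_add hN0]
      norm_num
    nlinarith
  have hlogY2 : Real.log Y ≤ L := Real.log_le_log hYpos hYN
  -- the weight
  set c' : ℕ := c % q with hc'
  set lam : ℝ := 1000 * d * E with hlam
  have hlam0 : 0 ≤ lam := by positivity
  set X : ℝ := F.X N with hX
  have hs := F.hs0
  have hX0 : 0 < X := by
    rw [hX]
    unfold NC.Fam.X
    have : 0 < F.s * N := by
      have : 0 < F.s := by linarith
      positivity
    positivity
  have hXZ : X ≤ Z := by
    rw [hX, hZ]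
    unfold NC.Fam.X
    apply Real.rpow_le_rpow
    · have : 0 ≤ F.s := by linarith
      positivity
    · have := F.hs1
      nlinarith
    · positivity
  set h : ℕ → ℝ := fun y => if 1 ≤ c' + q * y ∧ c' + q * y ≤ H then F.wh N (c' + q * y) else 0
    with hh
  have hwh : ∀ x, 0 ≤ F.wh N x ∧ F.wh N x ≤ 1 := fun x => ⟨tri_nonneg _, tri_le_one _⟩
  have h01 : ∀ y, 0 ≤ h y ∧ h y ≤ 1 := by
    intro y
    simp only [hh]
    split
    · exact hwh _
    · exact ⟨le_rfl, zero_le_one⟩
  set m0 : ℕ := (⌊X⌋₊ - c') / q with hm0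
  have hXH : ⌊X⌋₊ ≤ H := Nat.floor_le_floor hXZ
  have hup : ∀ y < m0, h y ≤ h (y + 1) := by
    intro y hy
    have h1 : q * (y + 1) ≤ ⌊X⌋₊ - c' := by
      have h2 : y + 1 ≤ (⌊X⌋₊ - c') / q := hy
      calc q * (y + 1) ≤ q * ((⌊X⌋₊ - c') / q) := Nat.mul_le_mul_left _ h2
        _ ≤ ⌊X⌋₊ - c' := Nat.mul_div_le _ _
    have hqy : 1 ≤ q * (y + 1) := Nat.mul_pos hq (by omega)
    have h2 : c' + q * (y + 1) ≤ ⌊X⌋₊ := by omega
    have h3 : 1 ≤ c' + q * (y + 1) ∧ c' + q * (y + 1) ≤ H := ⟨by omega, by omega⟩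
    simp only [hh]
    rw [if_pos h3]
    by_cases h4 : 1 ≤ c' + q * y ∧ c' + q * y ≤ H
    · rw [if_pos h4]
      have h5 : c' + q * y ≤ c' + q * (y + 1) := by
        have : q * y ≤ q * (y + 1) := Nat.mul_le_mul_left _ (by omega)
        omega
      have h6 : ((c' + q * (y + 1) : ℕ) : ℝ) ≤ X := by
        refine le_trans ?_ (Nat.floor_le hX0.le)
        exact_mod_cast h2
      exact gmi_wd_up lam X hlam0 hX0 _ _ h4.1 h5 h6
    · rw [if_neg h4]
      exact (hwh _).1
  have hdn : ∀ y, m0 < y → h (y + 1) ≤ h y := by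
    intro y hy
    have h1 : ⌊X⌋₊ < c' + q * y := by
      have h2 : (⌊X⌋₊ - c') / q < y := hy
      have h3 := (Nat.div_lt_iff_lt_mul (by omega : 0 < q)).1 h2
      rw [mul_comm] at h3
      omega
    have hXy : X ≤ ((c' + q * y : ℕ) : ℝ) := ((Nat.floor_lt hX0.le).1 h1).le
    simp only [hh]
    by_cases h3 : 1 ≤ c' + q * (y + 1) ∧ c' + q * (y + 1) ≤ H
    · have h5 : c' + q * y ≤ c' + q * (y + 1) := by
        have : q * y ≤ q * (y + 1) := Nat.mul_le_mul_left _ (by omega)
        omega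
      rw [if_pos h3, if_pos ⟨by omega, by omega⟩]
      exact gmi_wd_dn lam X hlam0 hX0 _ _ h5 hXy
    · rw [if_neg h3]
      split
      · exact (hwh _).1
      · exact le_rfl
  have htv := gmi_tv h h01 m0 hup hdn Y
  have hV1 : |h 0| ≤ 4 := by
    rw [abs_of_nonneg (h01 0).1]
    linarith [(h01 0).2]
  have hV2 : ∑ y ∈ range Y, |h (y + 1) - h y| ≤ 4 := htv.trans (by norm_num)
  -- the polynomial
  set A0 : ℤ := (F.g l).coeff d with hA0
  set G : ℝ[X] := (F.g l).map (Int.castRingHom ℝ) with hG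
  have hGdeg : G.natDegree = d := by
    rw [hG, Polynomial.natDegree_map_eq_of_injective (RingHom.injective_int _), F.hg]
  have hGlead : G.leadingCoeff = (A0 : ℝ) := by
    unfold Polynomial.leadingCoeff
    rw [hGdeg, hG, Polynomial.coeff_map]
    rfl
  have hA00 : A0 ≠ 0 := by
    intro h0
    have h1 : (F.g l).leadingCoeff = 0 := by
      unfold Polynomial.leadingCoeff
      rw [F.hg]
      exact h0
    have h2 := Polynomial.leadingCoeff_eq_zero.1 h1
    have h3 := F.hg l
    rw [h2, Polynomial.natDegree_zero] at h3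
    omega
  set f : ℝ[X] := C (-α) * G.comp (C (q : ℝ) * Polynomial.X + C (c' : ℝ)) with hf
  have hlin : (C (q : ℝ) * Polynomial.X + C (c' : ℝ)).natDegree = 1 :=
    Polynomial.natDegree_linear hq0.ne'
  have hfdeg : f.natDegree ≤ d := by
    rw [hf]
    refine (Polynomial.natDegree_C_mul_le _ _).trans ?_
    rw [Polynomial.natDegree_comp, hlin, mul_one, hGdeg]
  have hfc : f.coeff d = -α * (A0 * (q : ℝ) ^ d) := by
    rw [hf, Polynomial.coeff_C_mul]
    congr 1
    have h1 := Polynomial.coeff_comp_degree_mul_degree (p := G)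
      (q := C (q : ℝ) * Polynomial.X + C (c' : ℝ)) (by rw [hlin]; norm_num)
    rw [hlin, hGdeg, mul_one, hGlead, Polynomial.leadingCoeff_linear hq0.ne'] at h1
    exact h1
  have hfe : ∀ y : ℕ, f.eval (y : ℝ) = -α * (((F.g l).eval ((c' + q * y : ℕ) : ℤ) : ℤ) : ℝ) := by
    intro y
    rw [hf, Polynomial.eval_mul, Polynomial.eval_C, Polynomial.eval_comp]
    congr 1
    have h1 : (C (q : ℝ) * Polynomial.X + C (c' : ℝ)).eval (y : ℝ) =
        (((c' + q * y : ℕ) : ℤ) : ℝ) := by
      simp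
      ring
    rw [h1, hG, Polynomial.eval_intCast_map]
    rfl
  have hGh : Gh F N l q c α = ∑ y ∈ range Y, (h y : ℂ) * ex (f.eval (y : ℝ)) := by
    unfold Gh
    rw [gmi_sum (fun x => (F.wh N x : ℂ) * ex (-α * (((F.g l).eval (x : ℤ) : ℤ) : ℝ))) (Hn d N) q c
      hq]
    refine Finset.sum_congr rfl fun y _ => ?_
    simp only [hh]
    rw [hfe]
    split
    · rfl
    · simp
  constructor
  · rw [hGh]
    refine (norm_sum_le _ _).trans ?_
    have h1 : ∀ y ∈ range Y, ‖(h y : ℂ) * ex (f.eval (y : ℝ))‖ ≤ 1 := by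
      intro y _
      rw [norm_mul, Wy.norm_ex, mul_one, Complex.norm_real, Real.norm_of_nonneg (h01 y).1]
      exact (h01 y).2
    refine (Finset.sum_le_sum h1).trans ?_
    rw [Finset.sum_const, card_range, nsmul_eq_mul, mul_one]
    exact hYle
  -- Dirichlet
  set P : ℝ := Real.log Y ^ B with hP
  have hP1 : 1 ≤ P := one_le_pow₀ hlogYone
  have hP0 : 0 < P := by linarith
  have hYd : P ≤ (Y : ℝ) ^ d := by
    have h1 : Real.log Y ^ (B + 1) ≤ Y := hY2 Y hYY2
    have h2 : P ≤ Real.log Y ^ (B + 1) := pow_le_pow_right₀ hlogYone (by omega)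
    have h3 : (Y : ℝ) ≤ (Y : ℝ) ^ d := by
      calc (Y : ℝ) = (Y : ℝ) ^ 1 := (pow_one _).symm
        _ ≤ (Y : ℝ) ^ d := pow_le_pow_right₀ (by linarith) (by omega)
    linarith
  set Q : ℕ := ⌊(Y : ℝ) ^ d / P⌋₊ with hQ
  have hQpos : 0 < Q := Nat.floor_pos.2 (by rw [le_div_iff₀ hP0]; linarith)
  have hQle : (Q : ℝ) ≤ (Y : ℝ) ^ d / P := Nat.floor_le (by positivity)
  have hQlt : (Y : ℝ) ^ d / P < Q + 1 := Nat.lt_floor_add_one _
  obtain ⟨r, hr1, hr2⟩ := Real.exists_rat_abs_sub_le_and_den_le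
    ((d.factorial : ℝ) * f.coeff d) hQpos
  set m : ℕ := r.den with hm
  have hmpos : 0 < m := r.den_pos
  have hm0' : (0 : ℝ) < m := by exact_mod_cast hmpos
  have hm1 : (1 : ℝ) ≤ m := by exact_mod_cast hmpos
  have hmQ : (m : ℝ) ≤ Q := by exact_mod_cast hr2
  have hrcast : (r : ℝ) = (r.num : ℝ) / m := by
    rw [Rat.cast_def]
  have hcop : IsCoprime r.num (m : ℤ) := by
    rw [Int.isCoprime_iff_gcd_eq_one]
    exact r.reduced
  rw [hrcast] at hr1
  have happ : |(d.factorial : ℝ) * f.coeff d - (r.num : ℝ) / m| ≤ 1 / (m : ℝ) ^ 2 := by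
    refine hr1.trans ?_
    apply one_div_le_one_div_of_le (by positivity)
    rw [sq]
    apply mul_le_mul_of_nonneg_right _ hm0'.le
    linarith
  have hmP : m * P ≤ (Y : ℝ) ^ d := by
    have h1 : (m : ℝ) ≤ (Y : ℝ) ^ d / P := hmQ.trans hQle
    rwa [le_div_iff₀ hP0] at h1
  by_cases hbig : P ≤ m
  · left
    have h1 := hY1 Y hYY1 f m r.num hfdeg hmpos hcop hbig hmP happ h 4 hV1 hV2 Y le_rfl
    rw [hGh]
    refine h1.trans ?_
    have hlogpos : 0 < Real.log Y := by linarith
    have h2 : (1 / (2 * d) * L) ^ (A + 1) ≤ Real.log Y ^ (A + 1) :=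
      pow_le_pow_left₀ (by positivity) hlogY1 _
    have h3 : (1 / (2 * d) * L) ^ (A + 1) = L ^ (A + 1) / (2 * d) ^ (A + 1) := by
      rw [← div_pow]
      congr 1
      ring
    rw [h3] at h2
    have hLp : 0 < L ^ (A + 1) / (2 * d : ℝ) ^ (A + 1) := by positivity
    calc 3 * 4 * ((Y : ℝ) / Real.log Y ^ (A + 1))
        ≤ 3 * 4 * ((2 * Z / q) / (L ^ (A + 1) / (2 * d) ^ (A + 1))) := by
          apply mul_le_mul_of_nonneg_left _ (by norm_num)
          exact div_le_div₀ (by positivity) hYle hLp h2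
      _ = (24 * (2 * d : ℝ) ^ (A + 1)) / L * (Z / q / L ^ A) := by
          rw [pow_succ L A]
          field_simp
          ring
      _ ≤ 1 * (Z / q / L ^ A) := by
          apply mul_le_mul_of_nonneg_right _ (by positivity)
          rw [div_le_one (by linarith)]
          exact hL24
      _ = _ := one_mul _
  · right
    push Not at hbig
    have hPL : P ≤ L ^ B := pow_le_pow_left₀ (by linarith) hlogY2 _
    have hmL : m ≤ ⌊L ^ B⌋₊ := Nat.le_floor (hbig.le.trans hPL)
    refine ⟨m, mem_Icc.2 ⟨hmpos, hmL⟩, ?_⟩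
    have hccpos : 0 < cc F l := Nat.mul_pos (Nat.factorial_pos _) (Int.natAbs_pos.2 hA00)
    have hcc1 : (1 : ℝ) ≤ cc F l := by exact_mod_cast hccpos
    have hccr : (0 : ℝ) < cc F l := by linarith
    have hqd : (0 : ℝ) < (q : ℝ) ^ d := by positivity
    -- the final bound
    have hfin : |(d.factorial : ℝ) * f.coeff d - (r.num : ℝ) / m| / (cc F l * (q : ℝ) ^ d) ≤
        L ^ B / N := by
      have h1 : (N : ℝ) ≤ (q * Y : ℝ) ^ d := by
        have h2 : Z ^ d = N := by
          rw [hZ, one_div]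
          exact Real.rpow_inv_natCast_pow hN0.le (by omega)
        rw [← h2]
        exact pow_le_pow_left₀ (by positivity) hqY.le _
      have h3 : |(d.factorial : ℝ) * f.coeff d - (r.num : ℝ) / m| ≤ P / (Y : ℝ) ^ d := by
        refine hr1.trans ?_
        rw [div_le_div_iff₀ (by positivity) (by positivity), one_mul]
        have h4 : (Y : ℝ) ^ d ≤ (Q + 1) * P := by
          rw [div_lt_iff₀ hP0] at hQlt
          exact hQlt.le
        calc (Y : ℝ) ^ d ≤ (Q + 1) * P := h4
          _ ≤ ((Q + 1) * m) * P := by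
              apply mul_le_mul_of_nonneg_right _ hP0.le
              exact le_mul_of_one_le_right (by positivity) hm1
          _ = P * ((Q + 1) * m) := by ring
      rw [div_le_div_iff₀ (by positivity) hN0]
      calc |(d.factorial : ℝ) * f.coeff d - (r.num : ℝ) / m| * N
          ≤ P / (Y : ℝ) ^ d * (q * Y : ℝ) ^ d :=
            mul_le_mul h3 h1 hN0.le (by positivity)
        _ = P * (q : ℝ) ^ d := by
            rw [mul_pow]
            field_simp
        _ ≤ L ^ B * (cc F l * (q : ℝ) ^ d) := by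
            apply mul_le_mul hPL _ hqd.le (by positivity)
            exact le_mul_of_one_le_left hqd.le hcc1
    have hccA : (cc F l : ℝ) = d.factorial * |(A0 : ℝ)| := by
      unfold cc
      rw [Nat.cast_mul, Nat.cast_natAbs, Int.cast_abs]
    have hθ : (d.factorial : ℝ) * f.coeff d = -(α * (d.factorial * (A0 : ℝ)) * (q : ℝ) ^ d) := by
      rw [hfc]
      ring
    have hfact : (0 : ℝ) < (d.factorial : ℝ) := by exact_mod_cast Nat.factorial_pos d
    rcases lt_or_gt_of_ne hA00 with hneg | hpos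
    · refine ⟨r.num, ?_⟩
      have hA0r : (A0 : ℝ) < 0 := by exact_mod_cast hneg
      have h5 : (d.factorial : ℝ) * f.coeff d = α * (cc F l * (q : ℝ) ^ d) := by
        rw [hθ, hccA, abs_of_neg hA0r]
        ring
      have h6 : α - (r.num : ℝ) / ((cc F l * m * q ^ d : ℕ) : ℝ) =
          ((d.factorial : ℝ) * f.coeff d - (r.num : ℝ) / m) / (cc F l * (q : ℝ) ^ d) := by
        rw [h5]
        push_cast
        field_simp
      rw [h6, abs_div, abs_of_pos (by positivity : (0 : ℝ) < cc F l * (q : ℝ) ^ d)]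
      exact hfin
    · refine ⟨-r.num, ?_⟩
      have hA0r : (0 : ℝ) < (A0 : ℝ) := by exact_mod_cast hpos
      have h5 : (d.factorial : ℝ) * f.coeff d = -(α * (cc F l * (q : ℝ) ^ d)) := by
        rw [hθ, hccA, abs_of_pos hA0r]
        ring
      have h6 : α - ((-r.num : ℤ) : ℝ) / ((cc F l * m * q ^ d : ℕ) : ℝ) =
          -(((d.factorial : ℝ) * f.coeff d - (r.num : ℝ) / m) / (cc F l * (q : ℝ) ^ d)) := by
        rw [h5]
        push_cast
        field_simp
        ring
      rw [h6, abs_neg, abs_div, abs_of_pos (by positivity : (0 : ℝ) < cc F l * (q : ℝ) ^ d)]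
      exact hfin

end Pool.Agent.NC.E
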