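import Pool.Agent.Lib.MP_0da313_nt.NC.G
import Pool.Agent.Lib.MP_89da58_nt.BvW

set_option autoImplicit false

/-!
Project NC, section G, piece mjL: the major arcs with the rough model.
-/

namespace Pool.Agent.NC.G

open Finset Filter
open Pool.Agent.MP89da58 (tri kapD sum_omega_le)
open Pool.Agent.Lib.MP_0da313_nt (W U)
open Pool.Agent.CH (thP)
open Pool.Agent.SP80 (ex)
open Pool.Agent.GC (HH tz ES Pm prs dv)
open Pool.Agent.TC (Lw)

private lemma ng_mjL_norm_ex (x : ℝ) : ‖ex x‖ = 1 := by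
  unfold SP80.ex
  rw [Complex.norm_exp]
  simp

private lemma ng_mjL_tz (y : ℝ) : |tz y| ≤ 1 := by
  unfold GC.tz
  rw [abs_of_nonneg (le_min zero_le_one (le_max_left _ _))]
  exact min_le_left _ _

/-- The two exponential sums. -/
private lemma ng_mjL_diff (w k : ℕ) (X : ℝ) (K s : ℕ) (β : ℝ) :
    ‖EL w X K s β‖ ≤ ‖ES w k X K s β‖ +
      ∑ t ∈ (Icc 1 ⌊2 * X⌋₊).filter (fun t => t ≡ s [MOD K]), |HH w k t - Lw w t| := by
  have e : EL w X K s β = ES w k X K s β +
      ∑ t ∈ (Icc 1 ⌊2 * X⌋₊).filter (fun t => t ≡ s [MOD K]),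
        (((HH w k t - Lw w t) * tz (t / X) : ℝ) : ℂ) * ex (β * t) := by
    unfold EL GC.ES
    rw [← Finset.sum_add_distrib]
    refine Finset.sum_congr rfl fun t _ => ?_
    push_cast
    ring
  rw [e]
  refine (norm_add_le _ _).trans ?_
  apply add_le_add_right
  refine (norm_sum_le _ _).trans (Finset.sum_le_sum fun t _ => ?_)
  rw [norm_mul, ng_mjL_norm_ex, mul_one, Complex.norm_real, Real.norm_eq_abs, abs_mul]
  calc |HH w k t - Lw w t| * |tz (t / X)| ≤ |HH w k t - Lw w t| * 1 :=
        mul_le_mul_of_nonneg_left (ng_mjL_tz _) (abs_nonneg _)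
    _ = _ := mul_one _

private lemma ng_mjL_Pm {X ε : ℝ} {K K' w k : ℕ} (hL : 1 ≤ Real.log X) (hK : K' ≤ K)
    (h : Pm X ε K w k) : Pm X ε K' w k := by
  refine ⟨?_, ?_, h.even, h.wk⟩
  · exact (pow_le_pow_right₀ hL hK).trans h.w_ge
  · refine le_trans ?_ h.k_ge
    apply mul_le_mul_of_nonneg_right _ (Real.log_nonneg hL)
    exact_mod_cast hK

theorem p_mjL : S_mjL := by
  intro hmaj hhc d c0 A b B hd hc0
  obtain ⟨K1, hK1⟩ := hmaj d c0 (A + 1) b B hd hc0
  obtain ⟨K2, hK2⟩ := hhc (A + b + 2) (B + 1)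
  refine ⟨max K1 K2, ?_⟩
  have hlogt : Tendsto Real.log atTop atTop := Real.tendsto_log_atTop
  have hev1 : ∀ᶠ X : ℝ in atTop, max (max (c0 : ℝ) (2 ^ b)) 2 ≤ Real.log X :=
    hlogt.eventually (eventually_ge_atTop _)
  have hev2 : ∀ᶠ X : ℝ in atTop, Real.log X ^ (B + 1) ≤ X ^ (1 / 100 : ℝ) := by
    have h1 : (fun X : ℝ => Real.log X ^ ((B : ℝ) + 1)) =o[atTop] fun X => X ^ (1 / 100 : ℝ) :=
      isLittleO_log_rpow_rpow_atTop _ (by norm_num)
    have h2 := h1.def (show (0 : ℝ) < 1 by norm_num)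
    filter_upwards [h2, eventually_ge_atTop (1 : ℝ), hev1] with X h3 hX1 hX2
    have hL0 : 0 ≤ Real.log X := Real.log_nonneg hX1
    rw [one_mul, Real.norm_of_nonneg (Real.rpow_nonneg hL0 _),
      Real.norm_of_nonneg (Real.rpow_nonneg (by linarith) _)] at h3
    have e : Real.log X ^ (B + 1) = Real.log X ^ ((B : ℝ) + 1) := by
      rw [← Real.rpow_natCast]
      push_cast
      rfl
    rw [e]
    exact h3
  filter_upwards [hK1, hK2, hev1, hev2, eventually_ge_atTop (1 : ℝ)] with X hX1 hX2 hX3 hX4 hX5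
  intro w k hPm
  set L : ℝ := Real.log X with hLdef
  have hL2 : 2 ≤ L := (le_max_right _ _).trans hX3
  have hLc : (c0 : ℝ) ≤ L := ((le_max_left _ _).trans (le_max_left _ _)).trans hX3
  have hLb : (2 : ℝ) ^ b ≤ L := ((le_max_right _ _).trans (le_max_left _ _)).trans hX3
  have hL1 : 1 ≤ L := by linarith
  have hL0 : 0 < L := by linarith
  have hX0 : 0 < X := by linarith
  obtain ⟨E, hE0, hE1, hE2⟩ := hX1 w k (ng_mjL_Pm hL1 (le_max_left _ _) hPm)
  have hcl := hX2 w k (ng_mjL_Pm hL1 (le_max_right _ _) hPm)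
  refine ⟨fun q => E q + X / (q : ℝ) ^ d / L ^ (A + b + 2), fun q => ?_, ?_, ?_⟩
  · have := hE0 q
    positivity
  · intro q l s β hq hqX hl hlX hs hβ
    have hq0 : q ≠ 0 := hq.ne_zero
    have hq1 : (1 : ℝ) ≤ q := by exact_mod_cast Nat.one_le_iff_ne_zero.2 hq0
    have hl1 : (1 : ℝ) ≤ l := by exact_mod_cast hl
    have hc1 : (1 : ℝ) ≤ c0 := by exact_mod_cast hc0
    refine (ng_mjL_diff w k X (c0 * l * q ^ d) s β).trans ?_
    apply add_le_add (hE1 q l s β hq hqX hl hlX hs hβ)
    have hg : ((c0 * l : ℕ) : ℝ) ≤ L ^ (B + 1) := by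
      push_cast
      rw [pow_succ, mul_comm (L ^ B)]
      exact mul_le_mul hLc hlX (by positivity) hL0.le
    have hqd : (q : ℝ) ^ d ≤ X ^ (1 / 100 : ℝ) := by
      have hd0 : (d : ℝ) ≠ 0 := by
        have : d ≠ 0 := by omega
        exact_mod_cast this
      calc (q : ℝ) ^ d ≤ (X ^ (1 / (100 * d : ℝ))) ^ d := pow_le_pow_left₀ (by positivity) hqX d
        _ = X ^ (1 / 100 : ℝ) := by
            rw [← Real.rpow_natCast, ← Real.rpow_mul hX0.le]
            congr 1
            field_simp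
    have hK : ((c0 * l * q ^ d : ℕ) : ℝ) ≤ X ^ (1 / 50 : ℝ) := by
      have e : X ^ (1 / 50 : ℝ) = X ^ (1 / 100 : ℝ) * X ^ (1 / 100 : ℝ) := by
        rw [← Real.rpow_add hX0]
        norm_num
      rw [e]
      push_cast
      have hg' := hg
      push_cast at hg'
      exact mul_le_mul (hg'.trans hX4) hqd (by positivity) (by positivity)
    have hKpos : 1 ≤ c0 * l * q ^ d := by
      have h1 : 0 < c0 := hc0
      have h2 : 0 < l := hl
      have h3 : 0 < q := Nat.pos_of_ne_zero hq0
      exact Nat.succ_le_of_lt (by positivity)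
    have hgpos : 1 ≤ c0 * l := Nat.succ_le_of_lt (Nat.mul_pos hc0 hl)
    refine (hcl (c0 * l * q ^ d) (c0 * l) s hKpos hK hgpos hg ?_).trans ?_
    · intro p hp hpK hps
      rcases (Nat.Prime.dvd_mul hp).1 hpK with h | h
      · exact h
      · exfalso
        have hpq := hp.dvd_of_dvd_pow h
        have := Nat.dvd_gcd hps hpq
        rw [hs] at this
        exact hp.one_lt.ne' (Nat.dvd_one.1 this)
    · apply div_le_div_of_nonneg_right _ (by positivity)
      apply div_le_div_of_nonneg_left hX0.le (by positivity)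
      push_cast
      have : (1 : ℝ) ≤ c0 * l := by nlinarith
      exact le_mul_of_one_le_left (by positivity) this
  · set Y : ℕ := ⌊X ^ (1 / (100 * d : ℝ))⌋₊ with hY
    have hd0 : (0 : ℝ) < d := by
      have : 0 < d := by omega
      exact_mod_cast this
    have hYr : 1 ≤ X ^ (1 / (100 * d : ℝ)) := Real.one_le_rpow hX5 (by positivity)
    have hY1 : 1 ≤ Y := by
      rw [hY, Nat.one_le_floor_iff]
      exact hYr
    have hYX : (Y : ℝ) ≤ X := by
      refine (Nat.floor_le (by positivity)).trans ?_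
      have h100 : (1 : ℝ) / (100 * d) ≤ 1 := by
        rw [div_le_one (by positivity)]
        have : (1 : ℝ) ≤ d := by
          have : 1 ≤ d := by omega
          exact_mod_cast this
        linarith
      calc X ^ (1 / (100 * d : ℝ)) ≤ X ^ (1 : ℝ) := Real.rpow_le_rpow_of_exponent_le hX5 h100
        _ = X := Real.rpow_one X
    have hsplit : ∀ q ∈ (Icc 1 Y).filter Squarefree,
        (b : ℝ) ^ q.primeFactors.card * ((q : ℝ) ^ (d - 1) *
          (E q + X / (q : ℝ) ^ d / L ^ (A + b + 2))) =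
        (b : ℝ) ^ q.primeFactors.card * ((q : ℝ) ^ (d - 1) * E q) +
          X / L ^ (A + b + 2) * ((b : ℝ) ^ q.primeFactors.card / q) := by
      intro q hq
      have hq1 := (Finset.mem_Icc.1 (Finset.mem_filter.1 hq).1).1
      have hq0 : (q : ℝ) ≠ 0 := by
        have : q ≠ 0 := by omega
        exact_mod_cast this
      have e : (q : ℝ) ^ d = (q : ℝ) ^ (d - 1) * q := by
        rw [← pow_succ]
        congr 1
        omega
      rw [e]
      field_simp
    rw [Finset.sum_congr rfl hsplit, Finset.sum_add_distrib, ← Finset.mul_sum]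
    have hom : ∑ q ∈ (Icc 1 Y).filter Squarefree, (b : ℝ) ^ q.primeFactors.card / q ≤
        2 ^ b * L ^ b := by
      refine (sum_omega_le b Y hY1).trans ?_
      rw [← mul_pow]
      apply pow_le_pow_left₀
      · have : 0 ≤ Real.log Y := Real.log_nonneg (by exact_mod_cast hY1)
        linarith
      · have : Real.log Y ≤ L := Real.log_le_log (by exact_mod_cast hY1) hYX
        linarith
    have h1 : X / L ^ (A + b + 2) * ∑ q ∈ (Icc 1 Y).filter Squarefree,
        (b : ℝ) ^ q.primeFactors.card / q ≤ X / L ^ (A + 1) := by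
      calc X / L ^ (A + b + 2) * ∑ q ∈ (Icc 1 Y).filter Squarefree,
            (b : ℝ) ^ q.primeFactors.card / q
          ≤ X / L ^ (A + b + 2) * (2 ^ b * L ^ b) := mul_le_mul_of_nonneg_left hom (by positivity)
        _ ≤ X / L ^ (A + b + 2) * (L * L ^ b) := by
            apply mul_le_mul_of_nonneg_left _ (by positivity)
            exact mul_le_mul_of_nonneg_right hLb (by positivity)
        _ = X / L ^ (A + 1) := by
            have e : L ^ (A + b + 2) = L ^ (A + 1) * (L * L ^ b) := by ring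
            rw [e]
            field_simp
    calc _ ≤ X / L ^ (A + 1) + X / L ^ (A + 1) := add_le_add hE2 h1
      _ = (X / L ^ A) * (2 / L) := by
          rw [pow_succ]
          field_simp
          ring
      _ ≤ (X / L ^ A) * 1 := by
          apply mul_le_mul_of_nonneg_left _ (by positivity)
          rw [div_le_one hL0]
          exact hL2
      _ = _ := mul_one _

end Pool.Agent.NC.G
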