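import Pool.Agent.Lib.MP_0da313_nt.NC.G
import Pool.Agent.Lib.MP_8a4e59_co.B.Ppar

set_option autoImplicit false

/-!
Project NC, section G, piece spl: the split into major and minor arcs.
-/

namespace Pool.Agent.NC.G

open Finset Filter
open Pool.Agent.SP80 (ex)

private theorem ng_spl_ex (x : ℝ) : ex x = Pool.Agent.APP.ee x := rfl

/-- Parseval for sums over natural numbers. -/
private theorem ng_spl_par (L : ℕ) (hL : 1 ≤ L) (Sk : Finset ℕ) (F : ℕ → ℝ)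
    (hS : ∀ k ∈ Sk, k < L) :
    ∑ t ∈ range L, ‖∑ k ∈ Sk, (F k : ℂ) * ex ((t : ℝ) / L * k)‖ ^ 2 = L * ∑ k ∈ Sk, F k ^ 2 := by
  classical
  have hinj : Set.InjOn (fun k : ℕ => (k : ℤ)) (Sk : Set ℕ) := by
    intro a _ b _ h
    have h' : (a : ℤ) = b := h
    exact_mod_cast h'
  have h := APP.B.p_par L (Sk.image (fun k : ℕ => (k : ℤ))) (fun z => (F z.toNat : ℂ)) hL (by
    intro x hx y hy hd
    obtain ⟨i, hi, rfl⟩ := mem_image.1 hx
    obtain ⟨j, hj, rfl⟩ := mem_image.1 hy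
    have h1 := hS i hi
    have h2 := hS j hj
    have h3 : (i : ℤ) - j = 0 := by
      apply Int.eq_zero_of_abs_lt_dvd hd
      rw [abs_lt]
      constructor <;> omega
    omega)
  rw [sum_image hinj] at h
  have e1 : ∑ k ∈ Sk, ‖((F ((k : ℤ)).toNat : ℝ) : ℂ)‖ ^ 2 = ∑ k ∈ Sk, F k ^ 2 := by
    refine sum_congr rfl fun k _ => ?_
    rw [Int.toNat_natCast, Complex.norm_real, Real.norm_eq_abs, sq_abs]
  rw [e1] at h
  rw [← h]
  refine sum_congr rfl fun t _ => ?_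
  congr 2
  rw [sum_image hinj]
  refine sum_congr rfl fun k _ => ?_
  rw [Int.toNat_natCast, ng_spl_ex]
  congr 2
  push_cast
  ring

theorem p_spl : S_spl := by
  classical
  intro hgrd harc a g Sk Sx Sn F h q r T Q ρ ε G0 M ha hq hρ hε hG0 hM hQ hSk hG hcase hmaj
  -- the modulus
  set P : ℕ := ∏ l ∈ Icc 1 T, Q l with hP
  have hP1 : 1 ≤ P := Nat.one_le_iff_ne_zero.2 (prod_ne_zero_iff.2 fun l hl => by
    have := (hQ l hl).1
    omega)
  set B1 : ℕ := ∑ k ∈ Sk, ∑ x ∈ Sx, ∑ n ∈ Sn, ((k : ℤ) - (a * n + g x)).natAbs with hB1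
  set B2 : ℕ := ∑ n ∈ Sn, ∑ n' ∈ Sn, (a * ((n : ℤ) - n')).natAbs with hB2
  set B3 : ℕ := ∑ k ∈ Sk, k with hB3
  set B4 : ℕ := ⌈1 / ρ⌉₊ with hB4
  set L : ℕ := P * (B1 + B2 + B3 + B4 + 1) with hL
  have hLge : B1 + B2 + B3 + B4 + 1 ≤ L := Nat.le_mul_of_pos_left _ (by omega)
  have hL1 : 1 ≤ L := by omega
  have hL0 : (0 : ℝ) < L := by exact_mod_cast hL1
  have hb1 : ∀ k ∈ Sk, ∀ x ∈ Sx, ∀ n ∈ Sn, |(k : ℤ) - (a * n + g x)| < L := by
    intro k hk x hx n hn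
    have h1 : ((k : ℤ) - (a * n + g x)).natAbs ≤ B1 := by
      calc ((k : ℤ) - (a * n + g x)).natAbs ≤ ∑ n ∈ Sn, ((k : ℤ) - (a * n + g x)).natAbs :=
            single_le_sum (f := fun n : ℕ => ((k : ℤ) - (a * n + g x)).natAbs)
              (fun _ _ => Nat.zero_le _) hn
        _ ≤ ∑ x ∈ Sx, ∑ n ∈ Sn, ((k : ℤ) - (a * n + g x)).natAbs :=
            single_le_sum (f := fun x : ℕ => ∑ n ∈ Sn, ((k : ℤ) - (a * n + g x)).natAbs)
              (fun _ _ => Nat.zero_le _) hx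
        _ ≤ B1 := single_le_sum
              (f := fun k : ℕ => ∑ x ∈ Sx, ∑ n ∈ Sn, ((k : ℤ) - (a * n + g x)).natAbs)
              (fun _ _ => Nat.zero_le _) hk
    rw [Int.abs_eq_natAbs]
    exact_mod_cast (by omega : ((k : ℤ) - (a * n + g x)).natAbs < L)
  have hb2 : ∀ n ∈ Sn, ∀ n' ∈ Sn, |a * ((n : ℤ) - n')| < L := by
    intro n hn n' hn'
    have h1 : (a * ((n : ℤ) - n')).natAbs ≤ B2 := by
      calc (a * ((n : ℤ) - n')).natAbs ≤ ∑ n' ∈ Sn, (a * ((n : ℤ) - n')).natAbs :=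
            single_le_sum (f := fun n' : ℕ => (a * ((n : ℤ) - n')).natAbs)
              (fun _ _ => Nat.zero_le _) hn'
        _ ≤ B2 := single_le_sum (f := fun n : ℕ => ∑ n' ∈ Sn, (a * ((n : ℤ) - n')).natAbs)
              (fun _ _ => Nat.zero_le _) hn
    rw [Int.abs_eq_natAbs]
    exact_mod_cast (by omega : (a * ((n : ℤ) - n')).natAbs < L)
  have hb3 : ∀ k ∈ Sk, k < L := by
    intro k hk
    have h1 : k ≤ B3 := single_le_sum (f := fun k : ℕ => k) (fun _ _ => Nat.zero_le _) hk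
    omega
  have hb4 : 1 / (L : ℝ) ≤ ρ := by
    rw [div_le_iff₀ hL0]
    have h1 : 1 / ρ ≤ (B4 : ℝ) := Nat.le_ceil _
    have h2 : (B4 : ℝ) ≤ L := by exact_mod_cast (by omega : B4 ≤ L)
    have h3 : 1 / ρ ≤ (L : ℝ) := h1.trans h2
    rw [div_le_iff₀ hρ] at h3
    linarith
  -- notation
  set s1 : ℕ → ℝ := fun t => ‖∑ k ∈ Sk, (F k : ℂ) * ex ((t : ℝ) / L * k)‖ ^ 2 with hs1
  set s2 : ℕ → ℝ := fun t => ‖∑ x ∈ Sx, (h x : ℂ) * ex (-((t : ℝ) / L) * (g x : ℝ))‖ ^ 2 with hs2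
  have hs1n : ∀ t, 0 ≤ s1 t := fun t => by positivity
  have hgr : ∑ n ∈ Sn, Rn a g Sk Sx F h n ^ 2 ≤ 1 / (L : ℝ) * ∑ t ∈ range L, s1 t * s2 t :=
    hgrd a g Sk Sx Sn F h L ha hL1 hb1 hb2
  set Tl : ℕ → Finset ℕ := fun l =>
    (range L).filter (fun t => ∃ b : ℤ, |(t : ℝ) / L - b / Q l| ≤ ρ) with hTl
  have hpt : ∀ t ∈ range L, s1 t * s2 t ≤ ε ^ 2 * s1 t +
      ∑ l ∈ Icc 1 T, if t ∈ Tl l then G0 ^ 2 * s1 t else 0 := by
    intro t ht
    have hsum : 0 ≤ ∑ l ∈ Icc 1 T, if t ∈ Tl l then G0 ^ 2 * s1 t else 0 :=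
      sum_nonneg fun l _ => by
        split_ifs
        · exact mul_nonneg (by positivity) (hs1n t)
        · exact le_rfl
    rcases hcase ((t : ℝ) / L) with hc | ⟨l, hl, b, hb⟩
    · have h1 : s2 t ≤ ε ^ 2 := pow_le_pow_left₀ (norm_nonneg _) hc 2
      have h2 := mul_le_mul_of_nonneg_left h1 (hs1n t)
      linarith
    · have hmem : t ∈ Tl l := by
        simp only [hTl, mem_filter]
        exact ⟨ht, b, hb⟩
      have h1 : s2 t ≤ G0 ^ 2 := pow_le_pow_left₀ (norm_nonneg _) (hG _) 2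
      have h2 := mul_le_mul_of_nonneg_left h1 (hs1n t)
      have h3 : (if t ∈ Tl l then G0 ^ 2 * s1 t else 0) ≤
          ∑ l ∈ Icc 1 T, if t ∈ Tl l then G0 ^ 2 * s1 t else 0 :=
        single_le_sum (f := fun l => if t ∈ Tl l then G0 ^ 2 * s1 t else 0) (fun l _ => by
          split_ifs
          · exact mul_nonneg (by positivity) (hs1n t)
          · exact le_rfl) hl
      rw [if_pos hmem] at h3
      have h4 : 0 ≤ ε ^ 2 * s1 t := mul_nonneg (by positivity) (hs1n t)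
      linarith
  have hpar : 1 / (L : ℝ) * ∑ t ∈ range L, s1 t = ∑ k ∈ Sk, F k ^ 2 := by
    have := ng_spl_par L hL1 Sk F hb3
    rw [this]
    field_simp
  have harcl : ∀ l ∈ Icc 1 T, 1 / (L : ℝ) * ∑ t ∈ Tl l, s1 t ≤
      3 * ρ * ((Q l : ℝ) * (Q l / q) * M ^ 2) := by
    intro l hl
    obtain ⟨h1, h2⟩ := hQ l hl
    have h3 : Q l ∣ L := (dvd_prod_of_mem Q hl).trans (Dvd.intro _ rfl)
    have h4 := harc Sk F L (Q l) q r ρ M (Tl l) hL1 h1 h3 h2 hρ.le hM hSk (hmaj l hl) (by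
      intro t ht
      simp only [hTl, mem_filter, mem_range] at ht
      exact ht)
    refine h4.trans (mul_le_mul_of_nonneg_right (by linarith) (by positivity))
  have hswap : ∑ t ∈ range L, ∑ l ∈ Icc 1 T, (if t ∈ Tl l then G0 ^ 2 * s1 t else 0) =
      G0 ^ 2 * ∑ l ∈ Icc 1 T, ∑ t ∈ Tl l, s1 t := by
    rw [sum_comm, mul_sum]
    refine sum_congr rfl fun l _ => ?_
    rw [mul_sum, ← sum_filter]
    refine sum_congr ?_ fun _ _ => rfl
    ext t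
    simp only [hTl, mem_filter]
    tauto
  calc ∑ n ∈ Sn, Rn a g Sk Sx F h n ^ 2 ≤ 1 / (L : ℝ) * ∑ t ∈ range L, s1 t * s2 t := hgr
    _ ≤ 1 / (L : ℝ) * ∑ t ∈ range L, (ε ^ 2 * s1 t +
          ∑ l ∈ Icc 1 T, if t ∈ Tl l then G0 ^ 2 * s1 t else 0) :=
        mul_le_mul_of_nonneg_left (sum_le_sum hpt) (by positivity)
    _ = ε ^ 2 * (1 / (L : ℝ) * ∑ t ∈ range L, s1 t) +
          G0 ^ 2 * ∑ l ∈ Icc 1 T, (1 / (L : ℝ) * ∑ t ∈ Tl l, s1 t) := by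
        rw [sum_add_distrib, hswap, ← mul_sum, ← mul_sum]
        ring
    _ ≤ ε ^ 2 * ∑ k ∈ Sk, F k ^ 2 +
          G0 ^ 2 * ∑ l ∈ Icc 1 T, (3 * ρ * ((Q l : ℝ) * (Q l / q) * M ^ 2)) := by
        rw [hpar]
        have := mul_le_mul_of_nonneg_left (sum_le_sum harcl) (by positivity : 0 ≤ G0 ^ 2)
        linarith
    _ = _ := by
        rw [← mul_sum]
        ring

end Pool.Agent.NC.G
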