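import Pool.Agent.Lib.MP_0da313_nt.NC.J

set_option autoImplicit false

/-! Piece hK of the project NC. -/

namespace Pool.Agent.NC.J

open Finset Filter
open Pool.Agent.MP89da58 (tri primChars kapD)
open Pool.Agent.Lib.MP_0da313_nt (W U E U_insert U_zero)
open Pool.Agent.CM (wd mu)
open Pool.Agent.GC (HH Pm prs dv)
open Pool.Agent.GC.M (R_cl R_tl R_tt)

private lemma nc_hK_mu {lam : ℝ} (h : 1 ≤ lam) : 0 ≤ mu lam ∧ mu lam ≤ 2 := by
  have h0 : 0 < lam := by linarith
  have hx0 : 0 < 1 / lam := by positivity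
  have hx1 : 1 / lam ≤ 1 := by rw [div_le_one h0]; exact h
  unfold mu
  have h1 : 1 ≤ Real.cosh (1 / lam) := Real.one_le_cosh _
  constructor
  · have : 0 ≤ Real.cosh (1 / lam) - 1 := by linarith
    positivity
  · have h2 : Real.cosh (1 / lam) ≤ Real.exp ((1 / lam) ^ 2 / 2) := Real.cosh_le_exp_half_sq _
    have h3 : (1 / lam) ^ 2 ≤ 1 := by nlinarith
    have h4 : Real.exp ((1 / lam) ^ 2 / 2) ≤ 1 / (1 - (1 / lam) ^ 2 / 2) :=
      Real.exp_bound_div_one_sub_of_interval (by positivity) (by linarith)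
    have h5 : 1 / (1 - (1 / lam) ^ 2 / 2) ≤ 1 + (1 / lam) ^ 2 := by
      rw [div_le_iff₀ (by linarith)]
      nlinarith [sq_nonneg (1 / lam)]
    have h6 : Real.cosh (1 / lam) - 1 ≤ (1 / lam) ^ 2 := by linarith
    calc 2 * lam * (Real.cosh (1 / lam) - 1) ≤ 2 * lam * (1 / lam) ^ 2 :=
          mul_le_mul_of_nonneg_left h6 (by positivity)
      _ = 2 * (1 / lam) := by field_simp
      _ ≤ 2 := by linarith

/-- zero densities do not matter -/
private lemma nc_hK_U0 (ρ : ℕ → ℝ) (B Z : Finset ℕ) (hd : Disjoint B Z)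
    (hZ : ∀ p ∈ Z, ρ p = 0) : (∀ j, U ρ (B ∪ Z) j = U ρ B j) ∧ W ρ (B ∪ Z) = W ρ B := by
  classical
  induction Z using Finset.induction_on with
  | empty => simp
  | insert p Z hp ih =>
    rw [Finset.disjoint_insert_right] at hd
    obtain ⟨ih1, ih2⟩ := ih hd.2 (fun x hx => hZ x (Finset.mem_insert_of_mem hx))
    have hp' : p ∉ B ∪ Z := by
      rw [Finset.mem_union]
      exact fun h => h.elim hd.1 hp
    have h0 := hZ p (Finset.mem_insert_self _ _)
    rw [Finset.union_insert]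
    constructor
    · intro j
      cases j with
      | zero => rw [U_zero, U_zero]
      | succ j => rw [U_insert ρ hp', h0, zero_mul, sub_zero, ih1]
    · unfold W at ih2 ⊢
      rw [Finset.prod_insert hp', h0, sub_zero, one_mul, ih2]

/-- a few densities equal to one -/
private lemma nc_hK_U1 (ρ : ℕ → ℝ) (B Z : Finset ℕ) (hd : Disjoint B Z)
    (hZ : ∀ p ∈ Z, ρ p = 1) (j0 : ℕ) (ε : ℝ) (h : ∀ j, j0 ≤ j → |U ρ B j - W ρ B| ≤ ε) :
    ∀ j, j0 + Z.card ≤ j → |U ρ (B ∪ Z) j - W ρ (B ∪ Z)| ≤ 2 ^ Z.card * ε := by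
  classical
  have hε : 0 ≤ ε := (abs_nonneg _).trans (h j0 le_rfl)
  induction Z using Finset.induction_on with
  | empty =>
    intro j hj
    simpa using h j (by simpa using hj)
  | insert p Z hp ih =>
    rw [Finset.disjoint_insert_right] at hd
    have ih1 := ih hd.2 (fun x hx => hZ x (Finset.mem_insert_of_mem hx))
    have hp' : p ∉ B ∪ Z := by
      rw [Finset.mem_union]
      exact fun h => h.elim hd.1 hp
    have h0 := hZ p (Finset.mem_insert_self _ _)
    intro j hj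
    rw [Finset.card_insert_of_notMem hp] at hj ⊢
    rw [Finset.union_insert]
    obtain ⟨i, rfl⟩ : ∃ i, j = i + 1 := ⟨j - 1, by omega⟩
    have hW : W ρ (insert p (B ∪ Z)) = 0 := by
      unfold W
      rw [Finset.prod_insert hp', h0, sub_self, zero_mul]
    rw [U_insert ρ hp', h0, one_mul, hW, sub_zero]
    have a1 := ih1 (i + 1) (by omega)
    have a2 := ih1 i (by omega)
    have h5 : U ρ (B ∪ Z) (i + 1) - U ρ (B ∪ Z) i =
        (U ρ (B ∪ Z) (i + 1) - W ρ (B ∪ Z)) - (U ρ (B ∪ Z) i - W ρ (B ∪ Z)) := by ring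
    rw [h5]
    refine (abs_sub _ _).trans ?_
    calc _ ≤ 2 ^ Z.card * ε + 2 ^ Z.card * ε := add_le_add a1 a2
      _ = 2 ^ (Z.card + 1) * ε := by ring

/-- the model density -/
private noncomputable def nc_hK_rho (K r p : ℕ) : ℝ :=
  if p ∣ K then (if p ∣ r then 1 else 0) else 1 / (p : ℝ)

/-- one term -/
private lemma nc_hK_term (hcl : R_cl) {lam X : ℝ} (hlam : 1 ≤ lam) (hX : 0 < X) {K r : ℕ}
    (hK : 1 ≤ K) (T : Finset ℕ) (hT : ∀ p ∈ T, p.Prime) :
    |∑ t ∈ (Icc 1 ⌊3 * X⌋₊).filter (fun t => t ≡ r [MOD K]), (∏ p ∈ T, dv t p) * wd lam X t -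
      mu lam * X / K * ∏ p ∈ T, nc_hK_rho K r p| ≤ 4 := by
  classical
  by_cases hb : ∃ p ∈ T, p ∣ K ∧ ¬ p ∣ r
  · obtain ⟨p, hpT, hpK, hpr⟩ := hb
    have h1 : ∏ p ∈ T, nc_hK_rho K r p = 0 := by
      refine Finset.prod_eq_zero hpT ?_
      unfold nc_hK_rho
      rw [if_pos hpK, if_neg hpr]
    have h2 : ∑ t ∈ (Icc 1 ⌊3 * X⌋₊).filter (fun t => t ≡ r [MOD K]),
        (∏ p ∈ T, dv t p) * wd lam X t = 0 := by
      refine Finset.sum_eq_zero fun t ht => ?_
      rw [Finset.mem_filter] at ht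
      have h3 : ∏ p ∈ T, dv t p = 0 := by
        refine Finset.prod_eq_zero hpT ?_
        unfold dv
        rw [if_neg]
        intro h4
        exact hpr ((Nat.ModEq.dvd_iff (ht.2.of_dvd hpK) dvd_rfl).1 h4)
      rw [h3, zero_mul]
    rw [h1, h2, mul_zero, sub_zero, abs_zero]
    norm_num
  · push Not at hb
    set T2 := T.filter (fun p => ¬ p ∣ K) with hT2
    set m : ℕ := ∏ p ∈ T2, p with hm
    have hT2p : ∀ p ∈ T2, p.Prime := fun p hp => hT p (Finset.mem_filter.1 hp).1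
    have hm1 : 1 ≤ m := Nat.one_le_iff_ne_zero.2
      (Finset.prod_ne_zero_iff.2 fun p hp => (hT2p p hp).ne_zero)
    have hcop : K.Coprime m := by
      rw [hm]
      refine Nat.Coprime.prod_right fun p hp => ?_
      rw [Nat.coprime_comm, (hT2p p hp).coprime_iff_not_dvd]
      exact (Finset.mem_filter.1 hp).2
    have hprod : ∏ p ∈ T, nc_hK_rho K r p = 1 / (m : ℝ) := by
      rw [← Finset.prod_filter_mul_prod_filter_not T (fun p => ¬ p ∣ K)]
      have h1 : ∏ p ∈ T.filter (fun p => ¬ ¬ p ∣ K), nc_hK_rho K r p = 1 := by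
        refine Finset.prod_eq_one fun p hp => ?_
        rw [Finset.mem_filter, not_not] at hp
        unfold nc_hK_rho
        rw [if_pos hp.2, if_pos (hb p hp.1 hp.2)]
      rw [h1, mul_one, hm, Nat.cast_prod, one_div, ← Finset.prod_inv_distrib]
      refine Finset.prod_congr rfl fun p hp => ?_
      unfold nc_hK_rho
      rw [if_neg (Finset.mem_filter.1 hp).2, one_div]
    obtain ⟨z, hz1, hz2⟩ := Nat.chineseRemainder hcop r 0
    have hset : ∑ t ∈ (Icc 1 ⌊3 * X⌋₊).filter (fun t => t ≡ r [MOD K]),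
        (∏ p ∈ T, dv t p) * wd lam X t =
        ∑ t ∈ (Icc 1 ⌊3 * X⌋₊).filter (fun t => t ≡ z [MOD K * m]), wd lam X t := by
      rw [Finset.sum_filter, Finset.sum_filter]
      refine Finset.sum_congr rfl fun t _ => ?_
      have hdv : ∏ p ∈ T, dv t p = if ∀ p ∈ T, p ∣ t then 1 else 0 := by
        unfold dv
        rw [Finset.prod_ite_zero, Finset.prod_const_one]
      by_cases h1 : t ≡ r [MOD K]
      · rw [if_pos h1, hdv]
        by_cases h2 : ∀ p ∈ T, p ∣ t
        · rw [if_pos h2, one_mul, if_pos]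
          refine (Nat.modEq_and_modEq_iff_modEq_mul hcop).1 ⟨h1.trans hz1.symm, ?_⟩
          refine Nat.ModEq.trans ?_ hz2.symm
          rw [Nat.modEq_zero_iff_dvd, hm]
          refine Finset.prod_primes_dvd t (fun p hp => (hT2p p hp).prime) fun p hp => ?_
          exact h2 p (Finset.mem_filter.1 hp).1
        · rw [if_neg h2, zero_mul, if_neg]
          intro h3
          apply h2
          intro p hp
          by_cases h4 : p ∣ K
          · exact (Nat.ModEq.dvd_iff (h1.of_dvd h4) dvd_rfl).2 (hb p hp h4)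
          · have h5 := ((Nat.modEq_and_modEq_iff_modEq_mul hcop).2 h3).2
            have h6 : m ∣ t := (Nat.modEq_zero_iff_dvd).1 (h5.trans hz2)
            refine dvd_trans ?_ h6
            rw [hm]
            exact Finset.dvd_prod_of_mem (fun p => p) (Finset.mem_filter.2 ⟨hp, h4⟩)
      · rw [if_neg h1, if_neg]
        intro h3
        exact h1 (((Nat.modEq_and_modEq_iff_modEq_mul hcop).2 h3).1.trans hz1)
    rw [hset, hprod]
    have h1 := hcl lam X (K * m) z hlam hX (Nat.mul_pos hK hm1)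
    have h2 : mu lam * X / K * (1 / (m : ℝ)) = mu lam * X / ((K * m : ℕ) : ℝ) := by
      rw [Nat.cast_mul]
      field_simp
    rw [h2]
    exact h1

/-- the number of small sets -/
private lemma nc_hK_card (B : Finset ℕ) (k : ℕ) :
    ∑ i ∈ range (k + 1), (B.powersetCard i).card =
      (B.powerset.filter (fun S => S.card ≤ k)).card := by
  classical
  rw [Finset.card_eq_sum_card_fiberwise (f := Finset.card) (t := range (k + 1))]
  · refine Finset.sum_congr rfl fun i hi => ?_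
    congr 1
    ext S
    simp only [Finset.mem_powersetCard, Finset.mem_filter, Finset.mem_powerset]
    rw [Finset.mem_range] at hi
    constructor
    · rintro ⟨h1, h2⟩
      exact ⟨⟨h1, by omega⟩, h2⟩
    · rintro ⟨⟨h1, _⟩, h2⟩
      exact ⟨h1, h2⟩
  · intro S hS
    rw [Finset.mem_coe, Finset.mem_filter] at hS
    rw [Finset.mem_coe, Finset.mem_range]
    omega

/-- the sum of the truncated sieve -/
private lemma nc_hK_sum (hcl : R_cl) {lam X : ℝ} (hlam : 1 ≤ lam) (hX : 0 < X) {K r w k : ℕ}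
    (hK : 1 ≤ K) :
    |∑ t ∈ (Icc 1 ⌊3 * X⌋₊).filter (fun t => t ≡ r [MOD K]), U (dv t) (prs w) k * wd lam X t -
      mu lam * X / K * U (nc_hK_rho K r) (prs w) k| ≤
      4 * (((prs w).powerset.filter (fun S => S.card ≤ k)).card : ℝ) := by
  classical
  have h1 : ∑ t ∈ (Icc 1 ⌊3 * X⌋₊).filter (fun t => t ≡ r [MOD K]),
      U (dv t) (prs w) k * wd lam X t =
      ∑ i ∈ range (k + 1), (-1 : ℝ) ^ i * ∑ T ∈ (prs w).powersetCard i,
        ∑ t ∈ (Icc 1 ⌊3 * X⌋₊).filter (fun t => t ≡ r [MOD K]),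
          (∏ p ∈ T, dv t p) * wd lam X t := by
    unfold U E
    simp only [Finset.sum_mul, Finset.mul_sum]
    rw [Finset.sum_comm]
    refine Finset.sum_congr rfl fun i _ => ?_
    rw [Finset.sum_comm]
    refine Finset.sum_congr rfl fun T _ => Finset.sum_congr rfl fun t _ => ?_
    ring
  have h2 : mu lam * X / K * U (nc_hK_rho K r) (prs w) k =
      ∑ i ∈ range (k + 1), (-1 : ℝ) ^ i * ∑ T ∈ (prs w).powersetCard i,
        mu lam * X / K * ∏ p ∈ T, nc_hK_rho K r p := by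
    unfold U E
    rw [Finset.mul_sum]
    refine Finset.sum_congr rfl fun i _ => ?_
    rw [← Finset.mul_sum]
    ring
  rw [h1, h2, ← Finset.sum_sub_distrib]
  refine (Finset.abs_sum_le_sum_abs _ _).trans ?_
  have h3 : ∀ i ∈ range (k + 1), |(-1 : ℝ) ^ i * ∑ T ∈ (prs w).powersetCard i,
        ∑ t ∈ (Icc 1 ⌊3 * X⌋₊).filter (fun t => t ≡ r [MOD K]),
          (∏ p ∈ T, dv t p) * wd lam X t -
      (-1 : ℝ) ^ i * ∑ T ∈ (prs w).powersetCard i,
        mu lam * X / K * ∏ p ∈ T, nc_hK_rho K r p| ≤ 4 * (((prs w).powersetCard i).card : ℝ) := by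
    intro i _
    rw [← mul_sub, abs_mul, abs_pow, abs_neg, abs_one, one_pow, one_mul, ← Finset.sum_sub_distrib]
    refine (Finset.abs_sum_le_sum_abs _ _).trans ?_
    refine (Finset.sum_le_card_nsmul _ _ 4 fun T hT => ?_).trans
      (le_of_eq (by rw [nsmul_eq_mul]; ring))
    refine nc_hK_term hcl hlam hX hK T fun p hp => ?_
    rw [Finset.mem_powersetCard] at hT
    have := hT.1 hp
    unfold prs at this
    exact (Finset.mem_filter.1 this).2
  refine (Finset.sum_le_sum h3).trans ?_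
  rw [← Finset.mul_sum, ← nc_hK_card]
  push_cast
  exact le_rfl

/-- powers of the logarithm are small -/
private lemma nc_hK_logpow (n : ℕ) (c : ℝ) (hc : 0 < c) (C : ℝ) :
    ∀ᶠ X : ℝ in atTop, C * (Real.log X) ^ n ≤ X ^ c := by
  have h1 : (fun X : ℝ => Real.log X ^ (n : ℝ)) =o[atTop] fun X => X ^ c :=
    isLittleO_log_rpow_rpow_atTop _ hc
  have h2 := h1.def (show (0 : ℝ) < 1 / (|C| + 1) by positivity)
  filter_upwards [h2, eventually_ge_atTop (1 : ℝ)] with X h3 h4
  have hL : 0 ≤ Real.log X := Real.log_nonneg h4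
  rw [Real.rpow_natCast, Real.norm_of_nonneg (pow_nonneg hL _),
    Real.norm_of_nonneg (Real.rpow_nonneg (by linarith) _)] at h3
  have h5 : (|C| + 1) * (Real.log X) ^ n ≤ X ^ c := by
    have h6 : 0 < |C| + 1 := by positivity
    rw [div_mul_eq_mul_div, one_mul, le_div_iff₀ h6] at h3
    linarith
  have h6 : C * (Real.log X) ^ n ≤ (|C| + 1) * (Real.log X) ^ n :=
    mul_le_mul_of_nonneg_right (by linarith [le_abs_self C]) (pow_nonneg hL _)
  exact h6.trans h5

/-- the density sum against the product -/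
private lemma nc_hK_UW {K q r w k m : ℕ} (hq : 1 ≤ q)
    (hg : ∀ p : ℕ, p.Prime → p ∣ K → p ∣ r → p ∣ q) (hk : k = m + m)
    (h1 : ∀ j : ℕ, m ≤ j → |U (fun p => 1 / (p : ℝ)) ((prs w).filter (fun p => ¬ p ∣ K)) j -
      W (fun p => 1 / (p : ℝ)) ((prs w).filter (fun p => ¬ p ∣ K))| ≤ Real.exp (-(k : ℝ) / 2))
    (hm : ∀ c : ℕ, 2 ^ c ≤ q → c ≤ m) :
    |U (nc_hK_rho K r) (prs w) k - W (nc_hK_rho K r) (prs w)| ≤
      q * Real.exp (-(k : ℝ) / 2) := by
  classical
  set P2 := (prs w).filter (fun p => ¬ p ∣ K) with hP2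
  set P1 := (prs w).filter (fun p => p ∣ K ∧ p ∣ r) with hP1
  set P3 := (prs w).filter (fun p => p ∣ K ∧ ¬ p ∣ r) with hP3
  have hU : prs w = (P2 ∪ P1) ∪ P3 := by
    ext p
    simp only [hP1, hP2, hP3, Finset.mem_union, Finset.mem_filter]
    tauto
  have hd12 : Disjoint P2 P1 := by
    rw [Finset.disjoint_left]
    intro p hp hp'
    exact (Finset.mem_filter.1 hp).2 (Finset.mem_filter.1 hp').2.1
  have hd3 : Disjoint (P2 ∪ P1) P3 := by
    rw [Finset.disjoint_left]
    intro p hp hp'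
    have h3 := (Finset.mem_filter.1 hp').2
    rcases Finset.mem_union.1 hp with h | h
    · exact (Finset.mem_filter.1 h).2 h3.1
    · exact h3.2 (Finset.mem_filter.1 h).2.2
  have h0 := nc_hK_U0 (nc_hK_rho K r) (P2 ∪ P1) P3 hd3 (fun p hp => by
    have h3 := (Finset.mem_filter.1 hp).2
    unfold nc_hK_rho
    rw [if_pos h3.1, if_neg h3.2])
  have hcongrU : ∀ j, U (nc_hK_rho K r) P2 j = U (fun p => 1 / (p : ℝ)) P2 j := by
    intro j
    unfold U E
    refine Finset.sum_congr rfl fun i _ => ?_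
    congr 1
    refine Finset.sum_congr rfl fun T hT => Finset.prod_congr rfl fun p hp => ?_
    have h3 := (Finset.mem_filter.1 ((Finset.mem_powersetCard.1 hT).1 hp)).2
    unfold nc_hK_rho
    rw [if_neg h3]
  have hcongrW : W (nc_hK_rho K r) P2 = W (fun p => 1 / (p : ℝ)) P2 := by
    unfold W
    refine Finset.prod_congr rfl fun p hp => ?_
    have h3 := (Finset.mem_filter.1 hp).2
    unfold nc_hK_rho
    rw [if_neg h3]
  have hpr : ∀ p ∈ P1, p.Prime ∧ p ∣ q := by
    intro p hp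
    have h3 := Finset.mem_filter.1 hp
    have h4 : p.Prime := by
      have := h3.1
      unfold prs at this
      exact (Finset.mem_filter.1 this).2
    exact ⟨h4, hg p h4 h3.2.1 h3.2.2⟩
  have h2c : 2 ^ P1.card ≤ q := by
    have h3 : 2 ^ P1.card ≤ ∏ p ∈ P1, p := Finset.pow_card_le_prod _ _ _ fun p hp =>
      (hpr p hp).1.two_le
    have h4 : ∏ p ∈ P1, p ∣ q :=
      Finset.prod_primes_dvd q (fun p hp => (hpr p hp).1.prime) fun p hp => (hpr p hp).2
    exact h3.trans (Nat.le_of_dvd (by omega) h4)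
  have h5 := nc_hK_U1 (nc_hK_rho K r) P2 P1 hd12 (fun p hp => by
    have h3 := (Finset.mem_filter.1 hp).2
    unfold nc_hK_rho
    rw [if_pos h3.1, if_pos h3.2]) m (Real.exp (-(k : ℝ) / 2)) (fun j hj => by
      rw [hcongrU, hcongrW]
      exact h1 j hj) k (by have := hm _ h2c; omega)
  rw [hU, h0.1, h0.2]
  refine h5.trans ?_
  refine mul_le_mul_of_nonneg_right ?_ (Real.exp_pos _).le
  exact_mod_cast h2c

/-- the product -/
private lemma nc_hK_W {K q r w : ℕ} (hq : 1 ≤ q)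
    (hg : ∀ p : ℕ, p.Prime → p ∣ K → p ∣ r → p ∣ q) (hqw : q ≤ w) :
    W (nc_hK_rho K r) (prs w) = if r.Coprime K then
      W (fun p => 1 / (p : ℝ)) ((prs w).filter (fun p => ¬ p ∣ K)) else 0 := by
  classical
  by_cases h : r.Coprime K
  · rw [if_pos h]
    unfold W
    rw [Finset.prod_filter]
    refine Finset.prod_congr rfl fun p hp => ?_
    have h4 : p.Prime := by
      unfold prs at hp
      exact (Finset.mem_filter.1 hp).2
    unfold nc_hK_rho
    by_cases h5 : p ∣ K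
    · rw [if_pos h5, if_neg, if_neg (not_not.2 h5), sub_zero]
      intro h6
      have h7 := Nat.dvd_gcd h6 h5
      rw [Nat.Coprime] at h
      rw [h] at h7
      exact h4.one_lt.ne' (Nat.dvd_one.1 h7)
    · rw [if_neg h5, if_pos h5]
  · rw [if_neg h]
    obtain ⟨p, hp, hpr, hpK⟩ := Nat.Prime.not_coprime_iff_dvd.1 h
    have h6 : p ∣ q := hg p hp hpK hpr
    have h7 : p ∈ prs w := by
      unfold prs
      rw [Finset.mem_filter, Finset.mem_Icc]
      exact ⟨⟨hp.one_le, (Nat.le_of_dvd (by omega) h6).trans hqw⟩, hp⟩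
    unfold W
    refine Finset.prod_eq_zero h7 ?_
    unfold nc_hK_rho
    rw [if_pos hpK, if_pos hpr, sub_self]

theorem p_hK : S_hK := by
  intro hcl htl htt A B
  obtain ⟨K1, hK1⟩ := htl 1 le_rfl
  set N0 : ℕ := A + B + 4 with hN0
  refine ⟨K1 + 2 * N0 + (4 * B + 4), ?_⟩
  have e4 := nc_hK_logpow (A + 1) (9 / 10 - 1 / 25) (by norm_num) 12000
  have e5 : ∀ᶠ X : ℝ in atTop, 20 ≤ Real.log X := Real.tendsto_log_atTop.eventually_ge_atTop 20
  filter_upwards [hK1, e4, e5, eventually_ge_atTop (3 : ℝ)] with X h1 h4 h5 hX3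
  intro w k hP lam hlam K q r hKge hKX0 hq hqB hg
  have hX0 : (0 : ℝ) < X := by linarith
  have hX1 : (1 : ℝ) ≤ X := by linarith
  set L := Real.log X with hL
  have hL0 : 0 < L := by linarith
  have hL1 : 1 ≤ L := by linarith
  have hll : 0 ≤ Real.log L := Real.log_nonneg hL1
  have hwL : ∀ n : ℕ, n ≤ K1 + 2 * N0 + (4 * B + 4) → L ^ n ≤ w := fun n hn =>
    (pow_le_pow_right₀ hL1 hn).trans hP.w_ge
  have hkL : ∀ n : ℕ, n ≤ K1 + 2 * N0 + (4 * B + 4) → n * Real.log L ≤ k := fun n hn => by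
    refine le_trans ?_ hP.k_ge
    exact mul_le_mul_of_nonneg_right (by exact_mod_cast hn) hll
  have hP1 : Pm X (1 / 50) K1 w k := ⟨hwL K1 (by omega), hkL K1 (by omega), hP.even, hP.wk⟩
  obtain ⟨t1, _, t3, t4⟩ := h1 w k hP1
  obtain ⟨m, hkm⟩ := hP.even
  have hK0 : (0 : ℝ) < K := by exact_mod_cast hKge
  -- sizes
  have hKX : (K : ℝ) ≤ X ^ (1 / 10 : ℝ) :=
    hKX0.trans (Real.rpow_le_rpow_of_exponent_le hX1 (by norm_num))
  have hlogK : 1 + Real.log K ≤ L := by
    have h6 : Real.log K ≤ 1 / 10 * L := by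
      have := Real.log_le_log hK0 hKX
      rwa [Real.log_rpow hX0] at this
    linarith
  have hlogK0 : 0 ≤ Real.log K := Real.log_nonneg (by exact_mod_cast hKge)
  have hqw : q ≤ w := by
    have h6 : (q : ℝ) ≤ w := hqB.trans (hwL B (by omega))
    exact_mod_cast h6
  have hw2 : 2 ≤ w := by
    have h6 : L ^ 1 ≤ w := hwL 1 (by omega)
    have h7 : (2 : ℝ) ≤ w := by
      rw [pow_one] at h6
      linarith
    exact_mod_cast h7
  have hm : ∀ c : ℕ, 2 ^ c ≤ q → c ≤ m := by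
    intro c hc
    have h6 : (2 : ℝ) ^ c ≤ L ^ B := le_trans (by exact_mod_cast hc) hqB
    have h7 : (c : ℝ) * Real.log 2 ≤ B * Real.log L := by
      have := Real.log_le_log (by positivity) h6
      rwa [Real.log_pow, Real.log_pow] at this
    have h8 := hkL (4 * B + 4) (by omega)
    have h9 : (k : ℝ) = m + m := by rw [hkm]; push_cast; ring
    have h10 : (1 / 2 : ℝ) ≤ Real.log 2 := by
      have := Real.log_two_gt_d9
      linarith
    have h11 : (c : ℝ) * (1 / 2) ≤ c * Real.log 2 :=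
      mul_le_mul_of_nonneg_left h10 (Nat.cast_nonneg _)
    push_cast at h8
    have h12 : (c : ℝ) ≤ m := by nlinarith
    exact_mod_cast h12
  have hexp : Real.exp (-(k : ℝ) / 2) ≤ 1 / L ^ N0 := by
    have h6 := hkL (2 * N0) (by omega)
    push_cast at h6
    have h7 : L ^ N0 = Real.exp (N0 * Real.log L) := by
      rw [← Real.log_pow, Real.exp_log (by positivity)]
    rw [h7, one_div, ← Real.exp_neg]
    apply Real.exp_le_exp.2
    linarith
  -- the sum
  have hκ0 : 0 ≤ (kapD w)⁻¹ := by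
    rw [inv_nonneg]
    unfold kapD
    refine Finset.prod_nonneg fun p hp => ?_
    have hp' : p.Prime := (Finset.mem_filter.1 hp).2
    have : (1 : ℝ) ≤ p := by exact_mod_cast hp'.one_le
    have h6 : 1 / (p : ℝ) ≤ 1 := by
      rw [div_le_one (by linarith)]; exact this
    linarith
  obtain ⟨hmu0, hmu2⟩ := nc_hK_mu hlam
  have s1 := nc_hK_sum (w := w) (k := k) (r := r) hcl hlam hX0 hKge
  have s2 : |U (nc_hK_rho K r) (prs w) k - W (nc_hK_rho K r) (prs w)| ≤
      q * Real.exp (-(k : ℝ) / 2) := by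
    refine nc_hK_UW hq hg hkm (fun j hj => ?_) hm
    refine t1 (fun p => 1 / (p : ℝ)) _ j (Finset.filter_subset _ _) (fun p _ => ?_) ?_
    · refine ⟨by positivity, ?_⟩
      push_cast
      exact le_rfl
    · have h9 : (k : ℝ) = m + m := by rw [hkm]; push_cast; ring
      have h10 : (m : ℝ) ≤ j := by exact_mod_cast hj
      linarith
  have s3 := nc_hK_W (w := w) hq hg hqw
  have hHH : ∑ t ∈ (Icc 1 ⌊3 * X⌋₊).filter (fun t => t ≡ r [MOD K]), HH w k t * wd lam X t =
      (kapD w)⁻¹ * ∑ t ∈ (Icc 1 ⌊3 * X⌋₊).filter (fun t => t ≡ r [MOD K]),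
        U (dv t) (prs w) k * wd lam X t := by
    rw [Finset.mul_sum]
    refine Finset.sum_congr rfl fun t _ => ?_
    unfold HH
    ring
  set S1 := ∑ t ∈ (Icc 1 ⌊3 * X⌋₊).filter (fun t => t ≡ r [MOD K]),
        U (dv t) (prs w) k * wd lam X t with hS1
  set U1 := U (nc_hK_rho K r) (prs w) k with hU1
  set W1 := W (nc_hK_rho K r) (prs w) with hW1
  set M : ℝ := mu lam * X / K with hM
  have hM0 : 0 ≤ M := by positivity
  have hM2 : M ≤ 2 * (X / K) := by
    rw [hM, mul_div_assoc]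
    exact mul_le_mul_of_nonneg_right hmu2 (by positivity)
  set Z : ℝ := X / K with hZ
  have hZ0 : 0 < Z := by positivity
  -- first error
  have r1 : |(kapD w)⁻¹ * S1 - (kapD w)⁻¹ * (M * U1)| ≤ Z / L ^ A / 3 := by
    rw [← mul_sub, abs_mul, abs_of_nonneg hκ0]
    have h6 : |S1 - M * U1| ≤ 4 * X ^ (1 / 25 : ℝ) :=
      s1.trans (mul_le_mul_of_nonneg_left (t4 _ Finset.Subset.rfl) (by norm_num))
    have h7 : (kapD w)⁻¹ * |S1 - M * U1| ≤ 1000 * L * (4 * X ^ (1 / 25 : ℝ)) :=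
      mul_le_mul t3 h6 (abs_nonneg _) (by positivity)
    refine h7.trans ?_
    have h8 : X ^ (9 / 10 : ℝ) ≤ Z := by
      rw [hZ, le_div_iff₀ hK0]
      calc X ^ (9 / 10 : ℝ) * K ≤ X ^ (9 / 10 : ℝ) * X ^ (1 / 10 : ℝ) := by gcongr
        _ = X := by
          rw [← Real.rpow_add hX0]
          norm_num
    rw [div_div, le_div_iff₀ (by positivity)]
    calc 1000 * L * (4 * X ^ (1 / 25 : ℝ)) * (L ^ A * 3) =
        (12000 * L ^ (A + 1)) * X ^ (1 / 25 : ℝ) := by ring
      _ ≤ X ^ (9 / 10 - 1 / 25 : ℝ) * X ^ (1 / 25 : ℝ) := by gcongr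
      _ = X ^ (9 / 10 : ℝ) := by
        rw [← Real.rpow_add hX0]
        norm_num
      _ ≤ Z := h8
  -- second error
  have r2 : |(kapD w)⁻¹ * (M * U1) - (kapD w)⁻¹ * (M * W1)| ≤ Z / L ^ A / 3 := by
    rw [← mul_sub, ← mul_sub, abs_mul, abs_mul, abs_of_nonneg hκ0, abs_of_nonneg hM0]
    have h6 : |U1 - W1| ≤ L ^ B * (1 / L ^ N0) :=
      s2.trans (mul_le_mul hqB hexp (Real.exp_pos _).le (by positivity))
    have h7 : (kapD w)⁻¹ * (M * |U1 - W1|) ≤ 1000 * L * ((2 * Z) * (L ^ B * (1 / L ^ N0))) :=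
      mul_le_mul t3 (mul_le_mul hM2 h6 (abs_nonneg _) (by positivity))
        (mul_nonneg hM0 (abs_nonneg _)) (by positivity)
    refine h7.trans ?_
    rw [div_div, le_div_iff₀ (by positivity)]
    have h8 : L ^ N0 = L ^ A * L ^ B * L * L ^ 3 := by
      rw [hN0]
      ring
    have h9 : 1000 * L * (2 * Z * (L ^ B * (1 / L ^ N0))) * (L ^ A * 3) = Z * (6000 / L ^ 3) := by
      rw [h8]
      field_simp
      ring
    rw [h9]
    have h10 : 6000 / L ^ 3 ≤ 1 := by
      rw [div_le_one (by positivity)]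
      calc (6000 : ℝ) ≤ 20 ^ 3 := by norm_num
        _ ≤ L ^ 3 := pow_le_pow_left₀ (by norm_num) h5 3
    calc Z * (6000 / L ^ 3) ≤ Z * 1 := mul_le_mul_of_nonneg_left h10 hZ0.le
      _ = Z := mul_one Z
  -- third error
  have r3 : |(kapD w)⁻¹ * (M * W1) -
      (if r.Coprime K then mu lam * X / (Nat.totient K : ℝ) else 0)| ≤ Z / L ^ A / 3 := by
    rw [s3]
    by_cases hc : r.Coprime K
    · rw [if_pos hc, if_pos hc]
      have h6 := htt w K hw2 hKge
      set V := W (fun p => 1 / (p : ℝ)) ((prs w).filter (fun p => ¬ p ∣ K)) with hV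
      have h7 : (kapD w)⁻¹ * (M * V) - mu lam * X / (Nat.totient K : ℝ) =
          -(mu lam * X) * (1 / (Nat.totient K : ℝ) - (kapD w)⁻¹ * V / K) := by
        rw [hM]
        ring
      rw [h7, abs_mul, abs_neg, abs_of_nonneg (by positivity : 0 ≤ mu lam * X)]
      have hw0 : (0 : ℝ) < w := by
        have : 0 < w := by omega
        exact_mod_cast this
      have h8 : 4 * (1 + Real.log K) ^ 2 / (K * w) ≤ 4 * L ^ 2 / (K * w) := by gcongr
      have h9 : mu lam * X * |1 / (Nat.totient K : ℝ) - (kapD w)⁻¹ * V / K| ≤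
          2 * X * (4 * L ^ 2 / (K * w)) :=
        mul_le_mul (mul_le_mul_of_nonneg_right hmu2 hX0.le) (h6.trans h8) (abs_nonneg _)
          (by positivity)
      refine h9.trans ?_
      have h10 : L ^ A * L ^ 4 ≤ w := by
        rw [← pow_add]
        exact hwL (A + 4) (by omega)
      have h11 : 2 * X * (4 * L ^ 2 / (K * w)) = Z * (8 * L ^ 2 / w) := by
        rw [hZ]
        field_simp
        ring
      rw [h11, div_div, le_div_iff₀ (by positivity)]
      have h12 : 8 * L ^ 2 / w * (L ^ A * 3) ≤ 1 := by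
        rw [div_mul_eq_mul_div, div_le_one hw0]
        have h13 : (24 : ℝ) ≤ L ^ 2 := by nlinarith
        calc 8 * L ^ 2 * (L ^ A * 3) = L ^ A * L ^ 2 * 24 := by ring
          _ ≤ L ^ A * L ^ 2 * L ^ 2 := by gcongr
          _ = L ^ A * L ^ 4 := by ring
          _ ≤ w := h10
      calc Z * (8 * L ^ 2 / w) * (L ^ A * 3) = Z * (8 * L ^ 2 / w * (L ^ A * 3)) := by ring
        _ ≤ Z * 1 := mul_le_mul_of_nonneg_left h12 hZ0.le
        _ = Z := mul_one Z
    · rw [if_neg hc, if_neg hc, mul_zero, mul_zero, sub_zero, abs_zero]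
      positivity
  rw [hHH]
  have hfin : (kapD w)⁻¹ * S1 - (if r.Coprime K then mu lam * X / (Nat.totient K : ℝ) else 0) =
      ((kapD w)⁻¹ * S1 - (kapD w)⁻¹ * (M * U1)) + ((kapD w)⁻¹ * (M * U1) -
        (kapD w)⁻¹ * (M * W1)) + ((kapD w)⁻¹ * (M * W1) -
      (if r.Coprime K then mu lam * X / (Nat.totient K : ℝ) else 0)) := by ring
  rw [hfin]
  have a1 := abs_add_le ((kapD w)⁻¹ * S1 - (kapD w)⁻¹ * (M * U1) + ((kapD w)⁻¹ * (M * U1) -
        (kapD w)⁻¹ * (M * W1))) ((kapD w)⁻¹ * (M * W1) -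
      (if r.Coprime K then mu lam * X / (Nat.totient K : ℝ) else 0))
  have a2 := abs_add_le ((kapD w)⁻¹ * S1 - (kapD w)⁻¹ * (M * U1)) ((kapD w)⁻¹ * (M * U1) -
        (kapD w)⁻¹ * (M * W1))
  linarith

end Pool.Agent.NC.J
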