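import Pool.Agent.Lib.MP_0da313_nt.NC.J

set_option autoImplicit false

/-!
Project NC, section J, piece maj: the major arcs, on average over the moduli.
-/

namespace Pool.Agent.NC.J

open Finset Filter
open Pool.Agent.MP89da58 (inv_totient_le)
open Pool.Agent.CH (thP)
open Pool.Agent.CM (wd mu)
open Pool.Agent.SP80 (ex)
open Pool.Agent.GC (HH tz ES Pm pL)

private theorem nc_maj_log9 : -(1 / 9 : ℝ) ≤ Real.log (9 / 10) := by
  have h := Real.one_sub_inv_le_log_of_pos (show (0 : ℝ) < 9 / 10 by norm_num)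
  norm_num at h ⊢
  linarith

private theorem nc_maj_log11 : Real.log (11 / 10) ≤ 1 / 10 := by
  have h := Real.log_le_sub_one_of_pos (show (0 : ℝ) < 11 / 10 by norm_num)
  linarith

private theorem nc_maj_mono (X ε : ℝ) (K K' w k : ℕ) (hL : 1 ≤ Real.log X) (hK : K' ≤ K)
    (h : Pm X ε K w k) : Pm X ε K' w k := by
  refine ⟨(pow_le_pow_right₀ hL hK).trans h.w_ge, ?_, h.even, h.wk⟩
  refine le_trans ?_ h.k_ge
  have h0 : 0 ≤ Real.log (Real.log X) := Real.log_nonneg hL
  apply mul_le_mul_of_nonneg_right _ h0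
  exact_mod_cast hK

/-- comparison of the parameters at `X` and at `Y ∈ [0.9 X, 1.1 X]` -/
private theorem nc_maj_par (K0 w k : ℕ) (X Y : ℝ) (hX : 0 < X) (hL : 6 ≤ Real.log X)
    (hK : (2 : ℝ) ^ K0 ≤ Real.log X)
    (h1 : 9 / 10 * X ≤ Y) (h2 : Y ≤ 11 / 10 * X) (hP : Pm X (1 / 100) (K0 + 1) w k) :
    Real.log X / 2 ≤ Real.log Y ∧ Pm Y (1 / 50) K0 w k := by
  set L := Real.log X with hLd
  have hY : 0 < Y := by nlinarith
  have hlow : L - 1 / 9 ≤ Real.log Y := by
    have h3 : Real.log (9 / 10 * X) ≤ Real.log Y := Real.log_le_log (by positivity) h1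
    rw [Real.log_mul (by norm_num) hX.ne'] at h3
    have := nc_maj_log9
    linarith
  have hup : Real.log Y ≤ L + 1 / 10 := by
    have h3 : Real.log Y ≤ Real.log (11 / 10 * X) := Real.log_le_log hY h2
    rw [Real.log_mul (by norm_num) hX.ne'] at h3
    have := nc_maj_log11
    linarith
  have hLY : L / 2 ≤ Real.log Y := by linarith
  have hLpow : ∀ n : ℕ, (L + 1 / 10) ^ n ≤ 2 ^ n * L ^ n := by
    intro n
    rw [← mul_pow]
    apply pow_le_pow_left₀ (by linarith)
    linarith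
  refine ⟨hLY, ?_⟩
  refine ⟨?_, ?_, hP.even, ?_⟩
  · have h3 : (Real.log Y) ^ K0 ≤ (L + 1 / 10) ^ K0 := pow_le_pow_left₀ (by linarith) hup _
    have h4 : L ^ (K0 + 1) ≤ w := hP.w_ge
    have h5 : 2 ^ K0 * L ^ K0 ≤ L ^ (K0 + 1) := by
      rw [pow_succ L K0, mul_comm]
      exact mul_le_mul_of_nonneg_left hK (by positivity)
    exact h3.trans ((hLpow K0).trans (h5.trans h4))
  · have h4 : ((K0 + 1 : ℕ) : ℝ) * Real.log L ≤ k := hP.k_ge
    refine le_trans ?_ h4
    have h3 : (Real.log Y) ^ K0 ≤ L ^ (K0 + 1) := by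
      have h3 : (Real.log Y) ^ K0 ≤ (L + 1 / 10) ^ K0 := pow_le_pow_left₀ (by linarith) hup _
      have h5 : 2 ^ K0 * L ^ K0 ≤ L ^ (K0 + 1) := by
        rw [pow_succ L K0, mul_comm]
        exact mul_le_mul_of_nonneg_left hK (by positivity)
      exact h3.trans ((hLpow K0).trans h5)
    rw [← Real.log_pow, ← Real.log_pow]
    apply Real.log_le_log _ h3
    apply pow_pos
    linarith
  · refine hP.wk.trans ?_
    rw [Real.rpow_def_of_pos hX, Real.rpow_def_of_pos hY]
    apply Real.exp_le_exp.2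
    show L * (1 / 100) ≤ Real.log Y * (1 / 50)
    linarith

/-- the indices `j` -/
private theorem nc_maj_j (X lam : ℝ) (hX : 0 < X) (hl : 1 ≤ lam) (j : ℕ)
    (hj : j ∈ Icc ⌈lam * Real.log (9 / 10 * X)⌉₊ ⌊lam * Real.log (11 / 10 * X)⌋₊)
    (hL : 6 ≤ Real.log X) :
    9 / 10 * X ≤ Real.exp (j / lam) ∧ Real.exp (j / lam) ≤ 11 / 10 * X := by
  rw [mem_Icc] at hj
  have hl0 : 0 < lam := by linarith
  have h0 : 0 ≤ lam * Real.log (11 / 10 * X) := by
    apply mul_nonneg hl0.le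
    rw [Real.log_mul (by norm_num) hX.ne']
    have : 0 ≤ Real.log (11 / 10) := Real.log_nonneg (by norm_num)
    linarith
  have h1 : lam * Real.log (9 / 10 * X) ≤ j := Nat.ceil_le.1 hj.1
  have h2 : (j : ℝ) ≤ lam * Real.log (11 / 10 * X) := (Nat.le_floor_iff h0).1 hj.2
  constructor
  · rw [← Real.log_le_iff_le_exp (by positivity), le_div_iff₀ hl0]
    linarith
  · rw [← Real.le_log_iff_exp_le (by positivity), div_le_iff₀ hl0]
    linarith

private theorem nc_maj_card (X lam : ℝ) (hX : 0 < X) (hl : 1 ≤ lam) (hL : 6 ≤ Real.log X) :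
    ((Icc ⌈lam * Real.log (9 / 10 * X)⌉₊ ⌊lam * Real.log (11 / 10 * X)⌋₊).card : ℝ) ≤ 2 * lam := by
  rw [Nat.card_Icc]
  have hl0 : 0 < lam := by linarith
  set a := lam * Real.log (9 / 10 * X) with ha
  set b := lam * Real.log (11 / 10 * X) with hb
  have hb0 : 0 ≤ b := by
    apply mul_nonneg hl0.le
    rw [Real.log_mul (by norm_num) hX.ne']
    have : 0 ≤ Real.log (11 / 10) := Real.log_nonneg (by norm_num)
    linarith
  have hab : b - a ≤ lam := by
    rw [ha, hb, Real.log_mul (by norm_num) hX.ne', Real.log_mul (by norm_num) hX.ne']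
    have h1 := nc_maj_log9
    have h2 := nc_maj_log11
    nlinarith
  have h1 : (⌊b⌋₊ : ℝ) ≤ b := Nat.floor_le hb0
  have h2 : a ≤ ⌈a⌉₊ := Nat.le_ceil a
  by_cases h3 : ⌈a⌉₊ ≤ ⌊b⌋₊ + 1
  · rw [Nat.cast_sub h3, Nat.cast_add, Nat.cast_one]
    linarith
  · rw [Nat.sub_eq_zero_of_le (by omega), Nat.cast_zero]
    linarith

private theorem nc_maj_pL (lam X : ℝ) (r : ℕ) : 0 ≤ pL lam X r := by
  unfold pL
  apply sum_nonneg
  intro χ _
  apply Set.indicator_nonneg
  intro _ _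
  exact norm_nonneg _

private theorem nc_maj_ex : ex 0 = 1 := by
  unfold ex
  simp

/-- `c0 L^B X^(1/100) ≤ X^(1/50)` -/
private theorem nc_maj_big (c0 B : ℕ) : ∀ᶠ X : ℝ in atTop,
    (c0 : ℝ) * (Real.log X) ^ B * X ^ (1 / 100 : ℝ) ≤ X ^ (1 / 50 : ℝ) := by
  have h3 : (fun X : ℝ => Real.log X ^ (B : ℝ)) =o[atTop] fun X : ℝ => X ^ (1 / 100 : ℝ) :=
    isLittleO_log_rpow_rpow_atTop _ (by norm_num)
  have h4 := h3.bound (show (0 : ℝ) < 1 / (c0 + 1) by positivity)
  filter_upwards [h4, eventually_ge_atTop 1,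
    Real.tendsto_log_atTop.eventually_ge_atTop 1] with X h5 h6 h7
  have hX0 : 0 < X := by linarith
  have hL0 : 0 < Real.log X := by linarith
  rw [Real.norm_of_nonneg (by positivity), Real.norm_of_nonneg (by positivity),
    Real.rpow_natCast] at h5
  have e1 : X ^ (1 / 50 : ℝ) = X ^ (1 / 100 : ℝ) * X ^ (1 / 100 : ℝ) := by
    rw [← Real.rpow_add hX0]
    norm_num
  rw [e1]
  apply mul_le_mul_of_nonneg_right _ (by positivity)
  have h8 : (c0 : ℝ) * (Real.log X) ^ B ≤ (c0 + 1) * (Real.log X) ^ B := by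
    apply mul_le_mul_of_nonneg_right _ (by positivity)
    linarith
  refine h8.trans ?_
  rw [one_div, inv_mul_eq_div, le_div_iff₀ (by positivity)] at h5
  linarith

/-- the sum over the moduli, for one window -/
private theorem nc_maj_ex1 (d b c0l D R : ℕ) (C lam Y : ℝ) (hd : 1 ≤ d) (hc : 1 ≤ c0l)
    (hwt : ∀ D V f : ℕ, 1 ≤ D → 1 ≤ V → 1 ≤ f →
      ∑ q ∈ (Icc 1 D).filter (fun q => Squarefree q ∧ f ∣ V * q ^ d),
        (b : ℝ) ^ q.primeFactors.card / q
      ≤ C * (1 + Real.log D) ^ b * ((V : ℝ) / f) ^ (1 / (2 * d : ℝ)))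
    (hC : 0 < C) (hD : 1 ≤ D) (hR : ∀ q ∈ (Icc 1 D).filter Squarefree, c0l * q ^ d ≤ R) :
    ∑ q ∈ (Icc 1 D).filter Squarefree, (b : ℝ) ^ q.primeFactors.card / q *
        ∑ r ∈ (c0l * q ^ d).divisors.filter (fun r => 2 ≤ r), pL lam Y r ≤
      C * (1 + Real.log D) ^ b * c0l * ∑ r ∈ Icc 2 R, pL lam Y r * (r : ℝ) ^ (-(1 / (2 * d : ℝ))) := by
  classical
  have h1 : ∀ q ∈ (Icc 1 D).filter Squarefree,
      (b : ℝ) ^ q.primeFactors.card / q *
        ∑ r ∈ (c0l * q ^ d).divisors.filter (fun r => 2 ≤ r), pL lam Y r ≤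
      ∑ r ∈ Icc 2 R, (if r ∣ c0l * q ^ d then (b : ℝ) ^ q.primeFactors.card / q * pL lam Y r else 0) := by
    intro q hq
    have hq2 := hR q hq
    rw [mem_filter, mem_Icc] at hq
    rw [← sum_filter, ← mul_sum]
    apply mul_le_mul_of_nonneg_left _ (by positivity)
    apply sum_le_sum_of_subset_of_nonneg
    · intro r hr
      rw [mem_filter, Nat.mem_divisors] at hr
      rw [mem_filter, mem_Icc]
      exact ⟨⟨hr.2, (Nat.le_of_dvd (Nat.pos_of_ne_zero hr.1.2) hr.1.1).trans hq2⟩, hr.1.1⟩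
    · intro r _ _
      exact nc_maj_pL _ _ _
  refine (sum_le_sum h1).trans ?_
  rw [sum_comm, mul_sum]
  apply sum_le_sum
  intro r hr
  rw [mem_Icc] at hr
  have hr0 : (0 : ℝ) < r := by
    have : 0 < r := by omega
    exact_mod_cast this
  have h2 := hwt D c0l r hD hc (by omega)
  have h3 : ∑ q ∈ (Icc 1 D).filter Squarefree,
      (if r ∣ c0l * q ^ d then (b : ℝ) ^ q.primeFactors.card / q * pL lam Y r else 0) =
      (∑ q ∈ (Icc 1 D).filter (fun q => Squarefree q ∧ r ∣ c0l * q ^ d),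
        (b : ℝ) ^ q.primeFactors.card / q) * pL lam Y r := by
    rw [← sum_filter, filter_filter, sum_mul]
  rw [h3]
  have hV : (1 : ℝ) ≤ c0l := by exact_mod_cast hc
  have hd' : (1 : ℝ) ≤ d := by exact_mod_cast hd
  have h4 : ((c0l : ℝ) / r) ^ (1 / (2 * d : ℝ)) ≤ c0l * (r : ℝ) ^ (-(1 / (2 * d : ℝ))) := by
    rw [Real.div_rpow (by linarith) hr0.le, Real.rpow_neg hr0.le, div_eq_mul_inv]
    apply mul_le_mul_of_nonneg_right _ (by positivity)
    have h5 : (1 / (2 * d : ℝ)) ≤ 1 := by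
      rw [div_le_one (by positivity)]
      linarith
    have := Real.rpow_le_rpow_of_exponent_le hV h5
    rwa [Real.rpow_one] at this
  have hlD : 0 ≤ Real.log D := Real.log_natCast_nonneg D
  have h6 : C * (1 + Real.log D) ^ b * ((c0l : ℝ) / r) ^ (1 / (2 * d : ℝ)) ≤
      C * (1 + Real.log D) ^ b * (c0l * (r : ℝ) ^ (-(1 / (2 * d : ℝ)))) :=
    mul_le_mul_of_nonneg_left h4 (by positivity)
  have h7 := mul_le_mul_of_nonneg_right (h2.trans h6) (nc_maj_pL lam Y r)
  refine h7.trans (le_of_eq ?_)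
  ring

/-- [NC maj] -/
theorem p_maj : S_maj := by
  intro hwt hbke hthc hhK hnc htz d c0 A b B hd hc0
  obtain ⟨C, hC, hwt⟩ := hwt d b (by omega)
  obtain ⟨E0, hE0⟩ := htz (A + b + 3) B
  obtain ⟨K1, hK1⟩ := hhK (A + b + E0 + 7) (B + 1)
  obtain ⟨K2, hK2⟩ := hnc (A + b + 3) (B + 1)
  have hd0 : (0 : ℝ) < d := by
    have : 0 < d := by omega
    exact_mod_cast this
  have hbk := hbke (1 / (2 * d : ℝ)) (A + b + 2 * B + E0 + 8) (by positivity)
  obtain ⟨X1, hX1⟩ := eventually_atTop.1 (hK1.and (hbk.and (hthc (A + b + E0 + 7))))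
  refine ⟨max (K1 + 1) (max K2 1), ?_⟩
  have hlog : ∀ c : ℝ, ∀ᶠ X : ℝ in atTop, c ≤ Real.log X := fun c =>
    Real.tendsto_log_atTop.eventually_ge_atTop c
  filter_upwards [hE0, hK2, eventually_ge_atTop (max 1 (10 / 9 * X1)), hlog 6,
    hlog (c0 * 2 ^ (B + 1)), hlog (2 ^ K1), hlog (11 * 2 ^ (A + b + E0 + 7)),
    hlog (2 ^ (b + 1) * C), hlog (2 * (88 / 10 * C * 2 ^ b * 2 ^ (A + b + 2 * B + E0 + 8))),
    nc_maj_big c0 B] with X hEX hKX hXX hL6 hLc hLK hLA hLC hLD hbig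
  intro w k hP
  have hX1' : 1 ≤ X := (le_max_left _ _).trans hXX
  have hXX1 : 10 / 9 * X1 ≤ X := (le_max_right _ _).trans hXX
  have hX : 0 < X := by linarith
  set L := Real.log X with hLd
  have hL1 : 1 ≤ L := by linarith
  have hL0 : 0 < L := by linarith
  have hc0' : (1 : ℝ) ≤ c0 := by exact_mod_cast hc0
  have hc0L : (c0 : ℝ) ≤ L := by
    refine le_trans ?_ hLc
    have : (1 : ℝ) ≤ 2 ^ (B + 1) := one_le_pow₀ (by norm_num)
    nlinarith
  set lam := L ^ E0 with hlam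
  have hlam1 : 1 ≤ lam := one_le_pow₀ hL1
  set J := Icc ⌈lam * Real.log (9 / 10 * X)⌉₊ ⌊lam * Real.log (11 / 10 * X)⌋₊ with hJ
  have hP1 : Pm X (1 / 100) 1 w k := nc_maj_mono X _ _ 1 w k hL1 (by omega) hP
  have hP2 : Pm X (1 / 100) K2 w k := nc_maj_mono X _ _ K2 w k hL1 (by omega) hP
  have hP3 : Pm X (1 / 100) (K1 + 1) w k := nc_maj_mono X _ _ (K1 + 1) w k hL1 (by omega) hP
  -- the windows
  let Y : ℕ → ℝ := fun j => Real.exp (j / lam)
  let P : ℕ → ℕ → ℝ := fun j K => ∑ r ∈ K.divisors.filter (fun r => 2 ≤ r), pL lam (Y j) r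
  have hP0 : ∀ j K, 0 ≤ P j K := fun j K => sum_nonneg fun r _ => nc_maj_pL _ _ _
  have hYj : ∀ j ∈ J, X1 ≤ Y j ∧ 0 < Y j ∧ Y j ≤ 11 / 10 * X ∧ L / 2 ≤ Real.log (Y j) ∧
      Pm (Y j) (1 / 50) K1 w k ∧ X ^ (1 / 50 : ℝ) ≤ (Y j) ^ (1 / 20 : ℝ) ∧
      X ^ (1 / 50 : ℝ) ≤ (Y j) ^ (1 / 12 : ℝ) := by
    intro j hj
    obtain ⟨e1, e2⟩ := nc_maj_j X lam hX hlam1 j hj hL6
    obtain ⟨f1, f2⟩ := nc_maj_par K1 w k X (Y j) hX hL6 hLK e1 e2 hP3
    have hYpos : 0 < Y j := Real.exp_pos _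
    refine ⟨?_, hYpos, e2, f1, f2, ?_, ?_⟩
    · have : 9 / 10 * X ≤ Y j := e1
      linarith
    · rw [Real.rpow_def_of_pos hX, Real.rpow_def_of_pos hYpos]
      apply Real.exp_le_exp.2
      show L * (1 / 50) ≤ Real.log (Y j) * (1 / 20)
      linarith
    · rw [Real.rpow_def_of_pos hX, Real.rpow_def_of_pos hYpos]
      apply Real.exp_le_exp.2
      show L * (1 / 50) ≤ Real.log (Y j) * (1 / 12)
      linarith
  have hYpow : ∀ j ∈ J, ∀ n : ℕ, Y j / Real.log (Y j) ^ n ≤ 11 / 10 * X * 2 ^ n / L ^ n := by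
    intro j hj n
    obtain ⟨_, hYpos, e2, f1, _⟩ := hYj j hj
    have h5 : (L / 2) ^ n ≤ Real.log (Y j) ^ n := pow_le_pow_left₀ (by linarith) f1 _
    have h6 : 0 < (L / 2) ^ n := by positivity
    calc Y j / Real.log (Y j) ^ n ≤ Y j / (L / 2) ^ n :=
          div_le_div_of_nonneg_left hYpos.le h6 h5
      _ ≤ (11 / 10 * X) / (L / 2) ^ n := div_le_div_of_nonneg_right e2 h6.le
      _ = 11 / 10 * X * 2 ^ n / L ^ n := by
          rw [div_pow]
          field_simp
  have hJc : (J.card : ℝ) ≤ 2 * lam := nc_maj_card X lam hX hlam1 hL6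
  -- one modulus, coprime class
  have hcop : ∀ (K g s : ℕ) (β : ℝ), 1 ≤ K → (K : ℝ) ≤ X ^ (1 / 50 : ℝ) → 1 ≤ g →
      (g : ℝ) ≤ c0 * L ^ B → s.Coprime K → |β| ≤ L ^ B / X →
      ‖ES w k X K s β‖ ≤ 4 * L / K * ∑ j ∈ J, P j K + X / K / L ^ (A + b + 2) := by
    intro K g s β hK hKX' hg hgL hs hβ
    have hK0 : (0 : ℝ) < K := by
      have : 0 < K := hK
      exact_mod_cast this
    have h1 := hEX w k hP1 K s 1 0 β hK hKX' hs le_rfl (by simpa using hβ) lam rfl
    have hφ : 1 / (Nat.totient K : ℝ) ≤ 4 * L / K := by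
      refine (inv_totient_le K (by omega)).trans ?_
      apply div_le_div_of_nonneg_right _ hK0.le
      have h2 : Real.log K ≤ L / 50 := by
        have h3 := Real.log_le_log hK0 hKX'
        rw [Real.log_rpow hX] at h3
        linarith
      have h3 : (1 / 2 : ℝ) ≤ Real.log 2 := by
        have := Real.log_two_gt_d9
        linarith
      have h4 : Real.log K / Real.log 2 ≤ L / 50 / (1 / 2) := by
        apply div_le_div₀ (by positivity) h2 (by norm_num) h3
      linarith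
    have hφ0 : 0 ≤ 1 / (Nat.totient K : ℝ) := by positivity
    have h2 : ∀ j ∈ J, ‖∑ t ∈ (Icc 1 ⌊3 * Real.exp (j / lam)⌋₊).filter (fun t => t ≡ s [MOD K]),
        ((thP t - HH w k t : ℝ) : ℂ) * ex (((0 : ℤ) : ℝ) * t / ((K : ℝ) ^ 2 * (1 : ℕ))) *
          (wd lam (Real.exp (j / lam)) t : ℂ)‖ ≤
        4 * L / K * P j K + 5 * L / K * (11 / 10 * X * 2 ^ (A + b + E0 + 7) / L ^ (A + b + E0 + 7)) := by
      intro j hj
      obtain ⟨g1, g2, g3, g4, g5, g6, g7⟩ := hYj j hj
      obtain ⟨t1, t2, t3⟩ := hX1 (Y j) g1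
      have hgY : (g : ℝ) ≤ Real.log (Y j) ^ (B + 1) := by
        have h5 : (L / 2) ^ (B + 1) ≤ Real.log (Y j) ^ (B + 1) :=
          pow_le_pow_left₀ (by linarith) g4 _
        refine hgL.trans (le_trans ?_ h5)
        rw [div_pow, le_div_iff₀ (by positivity), pow_succ L B]
        have h6 : (c0 : ℝ) * L ^ B * 2 ^ (B + 1) = L ^ B * (c0 * 2 ^ (B + 1)) := by ring
        rw [h6]
        exact mul_le_mul_of_nonneg_left hLc (by positivity)
      have u1 := t3 lam K s hlam1 hK (hKX'.trans g6) hs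
      have u2 := t1 w k g5 lam hlam1 K g s hK (hKX'.trans g6) hg hgY (by
        intro p hp hpK hps
        exfalso
        have := Nat.dvd_gcd hps hpK
        rw [hs] at this
        exact hp.one_lt.ne' (Nat.dvd_one.1 this))
      rw [if_pos hs] at u2
      set M : ℝ := mu lam * Y j / (Nat.totient K : ℝ) with hM
      have hdec : ∑ t ∈ (Icc 1 ⌊3 * Real.exp (j / lam)⌋₊).filter (fun t => t ≡ s [MOD K]),
          ((thP t - HH w k t : ℝ) : ℂ) * ex (((0 : ℤ) : ℝ) * t / ((K : ℝ) ^ 2 * (1 : ℕ))) *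
            (wd lam (Real.exp (j / lam)) t : ℂ) =
          (((∑ t ∈ (Icc 1 ⌊3 * Y j⌋₊).filter (fun t => t ≡ s [MOD K]), thP t * wd lam (Y j) t - M) -
            (∑ t ∈ (Icc 1 ⌊3 * Y j⌋₊).filter (fun t => t ≡ s [MOD K]), HH w k t * wd lam (Y j) t - M) : ℝ) : ℂ) := by
        rw [sub_sub_sub_cancel_right, ← sum_sub_distrib]
        push_cast
        apply sum_congr rfl
        intro t _
        rw [zero_mul, zero_div, nc_maj_ex]
        show ((thP t : ℂ) - (HH w k t : ℂ)) * 1 * (wd lam (Y j) t : ℂ) = _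
        ring
      rw [hdec, Complex.norm_real, Real.norm_eq_abs]
      refine (abs_sub _ _).trans ?_
      have v1 := hYpow j hj (A + b + E0 + 7)
      set Q : ℝ := 11 / 10 * X * 2 ^ (A + b + E0 + 7) / L ^ (A + b + E0 + 7) with hQ
      have hQ0 : 0 ≤ Q := by positivity
      have v2 : 1 / (Nat.totient K : ℝ) *
          (P j K + Y j / Real.log (Y j) ^ (A + b + E0 + 7)) ≤ 4 * L / K * (P j K + Q) := by
        have h5 : 0 ≤ Y j / Real.log (Y j) ^ (A + b + E0 + 7) := by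
          have : 0 ≤ Real.log (Y j) := by linarith
          positivity
        apply mul_le_mul hφ (by linarith) (by linarith [hP0 j K]) (by positivity)
      have v3 : Y j / K / Real.log (Y j) ^ (A + b + E0 + 7) ≤ L / K * Q := by
        have e1 : Y j / K / Real.log (Y j) ^ (A + b + E0 + 7) =
            1 / K * (Y j / Real.log (Y j) ^ (A + b + E0 + 7)) := by
          rw [div_div, mul_comm (K : ℝ), ← div_div, one_div, div_eq_mul_inv _ (K : ℝ)]
          ring
        rw [e1]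
        apply mul_le_mul _ v1 _ (by positivity)
        · exact div_le_div_of_nonneg_right hL1 hK0.le
        · have : 0 ≤ Real.log (Y j) := by linarith
          positivity
      have v4 : 4 * L / K * P j K + 5 * L / K * Q = 4 * L / K * (P j K + Q) + L / K * Q := by
        ring
      rw [v4]
      exact add_le_add (u1.trans v2) (u2.trans v3)
    refine h1.trans ?_
    refine (add_le_add (sum_le_sum h2) le_rfl).trans ?_
    rw [sum_add_distrib, ← mul_sum, sum_const, nsmul_eq_mul, add_assoc]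
    apply add_le_add le_rfl
    set Q : ℝ := 11 / 10 * X * 2 ^ (A + b + E0 + 7) / L ^ (A + b + E0 + 7) with hQ
    have hQ0 : 0 ≤ Q := by positivity
    have h3 : (J.card : ℝ) * (5 * L / K * Q) ≤ X / K / L ^ (A + b + 3) := by
      refine (mul_le_mul_of_nonneg_right hJc (by positivity)).trans ?_
      have e1 : 2 * lam * (5 * L / K * Q) =
          (11 * 2 ^ (A + b + E0 + 7)) * (X / K / L ^ (A + b + 6)) := by
        rw [hQ, hlam, show A + b + E0 + 7 = E0 + (A + b + 6) + 1 by ring, pow_succ L, pow_add L E0]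
        field_simp
        ring
      have e2 : X / K / L ^ (A + b + 3) = L ^ 3 * (X / K / L ^ (A + b + 6)) := by
        rw [show A + b + 6 = (A + b + 3) + 3 by ring, pow_add L (A + b + 3) 3]
        field_simp
      rw [e1, e2]
      apply mul_le_mul_of_nonneg_right _ (by positivity)
      have h11 : L ≤ L ^ 3 := by nlinarith [sq_nonneg L, mul_pos hL0 hL0]
      linarith
    have h4 : X / K / L ^ (A + b + 2) = L * (X / K / L ^ (A + b + 3)) := by
      rw [show A + b + 3 = (A + b + 2) + 1 by ring, pow_succ L (A + b + 2)]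
      field_simp
    rw [h4]
    have h5 : 0 ≤ X / K / L ^ (A + b + 3) := by positivity
    nlinarith
  -- the moduli
  set D : ℕ := ⌊X ^ (1 / (100 * d : ℝ))⌋₊ with hDdef
  have hDX : (D : ℝ) ≤ X ^ (1 / (100 * d : ℝ)) := Nat.floor_le (by positivity)
  have hpow : ∀ q : ℕ, (q : ℝ) ≤ X ^ (1 / (100 * d : ℝ)) → (q : ℝ) ^ d ≤ X ^ (1 / 100 : ℝ) := by
    intro q hq
    have h1 := pow_le_pow_left₀ (Nat.cast_nonneg q) hq d
    rw [← Real.rpow_natCast (X ^ (1 / (100 * d : ℝ))), ← Real.rpow_mul hX.le] at h1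
    have h2 : (1 / (100 * d : ℝ)) * (d : ℝ) = 1 / 100 := by
      field_simp
    rwa [h2] at h1
  have hKle : ∀ q l : ℕ, (q : ℝ) ≤ X ^ (1 / (100 * d : ℝ)) → (l : ℝ) ≤ L ^ B →
      ((c0 * l * q ^ d : ℕ) : ℝ) ≤ X ^ (1 / 50 : ℝ) := by
    intro q l hq hl
    push_cast
    refine le_trans ?_ hbig
    apply mul_le_mul _ (hpow q hq) (by positivity) (by positivity)
    exact mul_le_mul_of_nonneg_left hl (by linarith)
  let E : ℕ → ℝ := fun q => ∑ l ∈ Icc 1 ⌊L ^ B⌋₊,
    4 * L / ((c0 * l * q ^ d : ℕ) : ℝ) * ∑ j ∈ J, P j (c0 * l * q ^ d) + X / (q : ℝ) ^ d / L ^ (A + b + 2)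
  refine ⟨E, ?_, ?_, ?_⟩
  · intro q
    apply add_nonneg _ (by positivity)
    apply sum_nonneg
    intro l _
    apply mul_nonneg (by positivity)
    exact sum_nonneg fun j _ => hP0 _ _
  · intro q l s β hq hqX hl hlL hs hβ
    have hq1 : 1 ≤ q := Nat.pos_of_ne_zero hq.ne_zero
    have hqd : 1 ≤ q ^ d := Nat.one_le_pow _ _ hq1
    have hK1' : 1 ≤ c0 * l * q ^ d := Nat.mul_pos (Nat.mul_pos hc0 hl) hqd
    have hKX' := hKle q l hqX hlL
    have hg1 : 1 ≤ c0 * l := Nat.mul_pos hc0 hl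
    have hgL : ((c0 * l : ℕ) : ℝ) ≤ c0 * L ^ B := by
      push_cast
      exact mul_le_mul_of_nonneg_left hlL (by linarith)
    have hqR : (0 : ℝ) < q := by exact_mod_cast hq1
    have hqK : (q : ℝ) ^ d ≤ ((c0 * l * q ^ d : ℕ) : ℝ) := by
      have : q ^ d ≤ c0 * l * q ^ d := Nat.le_mul_of_pos_left _ hg1
      exact_mod_cast this
    have hXK : X / ((c0 * l * q ^ d : ℕ) : ℝ) / L ^ (A + b + 2) ≤ X / (q : ℝ) ^ d / L ^ (A + b + 2) := by
      apply div_le_div_of_nonneg_right _ (by positivity)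
      exact div_le_div_of_nonneg_left hX.le (by positivity) hqK
    by_cases hsK : s.Coprime (c0 * l * q ^ d)
    · refine (hcop _ (c0 * l) s β hK1' hKX' hg1 hgL hsK hβ).trans ?_
      apply add_le_add _ hXK
      have hl2 : l ∈ Icc 1 ⌊L ^ B⌋₊ := by
        rw [mem_Icc]
        exact ⟨hl, (Nat.le_floor_iff (by positivity)).2 hlL⟩
      refine single_le_sum (f := fun l => 4 * L / ((c0 * l * q ^ d : ℕ) : ℝ) *
        ∑ j ∈ J, P j (c0 * l * q ^ d)) ?_ hl2
      intro l _
      apply mul_nonneg (by positivity)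
      exact sum_nonneg fun j _ => hP0 _ _
    · have h1 := hKX w k hP2 (c0 * l * q ^ d) (c0 * l) s β hK1' hKX' hg1 (by
        refine hgL.trans ?_
        rw [pow_succ L B, mul_comm]
        exact mul_le_mul_of_nonneg_left hc0L (by positivity)) (by
        intro p hp hpK hps
        rcases (Nat.Prime.dvd_mul hp).1 hpK with h | h
        · exact h
        · exfalso
          have hpq := hp.dvd_of_dvd_pow h
          have := Nat.dvd_gcd hps hpq
          rw [hs] at this
          exact hp.one_lt.ne' (Nat.dvd_one.1 this)) hsK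
      refine h1.trans ?_
      have h2 : X / ((c0 * l * q ^ d : ℕ) : ℝ) / L ^ (A + b + 3) ≤ X / (q : ℝ) ^ d / L ^ (A + b + 2) := by
        refine le_trans ?_ hXK
        apply div_le_div_of_nonneg_left (by positivity) (by positivity)
        exact pow_le_pow_right₀ hL1 (by omega)
      refine h2.trans ?_
      apply le_add_of_nonneg_left
      apply sum_nonneg
      intro l _
      apply mul_nonneg (by positivity)
      exact sum_nonneg fun j _ => hP0 _ _
  -- the sum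
  · have hD1 : 1 ≤ D := by
      rw [hDdef]
      apply Nat.le_floor
      rw [Nat.cast_one]
      exact Real.one_le_rpow hX1' (by positivity)
    have hlD : 1 + Real.log D ≤ 2 * L := by
      have h1 : Real.log D ≤ L := by
        have hD0 : (0 : ℝ) < D := by exact_mod_cast hD1
        apply Real.log_le_log hD0
        refine hDX.trans ?_
        have hd2 : (2 : ℝ) ≤ d := by exact_mod_cast hd
        have h2 : (1 / (100 * d : ℝ)) ≤ 1 := by
          rw [div_le_one (by positivity)]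
          linarith
        have := Real.rpow_le_rpow_of_exponent_le hX1' h2
        rwa [Real.rpow_one] at this
      linarith
    have hlD0 : 0 ≤ Real.log D := Real.log_natCast_nonneg D
    have hlDb : (1 + Real.log D) ^ b ≤ 2 ^ b * L ^ b := by
      rw [← mul_pow]
      exact pow_le_pow_left₀ (by linarith) hlD b
    set Q := (Icc 1 D).filter Squarefree with hQdef
    have hQq : ∀ q ∈ Q, 1 ≤ q ∧ (q : ℝ) ≤ X ^ (1 / (100 * d : ℝ)) := by
      intro q hq
      rw [hQdef, mem_filter, mem_Icc] at hq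
      refine ⟨hq.1.1, le_trans ?_ hDX⟩
      exact_mod_cast hq.1.2
    -- the second part
    have hS2 : ∑ q ∈ Q, (b : ℝ) ^ q.primeFactors.card / q ≤ C * (2 ^ b * L ^ b) := by
      have h1 := hwt D 1 1 hD1 le_rfl le_rfl
      have h2 : (Icc 1 D).filter (fun q => Squarefree q ∧ 1 ∣ 1 * q ^ d) = Q := by
        rw [hQdef]
        apply filter_congr
        intro q _
        simp
      rw [h2] at h1
      refine h1.trans ?_
      rw [Nat.cast_one, div_one, Real.one_rpow, mul_one]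
      exact mul_le_mul_of_nonneg_left hlDb hC.le
    -- the first part
    have hS1 : ∀ l ∈ Icc 1 ⌊L ^ B⌋₊, ∀ j ∈ J,
        ∑ q ∈ Q, (b : ℝ) ^ q.primeFactors.card / q * P j (c0 * l * q ^ d) ≤
          C * (2 ^ b * L ^ b) * L ^ (B + 1) *
            (11 / 10 * X * 2 ^ (A + b + 2 * B + E0 + 8) / L ^ (A + b + 2 * B + E0 + 8)) := by
      intro l hl j hj
      rw [mem_Icc] at hl
      have hlL : (l : ℝ) ≤ L ^ B := (Nat.le_floor_iff (by positivity)).1 hl.2
      obtain ⟨g1, g2, g3, g4, g5, g6, g7⟩ := hYj j hj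
      obtain ⟨t1, t2, t3⟩ := hX1 (Y j) g1
      have hg1 : 1 ≤ c0 * l := Nat.mul_pos hc0 hl.1
      have h1 := nc_maj_ex1 d b (c0 * l) D ⌊(Y j) ^ (1 / 12 : ℝ)⌋₊ C lam (Y j) (by omega) hg1 hwt hC hD1 (by
        intro q hq
        apply Nat.le_floor
        exact (hKle q l (hQq q hq).2 hlL).trans g7)
      refine h1.trans ?_
      have h2 := t2 lam hlam1 ⌊(Y j) ^ (1 / 12 : ℝ)⌋₊ (Nat.floor_le (by positivity))
      have h3 := h2.trans (hYpow j hj (A + b + 2 * B + E0 + 8))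
      have h4 : (0 : ℝ) ≤ ∑ r ∈ Icc 2 ⌊(Y j) ^ (1 / 12 : ℝ)⌋₊,
          pL lam (Y j) r * (r : ℝ) ^ (-(1 / (2 * d : ℝ))) :=
        sum_nonneg fun r _ => mul_nonneg (nc_maj_pL _ _ _) (by positivity)
      apply mul_le_mul _ h3 h4 (by positivity)
      apply mul_le_mul _ _ (by positivity) (by positivity)
      · exact mul_le_mul_of_nonneg_left hlDb hC.le
      · push_cast
        rw [pow_succ L B, mul_comm]
        exact mul_le_mul hlL hc0L (by linarith) (by positivity)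
    have hterm : ∀ q ∈ Q, (b : ℝ) ^ q.primeFactors.card * ((q : ℝ) ^ (d - 1) * E q) ≤
        (∑ l ∈ Icc 1 ⌊L ^ B⌋₊, ∑ j ∈ J,
          4 * L * ((b : ℝ) ^ q.primeFactors.card / q * P j (c0 * l * q ^ d))) +
        X / L ^ (A + b + 2) * ((b : ℝ) ^ q.primeFactors.card / q) := by
      intro q hq
      obtain ⟨hq1, _⟩ := hQq q hq
      have hq0 : (0 : ℝ) < q := by exact_mod_cast hq1
      have hqd : (q : ℝ) ^ d = q ^ (d - 1) * q := by
        rw [← pow_succ]
        congr 1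
        omega
      show (b : ℝ) ^ q.primeFactors.card * ((q : ℝ) ^ (d - 1) * (∑ l ∈ Icc 1 ⌊L ^ B⌋₊,
        4 * L / ((c0 * l * q ^ d : ℕ) : ℝ) * ∑ j ∈ J, P j (c0 * l * q ^ d) +
          X / (q : ℝ) ^ d / L ^ (A + b + 2))) ≤ _
      rw [mul_add, mul_add]
      apply add_le_add
      · rw [mul_sum, mul_sum]
        apply sum_le_sum
        intro l hl
        rw [mem_Icc] at hl
        rw [← mul_sum, ← mul_sum]
        have h1 : (q : ℝ) ^ (d - 1) * (4 * L / ((c0 * l * q ^ d : ℕ) : ℝ)) ≤ 4 * L / q := by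
          have hg : (1 : ℝ) ≤ ((c0 * l : ℕ) : ℝ) := by
            exact_mod_cast Nat.mul_pos hc0 hl.1
          rw [Nat.cast_mul, Nat.cast_pow, hqd]
          have e1 : (q : ℝ) ^ (d - 1) * (4 * L / (((c0 * l : ℕ) : ℝ) * ((q : ℝ) ^ (d - 1) * q))) =
              4 * L / q / ((c0 * l : ℕ) : ℝ) := by
            have : (0 : ℝ) < ((c0 * l : ℕ) : ℝ) := by linarith
            field_simp
          rw [e1]
          exact div_le_self (by positivity) hg
        have h2 : 0 ≤ ∑ j ∈ J, P j (c0 * l * q ^ d) := sum_nonneg fun j _ => hP0 _ _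
        have h3 : 0 ≤ (b : ℝ) ^ q.primeFactors.card := by positivity
        calc (b : ℝ) ^ q.primeFactors.card * ((q : ℝ) ^ (d - 1) *
              (4 * L / ((c0 * l * q ^ d : ℕ) : ℝ) * ∑ j ∈ J, P j (c0 * l * q ^ d)))
            = (b : ℝ) ^ q.primeFactors.card * (((q : ℝ) ^ (d - 1) *
              (4 * L / ((c0 * l * q ^ d : ℕ) : ℝ))) * ∑ j ∈ J, P j (c0 * l * q ^ d)) := by ring
          _ ≤ (b : ℝ) ^ q.primeFactors.card * ((4 * L / q) * ∑ j ∈ J, P j (c0 * l * q ^ d)) :=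
              mul_le_mul_of_nonneg_left (mul_le_mul_of_nonneg_right h1 h2) h3
          _ = 4 * L * ((b : ℝ) ^ q.primeFactors.card / q * ∑ j ∈ J, P j (c0 * l * q ^ d)) := by
              ring
          _ ≤ _ := by
              rw [mul_sum]
      · apply le_of_eq
        rw [hqd]
        field_simp
    refine (sum_le_sum hterm).trans ?_
    rw [sum_add_distrib, ← mul_sum]
    have hA1 : X / L ^ (A + b + 2) * ∑ q ∈ Q, (b : ℝ) ^ q.primeFactors.card / q ≤ X / (2 * L ^ A) := by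
      refine (mul_le_mul_of_nonneg_left hS2 (by positivity)).trans ?_
      have e1 : X / L ^ (A + b + 2) * (C * (2 ^ b * L ^ b)) = (2 ^ (b + 1) * C) * (X / (2 * L ^ (A + 2))) := by
        rw [show A + b + 2 = b + (A + 2) by ring, pow_add L b, pow_succ (2 : ℝ) b]
        field_simp
      have e2 : X / (2 * L ^ A) = L ^ 2 * (X / (2 * L ^ (A + 2))) := by
        rw [pow_add L A 2]
        field_simp
      rw [e1, e2]
      apply mul_le_mul_of_nonneg_right _ (by positivity)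
      nlinarith
    have hA2 : ∑ q ∈ Q, ∑ l ∈ Icc 1 ⌊L ^ B⌋₊, ∑ j ∈ J,
        4 * L * ((b : ℝ) ^ q.primeFactors.card / q * P j (c0 * l * q ^ d)) ≤ X / (2 * L ^ A) := by
      rw [sum_comm]
      have h1 : ∀ l ∈ Icc 1 ⌊L ^ B⌋₊, ∑ q ∈ Q, ∑ j ∈ J,
          4 * L * ((b : ℝ) ^ q.primeFactors.card / q * P j (c0 * l * q ^ d)) ≤
          2 * lam * (4 * L * (C * (2 ^ b * L ^ b) * L ^ (B + 1) *
            (11 / 10 * X * 2 ^ (A + b + 2 * B + E0 + 8) / L ^ (A + b + 2 * B + E0 + 8)))) := by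
        intro l hl
        rw [sum_comm]
        have h2 : ∀ j ∈ J, ∑ q ∈ Q,
            4 * L * ((b : ℝ) ^ q.primeFactors.card / q * P j (c0 * l * q ^ d)) ≤
            4 * L * (C * (2 ^ b * L ^ b) * L ^ (B + 1) *
            (11 / 10 * X * 2 ^ (A + b + 2 * B + E0 + 8) / L ^ (A + b + 2 * B + E0 + 8))) := by
          intro j hj
          rw [← mul_sum]
          exact mul_le_mul_of_nonneg_left (hS1 l hl j hj) (by positivity)
        have h3 := sum_le_card_nsmul J _ _ h2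
        rw [nsmul_eq_mul] at h3
        exact h3.trans (mul_le_mul_of_nonneg_right hJc (by positivity))
      have h4 := sum_le_card_nsmul _ _ _ h1
      rw [nsmul_eq_mul, Nat.card_Icc, Nat.add_sub_cancel] at h4
      refine h4.trans ?_
      have h5 : ((⌊L ^ B⌋₊ : ℕ) : ℝ) ≤ L ^ B := Nat.floor_le (by positivity)
      refine (mul_le_mul_of_nonneg_right h5 (by positivity)).trans ?_
      have e1 : L ^ B * (2 * lam * (4 * L * (C * (2 ^ b * L ^ b) * L ^ (B + 1) *
            (11 / 10 * X * 2 ^ (A + b + 2 * B + E0 + 8) / L ^ (A + b + 2 * B + E0 + 8))))) =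
          (2 * (88 / 10 * C * 2 ^ b * 2 ^ (A + b + 2 * B + E0 + 8))) * (X / (2 * L ^ (A + 6))) := by
        have e3 : L ^ (A + b + 2 * B + E0 + 8) = L ^ B * L ^ E0 * L * L ^ b * L ^ (B + 1) * L ^ (A + 6) := by
          ring
        rw [e3, hlam]
        field_simp
        ring
      have e2 : X / (2 * L ^ A) = L ^ 6 * (X / (2 * L ^ (A + 6))) := by
        rw [pow_add L A 6]
        field_simp
      rw [e1, e2]
      apply mul_le_mul_of_nonneg_right _ (by positivity)
      refine hLD.trans ?_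
      exact le_self_pow₀ hL1 (by norm_num)
    have h6 : X / L ^ A = X / (2 * L ^ A) + X / (2 * L ^ A) := by
      field_simp
      ring
    rw [h6]
    exact add_le_add hA2 hA1

end Pool.Agent.NC.J
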