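import Pool.Agent.Lib.MP_0da313_nt.NC.J

set_option autoImplicit false

/-!
Project NC, section J, piece nc: the classes which are not coprime to the modulus.
-/

namespace Pool.Agent.NC.J

open Finset Filter
open Pool.Agent.MP89da58 (kapD)
open Pool.Agent.CH (thP)
open Pool.Agent.SP80 (ex)
open Pool.Agent.GC (HH tz ES Pm prs dv)
open Pool.Agent.Lib.MP_0da313_nt (W U E W_le_U U_le_W_add_E)

private lemma nc_nc_prs {w p : ℕ} : p ∈ prs w ↔ p.Prime ∧ p ≤ w := by
  unfold GC.prs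
  rw [mem_filter, mem_Icc]
  constructor
  · rintro ⟨⟨_, h⟩, hp⟩
    exact ⟨hp, h⟩
  · rintro ⟨hp, h⟩
    exact ⟨⟨hp.one_lt.le, h⟩, hp⟩

private lemma nc_nc_kap (w : ℕ) : 0 < kapD w := by
  unfold MP89da58.kapD
  refine Finset.prod_pos fun p hp => ?_
  have hp2 := (mem_filter.1 hp).2.two_le
  have h2 : (2 : ℝ) ≤ p := by exact_mod_cast hp2
  have h3 : 1 / (p : ℝ) ≤ 1 / 2 := by
    apply one_div_le_one_div_of_le (by norm_num) h2
  linarith

private lemma nc_nc_dv01 (t p : ℕ) : 0 ≤ dv t p ∧ dv t p ≤ 1 := by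
  unfold GC.dv
  split <;> norm_num

open Classical in
private lemma nc_nc_HH (w k t p : ℕ) (hk : Even k) (hp : p ∈ prs w) (hpt : p ∣ t) :
    |HH w k t| ≤ (kapD w)⁻¹ * ∑ S ∈ (prs w).powersetCard (k + 1),
      (if ∀ q ∈ S, q ∣ t then (1 : ℝ) else 0) := by
  have hκ := (inv_pos.2 (nc_nc_kap w)).le
  have h1 := W_le_U (dv t) (prs w) (fun p _ => (nc_nc_dv01 t p).1)
    (fun p _ => (nc_nc_dv01 t p).2) hk
  have h2 := U_le_W_add_E (dv t) (prs w) (fun p _ => (nc_nc_dv01 t p).1)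
    (fun p _ => (nc_nc_dv01 t p).2) hk
  have h0 : W (dv t) (prs w) = 0 := by
    unfold Lib.MP_0da313_nt.W
    rw [Finset.prod_eq_zero hp]
    unfold GC.dv
    rw [if_pos hpt, sub_self]
  have h3 : E (dv t) (prs w) (k + 1) ≤ ∑ S ∈ (prs w).powersetCard (k + 1),
      (if ∀ q ∈ S, q ∣ t then (1 : ℝ) else 0) := by
    unfold Lib.MP_0da313_nt.E
    refine Finset.sum_le_sum fun S _ => ?_
    by_cases h : ∀ q ∈ S, q ∣ t
    · rw [if_pos h]
      exact Finset.prod_le_one (fun p _ => (nc_nc_dv01 _ p).1) (fun p _ => (nc_nc_dv01 _ p).2)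
    · rw [if_neg h]
      push Not at h
      obtain ⟨q, hq, hqn⟩ := h
      rw [Finset.prod_eq_zero hq]
      unfold GC.dv
      rw [if_neg hqn]
  unfold GC.HH
  rw [abs_mul, abs_of_nonneg hκ, abs_of_nonneg (by linarith)]
  exact mul_le_mul_of_nonneg_left (by linarith) hκ

private lemma nc_nc_cnt (T K g s : ℕ) (hK : 1 ≤ K) (hg : 1 ≤ g)
    (hpg : ∀ p : ℕ, p.Prime → p ∣ K → p ∣ s → p ∣ g) (S : Finset ℕ) (hS : ∀ p ∈ S, p.Prime) :
    (((Icc 1 T).filter (fun t : ℕ => t ≡ s [MOD K] ∧ ∀ p ∈ S, p ∣ t)).card : ℝ) ≤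
      (T : ℝ) * g / K * (1 / ((∏ p ∈ S, p : ℕ) : ℝ)) + 1 := by
  classical
  set A := (Icc 1 T).filter (fun t : ℕ => t ≡ s [MOD K] ∧ ∀ p ∈ S, p ∣ t) with hA
  have hS0 : 0 < ∏ p ∈ S, p := Finset.prod_pos fun p hp => (hS p hp).pos
  have hpos : (0 : ℝ) ≤ (T : ℝ) * g / K * (1 / ((∏ p ∈ S, p : ℕ) : ℝ)) := by positivity
  rcases A.eq_empty_or_nonempty with he | hne
  · rw [he, card_empty]
    push_cast at hpos ⊢
    linarith
  · set x0 := A.min' hne with hx0
    have hx0A : x0 ∈ A := A.min'_mem hne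
    have hmem : ∀ x, x ∈ A ↔ (1 ≤ x ∧ x ≤ T) ∧ x ≡ s [MOD K] ∧ ∀ p ∈ S, p ∣ x := by
      intro x
      rw [hA, mem_filter, mem_Icc]
    obtain ⟨_, hx0c, hx0S⟩ := (hmem x0).1 hx0A
    set S1 := S.filter (fun p => p ∣ K) with hS1
    set S2 := S.filter (fun p => ¬ p ∣ K) with hS2
    have hprod : (∏ p ∈ S1, p) * (∏ p ∈ S2, p) = ∏ p ∈ S, p :=
      Finset.prod_filter_mul_prod_filter_not S (fun p => p ∣ K) (fun p => p)
    have hS1g : ∏ p ∈ S1, p ∣ g := by
      apply Finset.prod_primes_dvd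
      · intro p hp
        exact (hS p (mem_filter.1 hp).1).prime
      · intro p hp
        obtain ⟨h1, h2⟩ := mem_filter.1 hp
        apply hpg p (hS p h1) h2
        have h3 : x0 ≡ s [MOD p] := hx0c.of_dvd h2
        exact (h3.dvd_iff dvd_rfl).1 (hx0S p h1)
    have hS1le : ∏ p ∈ S1, p ≤ g := Nat.le_of_dvd (by omega) hS1g
    have hcop : Nat.Coprime K (∏ p ∈ S2, p) := by
      apply Nat.Coprime.prod_right
      intro p hp
      obtain ⟨h1, h2⟩ := mem_filter.1 hp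
      exact ((Nat.Prime.coprime_iff_not_dvd (hS p h1)).2 h2).symm
    have hS20 : 0 < ∏ p ∈ S2, p := Finset.prod_pos fun p hp => (hS p (mem_filter.1 hp).1).pos
    have hdiv : ∀ x ∈ A, x0 ≤ x ∧ K * ∏ p ∈ S2, p ∣ x - x0 := by
      intro x hx
      have hle : x0 ≤ x := A.min'_le x hx
      obtain ⟨_, hxc, hxS⟩ := (hmem x).1 hx
      refine ⟨hle, ?_⟩
      apply hcop.mul_dvd_of_dvd_of_dvd
      · exact (Nat.modEq_iff_dvd' hle).1 (hx0c.trans hxc.symm)
      · apply Finset.prod_primes_dvd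
        · intro p hp
          exact (hS p (mem_filter.1 hp).1).prime
        · intro p hp
          have h1 := (mem_filter.1 hp).1
          exact Nat.dvd_sub (hxS p h1) (hx0S p h1)
    have hcard : A.card ≤ T / (K * ∏ p ∈ S2, p) + 1 := by
      have h1 : A.card ≤ (range (T / (K * ∏ p ∈ S2, p) + 1)).card := by
        apply Finset.card_le_card_of_injOn (fun x => (x - x0) / (K * ∏ p ∈ S2, p))
        · intro x hx
          have hx' := Finset.mem_coe.1 hx
          have h2 := ((hmem x).1 hx').1.2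
          rw [Finset.coe_range, Set.mem_Iio]
          have h3 : (x - x0) / (K * ∏ p ∈ S2, p) ≤ T / (K * ∏ p ∈ S2, p) :=
            Nat.div_le_div_right (by omega)
          exact Nat.lt_succ_of_le h3
        · intro x hx y hy hxy
          obtain ⟨h1, h2⟩ := hdiv x (Finset.mem_coe.1 hx)
          obtain ⟨h3, h4⟩ := hdiv y (Finset.mem_coe.1 hy)
          simp only at hxy
          have h5 := Nat.div_mul_cancel h2
          have h6 := Nat.div_mul_cancel h4
          rw [hxy, h6] at h5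
          omega
      rwa [card_range] at h1
    have h1 : (A.card : ℝ) ≤ ((T / (K * ∏ p ∈ S2, p) : ℕ) : ℝ) + 1 := by exact_mod_cast hcard
    have h2 : ((T / (K * ∏ p ∈ S2, p) : ℕ) : ℝ) ≤ (T : ℝ) / ((K * ∏ p ∈ S2, p : ℕ) : ℝ) :=
      Nat.cast_div_le
    have h3 : (T : ℝ) / ((K * ∏ p ∈ S2, p : ℕ) : ℝ) ≤
        (T : ℝ) * g / K * (1 / ((∏ p ∈ S, p : ℕ) : ℝ)) := by
      have hK0 : (0 : ℝ) < K := by exact_mod_cast hK
      have hS2r : (0 : ℝ) < ((∏ p ∈ S2, p : ℕ) : ℝ) := by exact_mod_cast hS20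
      have hSr : (0 : ℝ) < ((∏ p ∈ S, p : ℕ) : ℝ) := by exact_mod_cast hS0
      rw [Nat.cast_mul, mul_one_div, div_div, div_le_div_iff₀ (by positivity) (by positivity)]
      have h4 : ((∏ p ∈ S, p : ℕ) : ℝ) ≤ g * ((∏ p ∈ S2, p : ℕ) : ℝ) := by
        rw [← hprod, Nat.cast_mul]
        apply mul_le_mul_of_nonneg_right _ hS2r.le
        exact_mod_cast hS1le
      calc (T : ℝ) * (K * ((∏ p ∈ S, p : ℕ) : ℝ))
          ≤ T * (K * (g * ((∏ p ∈ S2, p : ℕ) : ℝ))) := by gcongr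
        _ = _ := by ring
    linarith

private lemma nc_nc_card (w k : ℕ) : (((prs w).powersetCard k).card : ℝ) ≤ (w : ℝ) ^ k := by
  rw [Finset.card_powersetCard]
  have h1 : (prs w).card ≤ w := by
    have h2 : (prs w).card ≤ (Icc 1 w).card := Finset.card_le_card (Finset.filter_subset _ _)
    simpa using h2
  have h3 : (prs w).card.choose k ≤ w ^ k :=
    (Nat.choose_le_pow _ _).trans (Nat.pow_le_pow_left h1 k)
  exact_mod_cast h3

private lemma nc_nc_log (m : ℕ) (C : ℝ) (hC : 0 < C) :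
    ∀ᶠ X : ℝ in atTop, C * Real.log X ^ m ≤ X ^ (1 / 2 : ℝ) := by
  have h1 := (isLittleO_log_rpow_rpow_atTop (m : ℝ) (by norm_num : (0 : ℝ) < 1 / 2)).bound
    (by positivity : (0 : ℝ) < 1 / C)
  filter_upwards [h1, eventually_ge_atTop 1] with X h3 hX
  have hL : 0 ≤ Real.log X := Real.log_nonneg hX
  rw [Real.rpow_natCast, Real.norm_of_nonneg (pow_nonneg hL m),
    Real.norm_of_nonneg (Real.rpow_nonneg (by linarith) _)] at h3
  rw [one_div, inv_mul_eq_div, le_div_iff₀ hC] at h3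
  linarith

theorem p_nc : S_nc := by
  intro htl A B
  classical
  obtain ⟨K1, hK1⟩ := htl 1 le_rfl
  set K' : ℕ := A + B + 4 with hK'
  refine ⟨max (2 * K') (max K1 (B + 1)), ?_⟩
  have hlogt : Tendsto (fun X : ℝ => Real.log X) atTop atTop := Real.tendsto_log_atTop
  filter_upwards [hK1, hlogt.eventually (eventually_ge_atTop (8000 : ℝ)),
    nc_nc_log (A + 1) 2000 (by norm_num), eventually_ge_atTop (1 : ℝ),
    nc_nc_log B 4 (by norm_num)] with X h1 hL8 h7 hX1 h8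
  intro w k hPm K g s β hK hKX hg hgX hpg hcop
  set L : ℝ := Real.log X with hL
  have hL1 : 1 ≤ L := by linarith
  have hLL : 0 ≤ Real.log L := Real.log_nonneg hL1
  have hX0 : 0 < X := by linarith
  obtain ⟨hPw, hPk, hPe, hPwk⟩ := hPm
  have hmax1 : (2 * K' : ℕ) ≤ max (2 * K') (max K1 (B + 1)) := le_max_left _ _
  have hmax2 : K1 ≤ max (2 * K') (max K1 (B + 1)) :=
    le_trans (le_max_left _ _) (le_max_right _ _)
  have hmax3 : B + 1 ≤ max (2 * K') (max K1 (B + 1)) :=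
    le_trans (le_max_right _ _) (le_max_right _ _)
  have hPm1 : Pm X (1 / 50) K1 w k := by
    refine ⟨le_trans (pow_le_pow_right₀ hL1 hmax2) hPw, le_trans ?_ hPk, hPe, hPwk.trans ?_⟩
    · exact mul_le_mul_of_nonneg_right (by exact_mod_cast hmax2) hLL
    · exact Real.rpow_le_rpow_of_exponent_le hX1 (by norm_num)
  obtain ⟨ht1, _, ht3, _⟩ := h1 w k hPm1
  have hκ0 := inv_pos.2 (nc_nc_kap w)
  have hK0 : (0 : ℝ) < K := by exact_mod_cast hK
  -- the tail of the sieve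
  set e : ℝ := E (fun p => 1 / (p : ℝ)) (prs w) (k + 1) with he
  have he0 : 0 ≤ e := Lib.MP_0da313_nt.E_nonneg (fun p _ => by positivity) _
  have hρ : ∀ p ∈ prs w, 0 ≤ (fun p : ℕ => 1 / (p : ℝ)) p ∧
      (fun p : ℕ => 1 / (p : ℝ)) p ≤ ((1 : ℕ) : ℝ) / p := fun p _ =>
    ⟨by positivity, by simp⟩
  have he1 : e ≤ 2 * Real.exp (-(k : ℝ) / 2) := by
    have e1 := ht1 (fun p => 1 / (p : ℝ)) (prs w) k (Finset.Subset.refl _) hρ
      (by linarith [Nat.cast_nonneg (α := ℝ) k])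
    have e2 := ht1 (fun p => 1 / (p : ℝ)) (prs w) (k + 1) (Finset.Subset.refl _) hρ
      (by push_cast; linarith [Nat.cast_nonneg (α := ℝ) k])
    have e3 : U (fun p => 1 / (p : ℝ)) (prs w) (k + 1) =
        U (fun p => 1 / (p : ℝ)) (prs w) k - e := by
      rw [he]
      unfold Lib.MP_0da313_nt.U
      rw [Finset.sum_range_succ _ (k + 1), pow_succ, hPe.neg_one_pow]
      ring
    have e4 := (abs_le.1 e1).2
    have e5 := (abs_le.1 e2).1
    linarith
  have hexp : Real.exp (-(k : ℝ) / 2) ≤ 1 / L ^ K' := by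
    have e1 : (2 * K' : ℝ) * Real.log L ≤ k := by
      refine le_trans (mul_le_mul_of_nonneg_right ?_ hLL) hPk
      exact_mod_cast hmax1
    have e2 : Real.exp (-(k : ℝ) / 2) ≤ Real.exp (-(K' * Real.log L)) := by
      apply Real.exp_le_exp.2
      linarith
    have e3 : Real.exp (-(K' * Real.log L)) = (L ^ K')⁻¹ := by
      rw [Real.exp_neg, Real.exp_nat_mul, Real.exp_log (by linarith)]
    rw [e3] at e2
    rw [one_div]
    exact e2
  set P : ℝ := (((prs w).powersetCard (k + 1)).card : ℝ) with hP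
  have hP0 : 0 ≤ P := Nat.cast_nonneg _
  have hP1 : P ≤ X ^ (1 / 100 : ℝ) := (nc_nc_card w (k + 1)).trans hPwk
  -- the common prime
  obtain ⟨p0, hp0, hp0s, hp0K⟩ := Nat.Prime.not_coprime_iff_dvd.1 hcop
  have hp0g : p0 ∣ g := hpg p0 hp0 hp0K hp0s
  have hp0L : (p0 : ℝ) ≤ L ^ B := by
    refine le_trans ?_ hgX
    exact_mod_cast Nat.le_of_dvd (by omega) hp0g
  have hp0w : p0 ≤ w := by
    have e1 : (p0 : ℝ) ≤ w := by
      refine hp0L.trans (le_trans ?_ hPw)
      apply pow_le_pow_right₀ hL1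
      omega
    exact_mod_cast e1
  have hp0p : p0 ∈ prs w := nc_nc_prs.2 ⟨hp0, hp0w⟩
  have hp0X : (p0 : ℝ) < 98 / 100 * X := by
    have e1 : X ^ (1 / 2 : ℝ) ≤ X := by
      calc X ^ (1 / 2 : ℝ) ≤ X ^ (1 : ℝ) := Real.rpow_le_rpow_of_exponent_le hX1 (by norm_num)
        _ = X := Real.rpow_one _
    have e2 : 4 * (p0 : ℝ) ≤ X := by
      have := mul_le_mul_of_nonneg_left hp0L (by norm_num : (0 : ℝ) ≤ 4)
      linarith
    have e3 : (0 : ℝ) < p0 := by exact_mod_cast hp0.pos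
    linarith
  -- pointwise
  have htz : ∀ y : ℝ, 0 ≤ tz y ∧ tz y ≤ 1 := fun y => by
    unfold GC.tz
    exact ⟨le_min zero_le_one (le_max_left _ _), min_le_left _ _⟩
  have hpt : ∀ t ∈ (Icc 1 ⌊2 * X⌋₊).filter (fun t => t ≡ s [MOD K]),
      ‖((((thP t - HH w k t) * tz (t / X) : ℝ) : ℂ) * ex (β * t))‖ ≤
      (kapD w)⁻¹ * ∑ S ∈ (prs w).powersetCard (k + 1),
        (if ∀ q ∈ S, q ∣ t then (1 : ℝ) else 0) := by
    intro t ht
    obtain ⟨ht1, ht2⟩ := mem_filter.1 ht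
    have hsum0 : 0 ≤ (kapD w)⁻¹ * ∑ S ∈ (prs w).powersetCard (k + 1),
        (if ∀ q ∈ S, q ∣ t then (1 : ℝ) else 0) :=
      mul_nonneg hκ0.le (Finset.sum_nonneg fun S _ => by split <;> norm_num)
    have hex : ‖ex (β * t)‖ = 1 := by
      unfold SP80.ex
      exact Complex.norm_exp_ofReal_mul_I _
    rw [norm_mul, hex, mul_one, Complex.norm_real, Real.norm_eq_abs, abs_mul,
      abs_of_nonneg (htz _).1]
    have hp0t : p0 ∣ t := by
      have h3 : t ≡ s [MOD p0] := ht2.of_dvd hp0K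
      exact (h3.dvd_iff dvd_rfl).2 hp0s
    by_cases h0 : tz (t / X) = 0
    · rw [h0, mul_zero]
      exact hsum0
    · have h9 : 98 / 100 * X ≤ t := by
        by_contra hcon
        push Not at hcon
        apply h0
        have e1 : (t : ℝ) / X < 98 / 100 := by
          rw [div_lt_iff₀ hX0]
          exact hcon
        have e2 : |(t : ℝ) / X - 1| ≥ 1 / 50 := by
          rw [abs_of_nonpos (by linarith)]
          linarith
        unfold GC.tz
        rw [max_eq_left (by linarith), min_eq_right (by norm_num)]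
      have h10 : thP t = 0 := by
        unfold CH.thP
        rw [if_neg]
        intro htp
        have e1 : p0 = t := (Nat.prime_dvd_prime_iff_eq hp0 htp).1 hp0t
        rw [← e1] at h9
        linarith
      rw [h10, zero_sub, abs_neg]
      calc |HH w k t| * tz (t / X) ≤ |HH w k t| * 1 :=
            mul_le_mul_of_nonneg_left (htz _).2 (abs_nonneg _)
        _ = |HH w k t| := mul_one _
        _ ≤ _ := nc_nc_HH w k t p0 hPe hp0p hp0t
  have hT : ((⌊2 * X⌋₊ : ℕ) : ℝ) ≤ 2 * X := Nat.floor_le (by positivity)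
  have hg0 : (0 : ℝ) ≤ g := Nat.cast_nonneg g
  unfold GC.ES
  refine (norm_sum_le _ _).trans ((Finset.sum_le_sum hpt).trans ?_)
  rw [← Finset.mul_sum, Finset.sum_comm]
  have h2 : ∀ S ∈ (prs w).powersetCard (k + 1),
      ∑ t ∈ (Icc 1 ⌊2 * X⌋₊).filter (fun t => t ≡ s [MOD K]),
        (if ∀ q ∈ S, q ∣ t then (1 : ℝ) else 0) ≤
      2 * X * g / K * (∏ p ∈ S, (1 / (p : ℝ))) + 1 := by
    intro S hS
    have hSp : ∀ p ∈ S, p.Prime := fun p hp =>
      (nc_nc_prs.1 ((Finset.mem_powersetCard.1 hS).1 hp)).1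
    have h3 := nc_nc_cnt ⌊2 * X⌋₊ K g s hK hg hpg S hSp
    rw [← Finset.sum_filter, Finset.sum_const, nsmul_eq_mul, mul_one, Finset.filter_filter]
    refine h3.trans ?_
    have e1 : (1 / ((∏ p ∈ S, p : ℕ) : ℝ)) = ∏ p ∈ S, (1 / (p : ℝ)) := by
      rw [Finset.prod_div_distrib, Finset.prod_const_one]
      push_cast
      rfl
    rw [e1]
    have e2 : 0 ≤ ∏ p ∈ S, (1 / (p : ℝ)) := Finset.prod_nonneg fun p _ => by positivity
    have e3 : ((⌊2 * X⌋₊ : ℕ) : ℝ) * g / K ≤ 2 * X * g / K := by gcongr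
    linarith [mul_le_mul_of_nonneg_right e3 e2]
  have hsum : ∑ S ∈ (prs w).powersetCard (k + 1),
      ∑ t ∈ (Icc 1 ⌊2 * X⌋₊).filter (fun t => t ≡ s [MOD K]),
        (if ∀ q ∈ S, q ∣ t then (1 : ℝ) else 0) ≤ 2 * X * g / K * e + P := by
    refine (Finset.sum_le_sum h2).trans (le_of_eq ?_)
    rw [Finset.sum_add_distrib, ← Finset.mul_sum, Finset.sum_const, nsmul_eq_mul, mul_one]
    rfl
  have hb1 : 2 * X * g / K * e ≤ X / K * (4 * L ^ B * (1 / L ^ K')) := by
    calc 2 * X * g / K * e ≤ 2 * X * L ^ B / K * (2 * (1 / L ^ K')) := by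
          apply mul_le_mul _ (he1.trans (by linarith)) he0 (by positivity)
          gcongr
      _ = _ := by ring
  have hL0 : 0 < L := by linarith
  calc (kapD w)⁻¹ * ∑ S ∈ (prs w).powersetCard (k + 1),
      ∑ t ∈ (Icc 1 ⌊2 * X⌋₊).filter (fun t => t ≡ s [MOD K]),
        (if ∀ q ∈ S, q ∣ t then (1 : ℝ) else 0)
      ≤ (1000 * L) * (X / K * (4 * L ^ B * (1 / L ^ K')) + X ^ (1 / 100 : ℝ)) := by
        apply mul_le_mul ht3 (hsum.trans (add_le_add hb1 hP1))
          (Finset.sum_nonneg fun S _ => Finset.sum_nonneg fun t _ => by split <;> norm_num)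
          (by positivity)
    _ = X / K * (4000 * L ^ (B + 1) / L ^ K') + 1 / 2 * (2000 * L) * X ^ (1 / 100 : ℝ) := by
        ring
    _ ≤ 1 / 2 * (X / K / L ^ A) + 1 / 2 * (X / K / L ^ A) := by
        apply add_le_add
        · have e1 : L ^ K' = L ^ A * L ^ (B + 1) * L ^ 3 := by
            rw [hK', ← pow_add, ← pow_add]
            congr 1
          have e2 : X / K * (4000 * L ^ (B + 1) / L ^ K') = 4000 / L ^ 3 * (X / K / L ^ A) := by
            rw [e1]
            field_simp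
          rw [e2]
          apply mul_le_mul_of_nonneg_right _ (by positivity)
          rw [div_le_iff₀ (by positivity)]
          have e3 : L ≤ L ^ 3 := by
            calc L = L ^ 1 := (pow_one _).symm
              _ ≤ L ^ 3 := pow_le_pow_right₀ hL1 (by norm_num)
          linarith
        · rw [mul_assoc]
          apply mul_le_mul_of_nonneg_left _ (by norm_num)
          rw [div_div, le_div_iff₀ (by positivity)]
          calc 2000 * L * X ^ (1 / 100 : ℝ) * (K * L ^ A)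
              = (2000 * L ^ (A + 1)) * (X ^ (1 / 100 : ℝ) * K) := by ring
            _ ≤ X ^ (1 / 2 : ℝ) * (X ^ (1 / 100 : ℝ) * X ^ (1 / 50 : ℝ)) := by gcongr
            _ = X ^ (1 / 2 + (1 / 100 + 1 / 50) : ℝ) := by
                rw [Real.rpow_add hX0, Real.rpow_add hX0]
            _ ≤ X ^ (1 : ℝ) := Real.rpow_le_rpow_of_exponent_le hX1 (by norm_num)
            _ = X := Real.rpow_one _
    _ = X / K / L ^ A := by ring

end Pool.Agent.NC.J
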