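import Pool.Agent.Lib.MP_0da313_nt.NC.J
import Pool.Agent.Lib.MP_89da58_nt.Bv

set_option autoImplicit false

/-! Piece thc of the project NC. -/

namespace Pool.Agent.NC.J

open Finset Filter
open ArithmeticFunction (vonMangoldt)
open Pool.Agent.MP89da58 (tri primChars kapD sum_not_coprime_le')
open Pool.Agent.CH (thP)
open Pool.Agent.CM (wd mu)
open Pool.Agent.GC (pL)
open Pool.Agent.GC.M (R_ch R_pn)

private lemma nc_thc_wd0 (lam X : ℝ) (n : ℕ) : 0 ≤ wd lam X n := le_max_left _ _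

private lemma nc_thc_wd1 (lam X : ℝ) (n : ℕ) : wd lam X n ≤ 1 :=
  max_le zero_le_one (by linarith [abs_nonneg (lam * Real.log (n / X))])

private lemma nc_thc_th (t : ℕ) : thP t ≤ vonMangoldt t := by
  unfold thP
  split_ifs with h
  · rw [ArithmeticFunction.vonMangoldt_apply_prime h]
  · exact ArithmeticFunction.vonMangoldt_nonneg

private lemma nc_thc_sum (X : ℝ) (hX : 1 ≤ X) :
    ∑ t ∈ Icc 1 ⌊3 * X⌋₊, (vonMangoldt t - thP t) ≤
      2 * Real.sqrt (3 * X) * Real.log (3 * X) := by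
  have h := Chebyshev.abs_psi_sub_theta_le_sqrt_mul_log (x := 3 * X) (by linarith)
  have h1 := (abs_le.1 h).2
  have e1 : Chebyshev.psi (3 * X) = ∑ t ∈ Icc 1 ⌊3 * X⌋₊, vonMangoldt t := rfl
  have e2 : Chebyshev.theta (3 * X) = ∑ t ∈ Icc 1 ⌊3 * X⌋₊, thP t := by
    unfold Chebyshev.theta thP
    rw [Finset.sum_filter]
    rfl
  rw [Finset.sum_sub_distrib, ← e1, ← e2]
  exact h1

/-- powers of the logarithm are small -/
private lemma nc_thc_logpow (n : ℕ) (c : ℝ) (hc : 0 < c) (C : ℝ) :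
    ∀ᶠ X : ℝ in atTop, C * (Real.log X) ^ n ≤ X ^ c := by
  have h1 : (fun X : ℝ => Real.log X ^ (n : ℝ)) =o[atTop] fun X => X ^ c :=
    isLittleO_log_rpow_rpow_atTop _ hc
  have h2 := h1.def (show (0 : ℝ) < 1 / (|C| + 1) by positivity)
  filter_upwards [h2, eventually_ge_atTop (1 : ℝ)] with X h3 h4
  have hL : 0 ≤ Real.log X := Real.log_nonneg h4
  rw [Real.rpow_natCast, Real.norm_of_nonneg (pow_nonneg hL _),
    Real.norm_of_nonneg (Real.rpow_nonneg (by linarith) _)] at h3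
  have h5 : (|C| + 1) * (Real.log X) ^ n ≤ X ^ c := by
    have h6 : 0 < |C| + 1 := by positivity
    rw [div_mul_eq_mul_div, one_mul, le_div_iff₀ h6] at h3
    linarith
  have h6 : C * (Real.log X) ^ n ≤ (|C| + 1) * (Real.log X) ^ n :=
    mul_le_mul_of_nonneg_right (by linarith [le_abs_self C]) (pow_nonneg hL _)
  exact h6.trans h5

/-- one class -/
private lemma nc_thc_one (hch : R_ch) {X lam : ℝ} (hX : 1 ≤ X) {K s : ℕ} (hK : 1 ≤ K)
    (hs : s.Coprime K) {Er : ℝ}
    (hE : |∑ n ∈ Icc 1 ⌊3 * X⌋₊, vonMangoldt n * wd lam X n - mu lam * X| ≤ Er) :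
    |∑ t ∈ (Icc 1 ⌊3 * X⌋₊).filter (fun t => t ≡ s [MOD K]), thP t * wd lam X t -
      mu lam * X / (Nat.totient K : ℝ)| ≤
    1 / (Nat.totient K : ℝ) * (∑ r ∈ K.divisors.filter (fun r => 2 ≤ r), pL lam X r +
      (Er + K * Real.log (3 * X) + K * (K * Real.log (3 * X)))) +
      2 * Real.sqrt (3 * X) * Real.log (3 * X) := by
  classical
  have hKne : NeZero K := ⟨by omega⟩
  have hφ : (0 : ℝ) < Nat.totient K := by
    exact_mod_cast Nat.totient_pos.2 (by omega)
  set S : Finset ℕ := Icc 1 ⌊3 * X⌋₊ with hS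
  set N0 : ℝ := (K : ℝ) * Real.log (3 * X) with hN0
  have hN0' : ∑ n ∈ S.filter (fun n => ¬ n.Coprime K), vonMangoldt n ≤ N0 :=
    sum_not_coprime_le' hX K (by omega)
  set g : ℕ → ℂ := fun n => (vonMangoldt n : ℂ) * (wd lam X n : ℂ) with hg
  have hgn : ∀ n, ‖g n‖ ≤ vonMangoldt n := by
    intro n
    simp only [hg]
    rw [norm_mul, Complex.norm_real, Complex.norm_real,
      Real.norm_of_nonneg ArithmeticFunction.vonMangoldt_nonneg,
      Real.norm_of_nonneg (nc_thc_wd0 lam X n)]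
    exact mul_le_of_le_one_right ArithmeticFunction.vonMangoldt_nonneg (nc_thc_wd1 lam X n)
  have hgN0 : ∑ n ∈ S.filter (fun n => ¬ n.Coprime K), ‖g n‖ ≤ N0 :=
    (Finset.sum_le_sum fun n _ => hgn n).trans hN0'
  set f : ZMod K → ℂ := fun x => if x = (s : ZMod K) then 1 else 0 with hf
  have hf0 : ∀ x, ¬ IsUnit x → f x = 0 := by
    intro x hx
    simp only [hf]
    rw [if_neg]
    rintro rfl
    exact hx ((ZMod.isUnit_iff_coprime s K).2 hs)
  have hfn : ∑ x : ZMod K, ‖f x‖ ≤ 1 := by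
    refine le_of_eq ?_
    rw [Finset.sum_eq_single (s : ZMod K)]
    · simp [hf]
    · intro x _ hx
      simp [hf, hx]
    · intro h
      exact absurd (Finset.mem_univ _) h
  have hfsum : ∑ x : ZMod K, f x = 1 := by
    simp [hf]
  have hfG : ∀ n : ℕ, f (n : ZMod K) = if n ≡ s [MOD K] then 1 else 0 := by
    intro n
    simp only [hf]
    by_cases h : n ≡ s [MOD K]
    · rw [if_pos h, if_pos ((ZMod.natCast_eq_natCast_iff n s K).2 h)]
    · rw [if_neg h, if_neg (fun h' => h ((ZMod.natCast_eq_natCast_iff n s K).1 h'))]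
  set A0 : ℝ := ∑ t ∈ S.filter (fun t => t ≡ s [MOD K]), vonMangoldt t * wd lam X t with hA0
  have hA1 : ∑ n ∈ S, g n * f (n : ZMod K) = (A0 : ℂ) := by
    rw [hA0, Finset.sum_filter]
    push_cast
    refine Finset.sum_congr rfl fun n _ => ?_
    rw [hfG n]
    by_cases h : n ≡ s [MOD K]
    · rw [if_pos h, if_pos h, mul_one]
      simp only [hg]
      push_cast
      rfl
    · rw [if_neg h, if_neg h, mul_zero]
      simp
  have hCh := hch K f 1 hf0 hfn S g
  rw [hfsum, hA1, mul_one] at hCh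
  set Sc : ℂ := ∑ n ∈ S.filter (fun n => n.Coprime K), g n with hSc
  set Sg : ℂ := ∑ n ∈ S, g n with hSg
  have hScSg : ‖Sc - Sg‖ ≤ N0 := by
    have h1 : Sg = Sc + ∑ n ∈ S.filter (fun n => ¬ n.Coprime K), g n := by
      rw [hSg, hSc, Finset.sum_filter_add_sum_filter_not]
    rw [h1, sub_add_cancel_left, norm_neg]
    exact (norm_sum_le _ _).trans hgN0
  have hSgE : ‖Sg - ((mu lam * X : ℝ) : ℂ)‖ ≤ Er := by
    have h1 : Sg - ((mu lam * X : ℝ) : ℂ) =
        ((∑ n ∈ S, vonMangoldt n * wd lam X n - mu lam * X : ℝ) : ℂ) := by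
      rw [hSg]
      push_cast
      rfl
    rw [h1, Complex.norm_real]
    exact hE
  have hmain : ‖1 / (Nat.totient K : ℂ) * Sc -
      ((mu lam * X / (Nat.totient K : ℝ) : ℝ) : ℂ)‖ ≤ 1 / (Nat.totient K : ℝ) * (Er + N0) := by
    have h1 : 1 / (Nat.totient K : ℂ) * Sc - ((mu lam * X / (Nat.totient K : ℝ) : ℝ) : ℂ) =
      (1 / (Nat.totient K : ℂ)) * ((Sg - ((mu lam * X : ℝ) : ℂ)) + (Sc - Sg)) := by
      push_cast
      ring
    rw [h1, norm_mul, norm_div, norm_one, Complex.norm_natCast]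
    exact mul_le_mul_of_nonneg_left ((norm_add_le _ _).trans (add_le_add hSgE hScSg))
      (by positivity)
  have hCh2 : ‖(A0 : ℂ) - 1 / (Nat.totient K : ℂ) * Sc‖ ≤
      1 / (Nat.totient K : ℝ) *
        (∑ r ∈ K.divisors.filter (fun r => 2 ≤ r), pL lam X r + K * N0) := by
    refine hCh.trans ?_
    refine mul_le_mul_of_nonneg_left ?_ (by positivity)
    refine add_le_add (le_of_eq ?_) (mul_le_mul_of_nonneg_left hgN0 (Nat.cast_nonneg _))
    refine Finset.sum_congr rfl fun r _ => ?_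
    unfold pL
    refine Finset.sum_congr rfl fun χ _ => ?_
    congr 1
    funext χ'
    congr 1
    refine Finset.sum_congr rfl fun n _ => ?_
    simp only [hg]
    ring
  have hΛ : |A0 - mu lam * X / (Nat.totient K : ℝ)| ≤
      1 / (Nat.totient K : ℝ) * (∑ r ∈ K.divisors.filter (fun r => 2 ≤ r), pL lam X r + K * N0) +
      1 / (Nat.totient K : ℝ) * (Er + N0) := by
    rw [← Real.norm_eq_abs, ← Complex.norm_real]
    have h1 : ((A0 - mu lam * X / (Nat.totient K : ℝ) : ℝ) : ℂ) =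
        ((A0 : ℂ) - 1 / (Nat.totient K : ℂ) * Sc) + (1 / (Nat.totient K : ℂ) * Sc -
      ((mu lam * X / (Nat.totient K : ℝ) : ℝ) : ℂ)) := by
      rw [Complex.ofReal_sub]
      ring
    rw [h1]
    exact (norm_add_le _ _).trans (add_le_add hCh2 hmain)
  have hth : |∑ t ∈ S.filter (fun t => t ≡ s [MOD K]), thP t * wd lam X t - A0| ≤
      2 * Real.sqrt (3 * X) * Real.log (3 * X) := by
    rw [hA0, ← Finset.sum_sub_distrib]
    refine (Finset.abs_sum_le_sum_abs _ _).trans ?_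
    have h2 : ∀ t ∈ S.filter (fun t => t ≡ s [MOD K]),
        |thP t * wd lam X t - vonMangoldt t * wd lam X t| ≤ vonMangoldt t - thP t := by
      intro t _
      have h3 : 0 ≤ vonMangoldt t - thP t := by linarith [nc_thc_th t]
      rw [← sub_mul, abs_mul, abs_of_nonneg (nc_thc_wd0 lam X t), abs_sub_comm, abs_of_nonneg h3]
      exact mul_le_of_le_one_right h3 (nc_thc_wd1 lam X t)
    refine (Finset.sum_le_sum h2).trans ?_
    refine le_trans ?_ (nc_thc_sum X hX)
    refine Finset.sum_le_sum_of_subset_of_nonneg (Finset.filter_subset _ _) fun t _ _ => ?_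
    linarith [nc_thc_th t]
  have h9 := abs_add_le (∑ t ∈ S.filter (fun t => t ≡ s [MOD K]), thP t * wd lam X t - A0)
    (A0 - mu lam * X / (Nat.totient K : ℝ))
  rw [sub_add_sub_cancel] at h9
  refine h9.trans ?_
  refine (add_le_add hth hΛ).trans (le_of_eq ?_)
  ring

theorem p_thc : S_thc := by
  intro hch hpn A
  have e1 := hpn (A + 1)
  have e4 := nc_thc_logpow (A + 1) (9 / 20) (by norm_num) 16
  have e5 : ∀ᶠ X : ℝ in atTop, 4 ≤ Real.log X := Real.tendsto_log_atTop.eventually_ge_atTop 4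
  filter_upwards [e1, e4, e5, eventually_ge_atTop (3 : ℝ)] with X h1 h4 h5 hX3
  intro lam K s hlam hK hKX hs
  have hX0 : (0 : ℝ) < X := by linarith
  have hX1 : (1 : ℝ) ≤ X := by linarith
  set L := Real.log X with hL
  have hL0 : 0 < L := by linarith
  have hlog3 : Real.log (3 * X) ≤ 2 * L := by
    rw [Real.log_mul (by norm_num) hX0.ne']
    have : Real.log 3 ≤ L := Real.log_le_log (by norm_num) hX3
    linarith
  have hlog30 : 0 ≤ Real.log (3 * X) := Real.log_nonneg (by linarith)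
  have hφ : (0 : ℝ) < Nat.totient K := by
    exact_mod_cast Nat.totient_pos.2 (by omega)
  have hφK : (Nat.totient K : ℝ) ≤ K := by exact_mod_cast Nat.totient_le K
  set Y : ℝ := X ^ (1 / 20 : ℝ) with hY
  have hY1 : 1 ≤ Y := Real.one_le_rpow hX1 (by norm_num)
  have hK0 : (0 : ℝ) ≤ K := Nat.cast_nonneg _
  refine (nc_thc_one hch hX1 hK hs (h1 lam hlam)).trans ?_
  have hsq : Real.sqrt (3 * X) ≤ 2 * X ^ (1 / 2 : ℝ) := by
    rw [← Real.sqrt_eq_rpow]
    have h6 : (2 : ℝ) * Real.sqrt X = Real.sqrt (4 * X) := by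
      rw [Real.sqrt_mul (by norm_num)]
      have : Real.sqrt 4 = 2 := by
        rw [show (4 : ℝ) = 2 ^ 2 by norm_num, Real.sqrt_sq (by norm_num)]
      rw [this]
    rw [h6]
    exact Real.sqrt_le_sqrt (by linarith)
  set Z : ℝ := X ^ (11 / 20 : ℝ) with hZ
  have hZ0 : 0 < Z := by positivity
  have hYZ : Y ^ 2 ≤ Z := by
    rw [hY, hZ, ← Real.rpow_natCast, ← Real.rpow_mul hX0.le]
    exact Real.rpow_le_rpow_of_exponent_le hX1 (by norm_num)
  have hYY : Y ≤ Y ^ 2 := by nlinarith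
  have hYX : Y * X ^ (1 / 2 : ℝ) = Z := by
    rw [hY, hZ, ← Real.rpow_add hX0]
    norm_num
  have b1 : (K : ℝ) * Real.log (3 * X) ≤ 2 * L * Z := by
    calc (K : ℝ) * Real.log (3 * X) ≤ Y * (2 * L) := mul_le_mul hKX hlog3 hlog30 (by linarith)
      _ = 2 * L * Y := by ring
      _ ≤ 2 * L * Z := mul_le_mul_of_nonneg_left (hYY.trans hYZ) (by positivity)
  have b2 : (K : ℝ) * (K * Real.log (3 * X)) ≤ 2 * L * Z := by
    calc (K : ℝ) * (K * Real.log (3 * X)) ≤ Y * (Y * (2 * L)) :=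
          mul_le_mul hKX (mul_le_mul hKX hlog3 hlog30 (by linarith)) (by positivity) (by linarith)
      _ = 2 * L * Y ^ 2 := by ring
      _ ≤ 2 * L * Z := mul_le_mul_of_nonneg_left hYZ (by positivity)
  have b3 : (Nat.totient K : ℝ) * (2 * Real.sqrt (3 * X) * Real.log (3 * X)) ≤ 8 * L * Z := by
    calc (Nat.totient K : ℝ) * (2 * Real.sqrt (3 * X) * Real.log (3 * X))
        ≤ Y * (2 * (2 * X ^ (1 / 2 : ℝ)) * (2 * L)) := by
          refine mul_le_mul (hφK.trans hKX) ?_ (by positivity) (by linarith)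
          exact mul_le_mul (mul_le_mul_of_nonneg_left hsq (by norm_num)) hlog3 hlog30
            (by positivity)
      _ = 8 * L * (Y * X ^ (1 / 2 : ℝ)) := by ring
      _ = 8 * L * Z := by rw [hYX]
  have b4 : 12 * L * Z ≤ 3 / 4 * (X / L ^ A) := by
    have h6 : Z * X ^ (9 / 20 : ℝ) = X := by
      rw [hZ, ← Real.rpow_add hX0]
      norm_num
    rw [mul_div_assoc', le_div_iff₀ (by positivity)]
    calc 12 * L * Z * L ^ A = 3 / 4 * (Z * (16 * L ^ (A + 1))) := by ring
      _ ≤ 3 / 4 * (Z * X ^ (9 / 20 : ℝ)) := by gcongr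
      _ = 3 / 4 * X := by rw [h6]
  have b5 : X / L ^ (A + 1) ≤ 1 / 4 * (X / L ^ A) := by
    have h6 : X / L ^ (A + 1) = X / L ^ A * (1 / L) := by
      rw [pow_succ]
      field_simp
    rw [h6, mul_comm]
    refine mul_le_mul_of_nonneg_right ?_ (by positivity)
    exact one_div_le_one_div_of_le (by norm_num) h5
  have h7 : 2 * Real.sqrt (3 * X) * Real.log (3 * X) = 1 / (Nat.totient K : ℝ) *
      ((Nat.totient K : ℝ) * (2 * Real.sqrt (3 * X) * Real.log (3 * X))) := by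
    field_simp
  rw [h7, ← mul_add]
  refine mul_le_mul_of_nonneg_left ?_ (by positivity)
  linarith

end Pool.Agent.NC.J
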