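import Pool.Agent.Lib.MP_0da313_nt.NC.J
import Pool.Agent.Lib.MP_89da58_nt.BvW

set_option autoImplicit false

/-!
[NC wt]: the weight of a conductor.
-/

namespace Pool.Agent.NC.J

open Finset
open Pool.Agent.MP89da58 (sum_omega_le)

/-- A product over a set of naturals of the factors `b / √p` is bounded. -/
private theorem nc_wt_prod (b : ℕ) (P : Finset ℕ) (hP : ∀ p ∈ P, 1 ≤ p) :
    ∏ p ∈ P, ((b : ℝ) / Real.sqrt p) ≤ ((b : ℝ) + 1) ^ (b ^ 2) := by
  have h1 : ∏ p ∈ P, ((b : ℝ) / Real.sqrt p) ≤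
      ∏ p ∈ P, (if p ≤ b ^ 2 then ((b : ℝ) + 1) else 1) := by
    refine Finset.prod_le_prod (fun p _ => by positivity) fun p hp => ?_
    have hp1 : (1 : ℝ) ≤ p := by exact_mod_cast hP p hp
    have hs1 : 1 ≤ Real.sqrt p := by
      rw [Real.one_le_sqrt]; exact hp1
    split_ifs with h
    · have : (b : ℝ) / Real.sqrt p ≤ b := div_le_self (Nat.cast_nonneg _) hs1
      linarith
    · push Not at h
      rw [div_le_one (by linarith)]
      apply Real.le_sqrt_of_sq_le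
      exact_mod_cast h.le
  refine h1.trans ?_
  rw [Finset.prod_ite, Finset.prod_const, Finset.prod_const_one, mul_one]
  apply pow_le_pow_right₀ (by linarith [(Nat.cast_nonneg b : (0 : ℝ) ≤ b)])
  have h2 : P.filter (fun p => p ≤ b ^ 2) ⊆ Icc 1 (b ^ 2) := by
    intro p hp
    obtain ⟨h3, h4⟩ := Finset.mem_filter.1 hp
    exact Finset.mem_Icc.2 ⟨hP p h3, h4⟩
  have h3 := Finset.card_le_card h2
  rwa [Nat.card_Icc, Nat.add_sub_cancel] at h3

/-- The product of the primes dividing `m` has the weight `b ^ ω / ρ ≤ C / √ρ`. -/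
private theorem nc_wt_rho (b m : ℕ) :
    (b : ℝ) ^ m.primeFactors.card / (∏ p ∈ m.primeFactors, p : ℕ) ≤
      ((b : ℝ) + 1) ^ (b ^ 2) / Real.sqrt (∏ p ∈ m.primeFactors, p : ℕ) := by
  have hpos : ∀ p ∈ m.primeFactors, 1 ≤ p := fun p hp => (Nat.prime_of_mem_primeFactors hp).one_lt.le
  have hρ : (0 : ℝ) < ((∏ p ∈ m.primeFactors, p : ℕ) : ℝ) := by
    exact_mod_cast Nat.pos_of_ne_zero (Finset.prod_ne_zero_iff.2 fun p hp => by
      have := hpos p hp
      omega)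
  have h1 := nc_wt_prod b m.primeFactors hpos
  have h2 : ∏ p ∈ m.primeFactors, ((b : ℝ) / Real.sqrt p) =
      (b : ℝ) ^ m.primeFactors.card / Real.sqrt (∏ p ∈ m.primeFactors, p : ℕ) := by
    rw [Finset.prod_div_distrib, Finset.prod_const]
    congr 1
    rw [Nat.cast_prod, Real.sqrt_eq_rpow, ← Real.finsetProd_rpow _ _ (fun p _ => Nat.cast_nonneg p)]
    exact Finset.prod_congr rfl fun p _ => Real.sqrt_eq_rpow _
  rw [h2] at h1
  have hs : 0 < Real.sqrt (∏ p ∈ m.primeFactors, p : ℕ) := Real.sqrt_pos.2 hρ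
  have h3 : (b : ℝ) ^ m.primeFactors.card / ((∏ p ∈ m.primeFactors, p : ℕ) : ℝ) =
      (b : ℝ) ^ m.primeFactors.card / Real.sqrt (∏ p ∈ m.primeFactors, p : ℕ) /
        Real.sqrt (∏ p ∈ m.primeFactors, p : ℕ) := by
    rw [div_div, Real.mul_self_sqrt hρ.le]
  rw [h3]
  exact div_le_div_of_nonneg_right h1 hs.le

/-- If `m ∣ q ^ d` with `q` squarefree, the product of the primes dividing `m` divides `q`, and `m` divides
its power. -/
private theorem nc_wt_dvd {m q d : ℕ} (hm : m ≠ 0) (hq : Squarefree q) (h : m ∣ q ^ d) :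
    ∃ q' : ℕ, q = (∏ p ∈ m.primeFactors, p) * q' ∧ m ∣ (∏ p ∈ m.primeFactors, p) ^ d ∧
      m.Coprime q' := by
  have hsub : m.primeFactors ⊆ q.primeFactors := by
    intro p hp
    have hpp := Nat.prime_of_mem_primeFactors hp
    exact Nat.mem_primeFactors.2 ⟨hpp,
      hpp.dvd_of_dvd_pow ((Nat.dvd_of_mem_primeFactors hp).trans h), hq.ne_zero⟩
  have hdvd : (∏ p ∈ m.primeFactors, p) ∣ q := by
    have h1 := Finset.prod_dvd_prod_of_subset _ _ (fun p : ℕ => p) hsub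
    rwa [Nat.prod_primeFactors_of_squarefree hq] at h1
  obtain ⟨q', hq'⟩ := hdvd
  have hcop : m.Coprime q' := by
    apply Nat.coprime_of_dvd
    intro p hp hpm hpq
    have h1 : p ∣ ∏ p ∈ m.primeFactors, p :=
      Finset.dvd_prod_of_mem (fun p : ℕ => p) (Nat.mem_primeFactors.2 ⟨hp, hpm, hm⟩)
    have h2 : p * p ∣ q := by
      rw [hq']; exact mul_dvd_mul h1 hpq
    exact hp.one_lt.ne' (Nat.isUnit_iff.1 (hq p h2))
  refine ⟨q', hq', ?_, hcop⟩
  rw [hq', mul_pow] at h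
  exact (Nat.Coprime.pow_right d hcop).dvd_of_dvd_mul_right h

theorem p_wt : S_wt := by
  classical
  intro d b hd
  have hC : 0 < ((b : ℝ) + 1) ^ (b ^ 2) := by positivity
  refine ⟨((b : ℝ) + 1) ^ (b ^ 2), hC, ?_⟩
  intro D V f hD hV hf
  have hD' : (1 : ℝ) ≤ D := by exact_mod_cast hD
  have hlogD : 0 ≤ Real.log D := Real.log_nonneg hD'
  have hVr : (0 : ℝ) < V := by exact_mod_cast hV
  have hfr : (0 : ℝ) < f := by exact_mod_cast hf
  have hrhs : 0 ≤ ((b : ℝ) + 1) ^ (b ^ 2) * (1 + Real.log D) ^ b * ((V : ℝ) / f) ^ (1 / (2 * d : ℝ)) := by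
    positivity
  set S := (Icc 1 D).filter (fun q => Squarefree q ∧ f ∣ V * q ^ d) with hS
  by_cases hne : S.Nonempty
  swap
  · rw [Finset.not_nonempty_iff_eq_empty.1 hne, Finset.sum_empty]
    exact hrhs
  -- the reduced divisor
  set g := Nat.gcd f V with hg
  have hg0 : 0 < g := Nat.gcd_pos_of_pos_left _ hf
  set m := f / g with hmdef
  have hfm : f = m * g := (Nat.div_mul_cancel (Nat.gcd_dvd_left f V)).symm
  have hm0 : m ≠ 0 := by
    intro h
    rw [h, zero_mul] at hfm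
    omega
  have hmcop : m.Coprime (V / g) := Nat.coprime_div_gcd_div_gcd hg0
  have hVg : V = V / g * g := (Nat.div_mul_cancel (Nat.gcd_dvd_right f V)).symm
  have hmdvd : ∀ q ∈ S, m ∣ q ^ d := by
    intro q hq
    have h1 := (Finset.mem_filter.1 hq).2.2
    have h2 : m * g ∣ (V / g * q ^ d) * g := by
      have h3 : (V / g * q ^ d) * g = V * q ^ d := by
        calc (V / g * q ^ d) * g = (V / g * g) * q ^ d := by ring
          _ = V * q ^ d := by rw [← hVg]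
      rw [h3, ← hfm]
      exact h1
    exact hmcop.dvd_of_dvd_mul_left (Nat.dvd_of_mul_dvd_mul_right hg0 h2)
  set ρ := ∏ p ∈ m.primeFactors, p with hρ
  have hρ0 : 0 < ρ := Nat.pos_of_ne_zero (Finset.prod_ne_zero_iff.2 fun p hp =>
    (Nat.prime_of_mem_primeFactors hp).ne_zero)
  have hρr : (0 : ℝ) < ρ := by exact_mod_cast hρ0
  have hkey : ∀ q ∈ S, ∃ q' : ℕ, q = ρ * q' ∧ m ∣ ρ ^ d ∧ m.Coprime q' := fun q hq =>
    nc_wt_dvd hm0 (Finset.mem_filter.1 hq).2.1 (hmdvd q hq)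
  have hmρ : (f : ℝ) / V ≤ (ρ : ℝ) ^ d := by
    obtain ⟨q0, hq0⟩ := hne
    obtain ⟨q', _, h2, _⟩ := hkey q0 hq0
    have h3 : m ≤ ρ ^ d := Nat.le_of_dvd (pow_pos hρ0 d) h2
    rw [div_le_iff₀ hVr]
    have h4 : g ≤ V := Nat.le_of_dvd hV (Nat.gcd_dvd_right f V)
    have h5 : f ≤ ρ ^ d * V := by
      rw [hfm]
      exact Nat.mul_le_mul h3 h4
    exact_mod_cast h5
  -- the weight of `ρ`
  have hd' : (0 : ℝ) < d := by exact_mod_cast hd
  have hpow : 1 / Real.sqrt ρ ≤ ((V : ℝ) / f) ^ (1 / (2 * d : ℝ)) := by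
    have h1 : ((f : ℝ) / V) ^ (1 / (2 * d : ℝ)) ≤ Real.sqrt ρ := by
      calc ((f : ℝ) / V) ^ (1 / (2 * d : ℝ)) ≤ ((ρ : ℝ) ^ d) ^ (1 / (2 * d : ℝ)) :=
            Real.rpow_le_rpow (by positivity) hmρ (by positivity)
        _ = Real.sqrt ρ := by
            rw [← Real.rpow_natCast, ← Real.rpow_mul hρr.le, Real.sqrt_eq_rpow]
            congr 1
            field_simp
    have h2 : ((V : ℝ) / f) ^ (1 / (2 * d : ℝ)) = 1 / ((f : ℝ) / V) ^ (1 / (2 * d : ℝ)) := by
      rw [← inv_div, Real.inv_rpow (by positivity), one_div (((f : ℝ) / V) ^ (1 / (2 * d : ℝ)))]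
    rw [h2]
    exact one_div_le_one_div_of_le (Real.rpow_pos_of_pos (by positivity) _) h1
  have hw : (b : ℝ) ^ m.primeFactors.card / ρ ≤
      ((b : ℝ) + 1) ^ (b ^ 2) * ((V : ℝ) / f) ^ (1 / (2 * d : ℝ)) := by
    refine (nc_wt_rho b m).trans ?_
    rw [← hρ, div_eq_mul_one_div]
    exact mul_le_mul_of_nonneg_left hpow hC.le
  -- the sum
  have hterm : ∀ q ∈ S, (b : ℝ) ^ q.primeFactors.card / q =
      (b : ℝ) ^ m.primeFactors.card / ρ * ((b : ℝ) ^ (q / ρ).primeFactors.card / ((q / ρ : ℕ) : ℝ)) := by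
    intro q hq
    obtain ⟨q', h1, _, h3⟩ := hkey q hq
    have hsq := (Finset.mem_filter.1 hq).2.1
    have h4 : q / ρ = q' := by rw [h1, Nat.mul_div_cancel_left q' hρ0]
    rw [h4]
    have h5 : ρ.Coprime q' := by
      rw [h1] at hsq
      exact Nat.coprime_of_squarefree_mul hsq
    have h6 : ρ.primeFactors = m.primeFactors := Nat.primeFactors_prod fun p hp =>
      Nat.prime_of_mem_primeFactors hp
    have h7 : q.primeFactors.card = m.primeFactors.card + q'.primeFactors.card := by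
      rw [h1, h5.primeFactors_mul, Finset.card_union_of_disjoint h5.disjoint_primeFactors, h6]
    rw [h7, pow_add, h1]
    push_cast
    rw [mul_div_mul_comm]
  have hinj : Set.InjOn (fun q => q / ρ) (S : Set ℕ) := by
    intro q hq r hr h
    obtain ⟨q', h1, _, _⟩ := hkey q hq
    obtain ⟨r', h2, _, _⟩ := hkey r hr
    simp only [h1, h2, Nat.mul_div_cancel_left _ hρ0] at h
    rw [h1, h2, h]
  rw [Finset.sum_congr rfl hterm, ← Finset.mul_sum]
  have h8 : ∑ q ∈ S, ((b : ℝ) ^ (q / ρ).primeFactors.card / ((q / ρ : ℕ) : ℝ)) ≤ (1 + Real.log D) ^ b := by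
    have h9 : ∑ q ∈ S, ((b : ℝ) ^ (q / ρ).primeFactors.card / ((q / ρ : ℕ) : ℝ)) =
        ∑ r ∈ S.image (fun q => q / ρ), ((b : ℝ) ^ r.primeFactors.card / (r : ℝ)) := by
      rw [Finset.sum_image hinj]
    rw [h9]
    refine (Finset.sum_le_sum_of_subset_of_nonneg ?_ fun _ _ _ => by positivity).trans
      (sum_omega_le b D hD)
    intro r hr
    obtain ⟨q, hq, rfl⟩ := Finset.mem_image.1 hr
    obtain ⟨q', h1, _, _⟩ := hkey q hq
    have hq2 := Finset.mem_filter.1 hq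
    have hq3 := Finset.mem_Icc.1 hq2.1
    have hsq := hq2.2.1
    have h4 : q / ρ = q' := by rw [h1, Nat.mul_div_cancel_left q' hρ0]
    rw [Finset.mem_filter, Finset.mem_Icc]
    refine ⟨⟨?_, (Nat.div_le_self _ _).trans hq3.2⟩, ?_⟩
    · rw [h4]
      rcases Nat.eq_zero_or_pos q' with h | h
      · rw [h, mul_zero] at h1
        omega
      · exact h
    · rw [h4]
      rw [h1] at hsq
      exact hsq.of_mul_right
  calc (b : ℝ) ^ m.primeFactors.card / ρ *
        ∑ q ∈ S, ((b : ℝ) ^ (q / ρ).primeFactors.card / ((q / ρ : ℕ) : ℝ))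
      ≤ (((b : ℝ) + 1) ^ (b ^ 2) * ((V : ℝ) / f) ^ (1 / (2 * d : ℝ))) * (1 + Real.log D) ^ b :=
        mul_le_mul hw h8 (Finset.sum_nonneg fun _ _ => by positivity) (by positivity)
    _ = _ := by ring

end Pool.Agent.NC.J
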