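import Pool.Agent.Lib.MP_0da313_nt.NC.G

set_option autoImplicit false

/-!
Project NC, section G, piece grd: Bessel's inequality on the grid.
-/

namespace Pool.Agent.NC.G

open Finset
open Pool.Agent.SP80 (ex)

private theorem ng_grd_add (x y : ℝ) : ex (x + y) = ex x * ex y := by
  unfold ex
  rw [← Complex.exp_add]
  congr 1
  push_cast
  ring

private theorem ng_grd_conj (x : ℝ) : (starRingEnd ℂ) (ex x) = ex (-x) := by
  unfold ex
  rw [← Complex.exp_conj, map_mul, Complex.conj_ofReal, Complex.conj_I]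
  congr 1
  push_cast
  ring

private theorem ng_grd_pow (x : ℝ) (n : ℕ) : ex x ^ n = ex (n * x) := by
  unfold ex
  rw [← Complex.exp_nat_mul]
  congr 1
  push_cast
  ring

private theorem ng_grd_one (x : ℝ) : ex x = 1 ↔ ∃ n : ℤ, x = n := by
  unfold ex
  rw [Complex.exp_eq_one_iff]
  have hpi : (Real.pi : ℂ) ≠ 0 := by exact_mod_cast Real.pi_ne_zero
  constructor
  · rintro ⟨n, hn⟩
    refine ⟨n, ?_⟩
    have h1 : (2 * Real.pi * Complex.I : ℂ) * ((x : ℂ) - n) = 0 := by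
      push_cast at hn
      linear_combination hn
    have h2 : (2 * Real.pi * Complex.I : ℂ) ≠ 0 := by
      simp [hpi, Complex.I_ne_zero]
    have h3 := (mul_eq_zero.1 h1).resolve_left h2
    have h4 : (x : ℂ) = ((n : ℝ) : ℂ) := by
      push_cast
      linear_combination h3
    exact_mod_cast h4
  · rintro ⟨n, rfl⟩
    refine ⟨n, ?_⟩
    push_cast
    ring

/-- orthogonality on the grid -/
theorem ng_grd_sum (L : ℕ) (hL : 1 ≤ L) (j : ℤ) :
    ∑ t ∈ range L, ex ((t : ℝ) / L * j) = if (L : ℤ) ∣ j then (L : ℂ) else 0 := by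
  have hL0 : (L : ℝ) ≠ 0 := by
    have : L ≠ 0 := by omega
    exact_mod_cast this
  have h1 : ∀ t : ℕ, ex ((t : ℝ) / L * j) = ex ((j : ℝ) / L) ^ t := by
    intro t
    rw [ng_grd_pow]
    congr 1
    ring
  simp_rw [h1]
  by_cases h : (L : ℤ) ∣ j
  · rw [if_pos h]
    obtain ⟨m, rfl⟩ := h
    have h2 : ex ((((L : ℤ) * m : ℤ) : ℝ) / L) = 1 := by
      rw [ng_grd_one]
      refine ⟨m, ?_⟩
      push_cast
      field_simp
    rw [h2]
    simp
  · rw [if_neg h]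
    have h2 : ex ((j : ℝ) / L) ≠ 1 := by
      intro h3
      rw [ng_grd_one] at h3
      obtain ⟨n, hn⟩ := h3
      refine h ⟨n, ?_⟩
      rw [div_eq_iff hL0] at hn
      have : (j : ℝ) = ((L : ℤ) * n : ℤ) := by
        push_cast
        rw [hn]
        ring
      exact_mod_cast this
    have h3 : ex ((j : ℝ) / L) ^ L = 1 := by
      rw [ng_grd_pow, ng_grd_one]
      refine ⟨j, ?_⟩
      field_simp
    rw [geom_sum_eq h2, h3, sub_self, zero_div]

theorem p_grd : S_grd := by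
  intro a g Sk Sx Sn F h L ha hL h1 h2
  have hL0 : (0 : ℝ) < L := by exact_mod_cast hL
  have hLC : (L : ℂ) ≠ 0 := by
    have : L ≠ 0 := by omega
    exact_mod_cast this
  set A : ℕ → ℂ := fun t => ∑ k ∈ Sk, (F k : ℂ) * ex ((t : ℝ) / L * k) with hA
  set B : ℕ → ℂ := fun t => ∑ x ∈ Sx, (h x : ℂ) * ex (-((t : ℝ) / L) * (g x : ℝ)) with hB
  set R : ℕ → ℝ := Rn a g Sk Sx F h with hR
  set C : ℕ → ℂ := fun t => ∑ n ∈ Sn, (R n : ℂ) * ex (-((t : ℝ) / L) * ((a * (n : ℤ) : ℤ) : ℝ))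
    with hC
  -- the coefficients as an average
  have hcoef : ∀ n ∈ Sn, ((L : ℂ)) * (R n : ℂ) =
      ∑ t ∈ range L, A t * B t * ex (-((t : ℝ) / L) * ((a * (n : ℤ) : ℤ) : ℝ)) := by
    intro n hn
    have e1 : ∀ t ∈ range L, A t * B t * ex (-((t : ℝ) / L) * ((a * (n : ℤ) : ℤ) : ℝ)) =
        ∑ x ∈ Sx, ∑ k ∈ Sk, ((F k * h x : ℝ) : ℂ) *
          ex ((t : ℝ) / L * (((k : ℤ) - (a * n + g x) : ℤ) : ℝ)) := by
      intro t _
      rw [hA, hB]
      simp only
      rw [mul_comm (∑ k ∈ Sk, _), sum_mul_sum, sum_mul]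
      refine sum_congr rfl fun x _ => ?_
      rw [sum_mul]
      refine sum_congr rfl fun k _ => ?_
      have e : ((t : ℝ) / L * (((k : ℤ) - (a * n + g x) : ℤ) : ℝ)) =
          (t : ℝ) / L * k + ((-((t : ℝ) / L) * (g x : ℝ)) +
            (-((t : ℝ) / L) * ((a * (n : ℤ) : ℤ) : ℝ))) := by
        push_cast
        ring
      rw [e, ng_grd_add, ng_grd_add]
      push_cast
      ring
    rw [sum_congr rfl e1, sum_comm]
    have e2 : ((R n : ℝ) : ℂ) = ∑ x ∈ Sx, ∑ k ∈ Sk,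
        ((if (k : ℤ) = a * (n : ℤ) + g x then F k * h x else 0 : ℝ) : ℂ) := by
      rw [hR]
      unfold Rn
      push_cast
      rfl
    rw [e2, mul_sum]
    refine sum_congr rfl fun x hx => ?_
    rw [sum_comm, mul_sum]
    refine sum_congr rfl fun k hk => ?_
    rw [← mul_sum, ng_grd_sum L hL]
    by_cases hk0 : (k : ℤ) = a * (n : ℤ) + g x
    · rw [if_pos hk0, if_pos (by rw [hk0, sub_self]; exact dvd_zero _)]
      ring
    · rw [if_neg hk0, if_neg]
      · simp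
      · intro hd
        exact hk0 (sub_eq_zero.1 (Int.eq_zero_of_abs_lt_dvd hd (h1 k hk x hx n hn)))
  -- the sum of squares
  have hS : ((L : ℂ)) * ((∑ n ∈ Sn, R n ^ 2 : ℝ) : ℂ) = ∑ t ∈ range L, A t * B t * C t := by
    push_cast
    rw [mul_sum]
    have e1 : ∀ n ∈ Sn, (L : ℂ) * (R n : ℂ) ^ 2 = ∑ t ∈ range L,
        A t * B t * ((R n : ℂ) * ex (-((t : ℝ) / L) * ((a * (n : ℤ) : ℤ) : ℝ))) := by
      intro n hn
      have : (L : ℂ) * (R n : ℂ) ^ 2 = ((L : ℂ) * (R n : ℂ)) * (R n : ℂ) := by ring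
      rw [this, hcoef n hn, sum_mul]
      refine sum_congr rfl fun t _ => ?_
      ring
    rw [sum_congr rfl e1, sum_comm]
    refine sum_congr rfl fun t _ => ?_
    exact (mul_sum _ _ _).symm
  -- Parseval for `C`
  have hCC : ∑ t ∈ range L, ‖C t‖ ^ 2 = L * ∑ n ∈ Sn, R n ^ 2 := by
    have e1 : ((∑ t ∈ range L, ‖C t‖ ^ 2 : ℝ) : ℂ) = ∑ t ∈ range L, ∑ n ∈ Sn, ∑ n' ∈ Sn,
        ((R n * R n' : ℝ) : ℂ) * ex ((t : ℝ) / L * ((a * ((n' : ℤ) - n) : ℤ) : ℝ)) := by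
      push_cast
      refine sum_congr rfl fun t _ => ?_
      rw [← Complex.mul_conj', hC]
      simp only
      rw [map_sum, sum_mul_sum]
      refine sum_congr rfl fun n _ => sum_congr rfl fun n' _ => ?_
      rw [map_mul, Complex.conj_ofReal, ng_grd_conj]
      have e : ((t : ℝ) / L * (a * ((n' : ℝ) - n))) =
          (-((t : ℝ) / L) * ((a * (n : ℤ) : ℤ) : ℝ)) +
            -(-((t : ℝ) / L) * ((a * (n' : ℤ) : ℤ) : ℝ)) := by
        push_cast
        ring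
      rw [e, ng_grd_add]
      ring
    have e2 : ((∑ t ∈ range L, ‖C t‖ ^ 2 : ℝ) : ℂ) = ((L * ∑ n ∈ Sn, R n ^ 2 : ℝ) : ℂ) := by
      rw [e1, sum_comm]
      push_cast
      rw [mul_sum]
      refine sum_congr rfl fun n hn => ?_
      rw [sum_comm, sum_eq_single n]
      · rw [← mul_sum]
        have e3 : ∀ t ∈ range L, ex ((t : ℝ) / L * ((a : ℝ) * ((n : ℝ) - n))) = 1 := by
          intro t _
          rw [sub_self, mul_zero, mul_zero, ng_grd_one]
          exact ⟨0, by simp⟩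
        rw [sum_congr rfl e3]
        simp
        ring
      · intro n' hn' hne
        rw [← mul_sum]
        have e3 := ng_grd_sum L hL (a * ((n' : ℤ) - n))
        rw [if_neg] at e3
        · push_cast at e3
          rw [e3, mul_zero]
        · intro hd
          have h3 := Int.eq_zero_of_abs_lt_dvd hd (h2 n' hn' n hn)
          have h4 := (mul_eq_zero.1 h3).resolve_left ha
          exact hne (by omega)
      · intro hn'
        exact absurd hn hn'
    exact_mod_cast e2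
  have hle : L * ∑ n ∈ Sn, R n ^ 2 ≤ ∑ t ∈ range L, (‖A t‖ ^ 2 * ‖B t‖ ^ 2 + ‖C t‖ ^ 2) / 2 := by
    have e0 : (0 : ℝ) ≤ L * ∑ n ∈ Sn, R n ^ 2 := by positivity
    have e1 : L * ∑ n ∈ Sn, R n ^ 2 = ‖∑ t ∈ range L, A t * B t * C t‖ := by
      rw [← hS]
      have : ((L : ℂ)) * ((∑ n ∈ Sn, R n ^ 2 : ℝ) : ℂ) = ((L * ∑ n ∈ Sn, R n ^ 2 : ℝ) : ℂ) := by
        push_cast
        rfl
      rw [this, Complex.norm_real, Real.norm_eq_abs, abs_of_nonneg e0]
    rw [e1]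
    refine (norm_sum_le _ _).trans (sum_le_sum fun t _ => ?_)
    rw [norm_mul, norm_mul]
    nlinarith [sq_nonneg (‖A t‖ * ‖B t‖ - ‖C t‖)]
  rw [← sum_div, sum_add_distrib, hCC] at hle
  have hfin : L * ∑ n ∈ Sn, R n ^ 2 ≤ ∑ t ∈ range L, ‖A t‖ ^ 2 * ‖B t‖ ^ 2 := by linarith
  have : ∑ n ∈ Sn, R n ^ 2 ≤ 1 / (L : ℝ) * ∑ t ∈ range L, ‖A t‖ ^ 2 * ‖B t‖ ^ 2 := by
    rw [one_div, ← div_eq_inv_mul, le_div_iff₀ hL0]
    linarith
  exact this

end Pool.Agent.NC.G
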